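import Pool.Agent.Helper29.Twi.Evo

/-!
# A criterion with the stretching rate at one maximum point
-/

set_option autoImplicit false

open MeasureTheory ProbabilityTheory Set Filter Topology
open scoped ContDiff

namespace Pool.Agent.Helper29.Twi

open Pool.Agent.Helper29.Dir
open Pool.Agent.H708R2.EulerSign Pool.Agent.H708R2.EulerTypeI Pool.Agent.W734.NS
open Pool.Agent.W786.Max
open H459R3.NS (pd energy cube Per IsSol C4)

variable {T : ℝ} {u : ℝ → V → V} {p : ℝ → V → ℝ} {g D : ℝ → ℝ} {s₁ : ℝ}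

lemma Us_gradm (h : IsSol 0 T u p) {t : ℝ} (ht : t + s₁ ∈ Ico 0 T) (x : V) :
    grad (Us s₁ u t) x = grad (u (t + s₁)) (tp⁻¹ • x) := by
  unfold grad
  rw [Us_fderiv h ht]

lemma Us_vort (h : IsSol 0 T u p) {t : ℝ} (ht : t + s₁ ∈ Ico 0 T) (x : V) :
    vort (Us s₁ u t) x = vort (u (t + s₁)) (tp⁻¹ • x) := by
  unfold vort
  rw [Us_gradm h ht]

/-- The bound of the vorticity. -/
lemma vort_growth (h : IsSol 0 T u p)
    (hg : ∀ t ∈ Ico 0 T, ∀ i j x, |pd j (fun y => u t y i) x| ≤ g t) {s : ℝ} (hs : s ∈ Ioo 0 T)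
    (hDc : ContinuousOn D (Ico s T)) (hD0 : ∀ t ∈ Ico s T, 0 ≤ D t)
    (hmax : ∀ᵐ t, t ∈ Ioo s T → ∃ x, IsMaxPt u t x ∧ Pq u t x ≤ D t * Wq u t x) {t : ℝ}
    (ht : t ∈ Ico s T) (x : V) :
    nrm (vort (u t) x) ≤ 4 * g s * Real.exp (∫ q in s..t, D q) := by
  set s₁ : ℝ := s / 2 with hs₁
  have hs10 : 0 < s₁ := half_pos hs.1
  have hs1 : s₁ ∈ Ioo 0 T := ⟨hs10, by linarith [hs.2]⟩
  have hU : IsC2Solution (T - s₁) (Us s₁ u) (Ps s₁ p) := Us_sol h hs1
  have hmem : ∀ τ ∈ Icc (s - s₁) (t - s₁), τ + s₁ ∈ Ico s T := fun τ hτ =>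
    ⟨by linarith [hτ.1], by linarith [hτ.2, ht.2]⟩
  have hmem0 : ∀ τ ∈ Icc (s - s₁) (t - s₁), τ + s₁ ∈ Ico 0 T := fun τ hτ =>
    ⟨by linarith [(hmem τ hτ).1, hs.1], (hmem τ hτ).2⟩
  have hmax' : ∀ᵐ τ, τ ∈ Ioo (s - s₁) (t - s₁) → ∃ x, IsMaxPt (Us s₁ u) τ x ∧
      Pq (Us s₁ u) τ x ≤ D (τ + s₁) * Wq (Us s₁ u) τ x := by
    have h1 := (measurePreserving_add_right volume s₁).quasiMeasurePreserving.ae hmax
    filter_upwards [h1] with τ hτ hτI
    have hI := Ioo_subset_Icc_self hτI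
    obtain ⟨x, hx1, hx2⟩ := hτ ⟨by linarith [hτI.1], (hmem τ hI).2⟩
    refine ⟨tp • x, fun y => ?_, ?_⟩
    · rw [Us_vort h (hmem0 τ hI), Us_vort h (hmem0 τ hI), inv_smul_smul₀ tp_pos.ne']
      exact hx1 _
    · unfold Pq Wq
      rw [Us_vort h (hmem0 τ hI), Us_gradm h (hmem0 τ hI), inv_smul_smul₀ tp_pos.ne']
      exact hx2
  have hK : ∀ y, nrm (vort (Us s₁ u (s - s₁)) y) ≤ 4 * g s := by
    intro y
    have hsI : (s - s₁) + s₁ ∈ Ico 0 T := by
      rw [sub_add_cancel]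
      exact ⟨hs.1.le, hs.2⟩
    rw [Us_vort h hsI, sub_add_cancel]
    have h1 := nrm_le_two (vort (u s) (tp⁻¹ • y))
    have h2 := vort_sup h ⟨hs.1.le, hs.2⟩ (hg s ⟨hs.1.le, hs.2⟩) (tp⁻¹ • y)
    linarith
  have hDi : IntegrableOn (fun τ => D (τ + s₁)) (Icc (s - s₁) (t - s₁)) :=
    (hDc.comp (continuous_id.add continuous_const).continuousOn
      fun τ hτ => hmem τ hτ).integrableOn_Icc
  have key := max_growth hU (a := s - s₁) (b := t - s₁) (by linarith) (by linarith [ht.1])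
    (by linarith [ht.2]) hDi (fun τ hτ => hD0 _ (hmem τ (Ioo_subset_Icc_self hτ))) hmax' hK (tp • x)
  have htI : (t - s₁) + s₁ ∈ Ico 0 T := by
    rw [sub_add_cancel]
    exact ⟨hs.1.le.trans ht.1, ht.2⟩
  rw [Us_vort h htI, sub_add_cancel, inv_smul_smul₀ tp_pos.ne',
    intervalIntegral.integral_comp_add_right (f := D), sub_add_cancel, sub_add_cancel] at key
  exact key

/-- The logarithmic bound of the gradient. -/
lemma grad_log (h : IsSol 0 T u p) {t G : ℝ} (ht : t ∈ Ico 0 T)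
    (hg : ∀ i j x, |pd j (fun y => u t y i) x| ≤ G) {Ω : ℝ} (hΩ : ∀ y, ‖vort (u t) y‖ ≤ Ω)
    (i j : Fin 3) (x : V) :
    |pd j (fun y => u t y i) x|
      ≤ 40 * (Kc 1 * ((1 + Ω) * (2 + energy (u 0) + Real.log (1 + Nn u t)))) := by
  have hΩ0 : 0 ≤ Ω := (norm_nonneg _).trans (hΩ 0)
  have hE0 : 0 ≤ energy (u 0) := Finset.sum_nonneg fun i _ => integral_nonneg fun _ => sq_nonneg _
  obtain ⟨M, H⟩ := vf_of_sol h ht hg
  have hN0 := Nn_nonneg u t
  have hEE : energy (u t) ≤ energy (u 0) := energy_le0 h ht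
  have key := H.grad_le (fun i x => h.per_u t ht i x) hEE (N_bound h ht) hΩ
    (ε := 1 / (1 + Nn u t)) (by positivity) (by
      rw [div_le_one (by positivity)]
      linarith) x i j
  rw [Gr_eq_pd h ht] at key
  refine key.trans ?_
  have h1 : Nn u t * (1 / (1 + Nn u t)) ≤ 1 := by
    rw [mul_one_div, div_le_one (by positivity)]
    linarith
  have hK1 : 1 ≤ Kc 1 := by
    have m1 := mom_nonneg 3 1
    have m2 := mom_nonneg 3 2
    have m3 := mom_nonneg 3 3
    have mk := mom_nonneg 3 (2 + 1)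
    unfold Kc
    linarith
  have hl : 0 ≤ Real.log (1 + Nn u t) := Real.log_nonneg (by linarith)
  refine alg2 hK1 h1 ?_ (by linarith) hE0 hΩ0
  rw [one_div_one_div]
  linarith

/-- Gronwall. -/
lemma gron {s A : ℝ} {L φ : ℝ → ℝ} (hLc : ContinuousOn L (Ico s T))
    (hφc : ContinuousOn φ (Ico s T)) (hφ0 : ∀ t ∈ Ico s T, 0 ≤ φ t)
    (hL : ∀ t ∈ Ico s T, L t ≤ A + ∫ q in s..t, φ q * L q) {t : ℝ} (ht : t ∈ Ico s T) :
    L t ≤ A * Real.exp (∫ q in s..t, φ q) := by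
  have hc := hφc.mul hLc
  set F : ℝ → ℝ := fun t => A + ∫ q in s..t, φ q * L q with hF
  set Φ : ℝ → ℝ := fun t => ∫ q in s..t, φ q with hΦ
  have hsub : Icc s t ⊆ Ico s T := fun q hq => ⟨hq.1, hq.2.trans_lt ht.2⟩
  have hFc : ContinuousOn F (Ico s T) := continuousOn_const.add (prim_cont hc)
  have hΦc : ContinuousOn Φ (Ico s T) := prim_cont hφc
  have hHc : ContinuousOn (fun t => F t * Real.exp (-Φ t)) (Icc s t) :=
    (hFc.mul (Real.continuous_exp.comp_continuousOn hΦc.neg)).mono hsub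
  have hd : ∀ q ∈ Ioo s t, HasDerivAt (fun t => F t * Real.exp (-Φ t))
      ((φ q * L q) * Real.exp (-Φ q) + F q * (Real.exp (-Φ q) * (-φ q))) q := by
    intro q hq
    have hq' : q ∈ Ioo s T := ⟨hq.1, hq.2.trans ht.2⟩
    exact ((prim_at hc hq').const_add A).mul ((prim_at hφc hq').neg.exp)
  have hanti : AntitoneOn (fun t => F t * Real.exp (-Φ t)) (Icc s t) := by
    refine antitoneOn_of_deriv_nonpos (convex_Icc s t) hHc ?_ ?_
    · intro q hq
      rw [interior_Icc] at hq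
      exact (hd q hq).differentiableAt.differentiableWithinAt
    · intro q hq
      rw [interior_Icc] at hq
      rw [(hd q hq).deriv]
      have hqI : q ∈ Ico s T := ⟨hq.1.le, hq.2.trans ht.2⟩
      have h1 := hL q hqI
      have h2 := hφ0 q hqI
      have h3 : 0 ≤ φ q * (F q - L q) := mul_nonneg h2 (by simp only [hF]; linarith)
      have h4 := Real.exp_pos (-Φ q)
      nlinarith
  have h5 := hanti ⟨le_rfl, ht.1⟩ ⟨ht.1, le_rfl⟩ ht.1
  have h6 : F s * Real.exp (-Φ s) = A := by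
    simp [hF, hΦ]
  simp only at h5
  rw [h6] at h5
  have h7 : F t = (F t * Real.exp (-Φ t)) * Real.exp (Φ t) := by
    rw [mul_assoc, ← Real.exp_add]
    simp
  calc L t ≤ F t := hL t ht
    _ = (F t * Real.exp (-Φ t)) * Real.exp (Φ t) := h7
    _ ≤ A * Real.exp (Φ t) := mul_le_mul_of_nonneg_right h5 (Real.exp_pos _).le

/-- Beale-Kato-Majda. -/
theorem bkm_reg (h : IsSol 0 T u p) (hT : 0 < T) (hgc : ContinuousOn g (Ico 0 T))
    (hg : ∀ t ∈ Ico 0 T, ∀ i j x, |pd j (fun y => u t y i) x| ≤ g t) {s : ℝ} (hs : s ∈ Ioo 0 T)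
    {Ω : ℝ → ℝ} (hΩc : ContinuousOn Ω (Ico s T))
    (hΩ : ∀ t ∈ Ico s T, ∀ y, ‖vort (u t) y‖ ≤ Ω t) {B : ℝ}
    (hB : ∀ t ∈ Ico s T, ∫ q in s..t, Ω q ≤ B) (r : ℕ) :
    ∃ B, ∀ t ∈ Ico 0 T, hn (r + 2) (u t) ≤ B := by
  have hg0 : ∀ t ∈ Ico 0 T, 0 ≤ g t := fun t ht => (abs_nonneg _).trans (hg t ht 0 0 0)
  have hΩ0 : ∀ t ∈ Ico s T, 0 ≤ Ω t := fun t ht => (norm_nonneg _).trans (hΩ t ht 0)
  have hsI : s ∈ Ico 0 T := ⟨hs.1.le, hs.2⟩
  have hgs := hg0 s hsI
  have hsub : ∀ t ∈ Ico s T, t ∈ Ico 0 T := fun t ht => ⟨hs.1.le.trans ht.1, ht.2⟩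
  set E := energy (u 0) with hE
  have hE0 : 0 ≤ E := Finset.sum_nonneg fun i _ => integral_nonneg fun _ => sq_nonneg _
  have hK1 := Kc_pos 1
  set L : ℝ → ℝ := fun t => 2 + E + Real.log (1 + Nn u t) with hL
  have hL1 : ∀ t, 1 ≤ L t := fun t => by
    have := Real.log_nonneg (by linarith [Nn_nonneg u t] : (1 : ℝ) ≤ 1 + Nn u t)
    simp only [hL]
    linarith
  have hLc : ContinuousOn L (Ico 0 T) := by
    refine continuousOn_const.add (ContinuousOn.log (continuousOn_const.add ?_) fun t _ => ?_)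
    · unfold Nn
      exact continuousOn_const.mul (continuousOn_const.mul
        (Real.continuous_sqrt.comp_continuousOn (hn_continuousOn h 2)))
    · have := Nn_nonneg u t
      positivity
  set κ : ℝ := 40 * Kc 1 with hκ
  have hκ0 : 0 ≤ κ := by positivity
  set GG : ℝ → ℝ := fun t => κ * ((1 + Ω t) * L t) with hGG
  have hGGb : ∀ t ∈ Ico s T, ∀ i j x, |pd j (fun y => u t y i) x| ≤ GG t := by
    intro t ht i j x
    have h1 := grad_log h (hsub t ht) (hg t (hsub t ht)) (hΩ t ht) i j x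
    refine h1.trans (le_of_eq ?_)
    simp only [hGG, hκ, hL, ← hE]
    ring
  have hGG0 : ∀ t ∈ Ico s T, 0 ≤ GG t := fun t ht => (abs_nonneg _).trans (hGGb t ht 0 0 0)
  have hGGc : ContinuousOn GG (Ico s T) :=
    continuousOn_const.mul ((continuousOn_const.add hΩc).mul
      (hLc.mono fun t ht => hsub t ht))
  set gg : ℝ → ℝ := fun t => g (min t s) + GG (max t s) with hgg
  have m1 : ∀ t ∈ Ico 0 T, min t s ∈ Ico 0 T := fun t ht =>
    ⟨le_min ht.1 hs.1.le, (min_le_left _ _).trans_lt ht.2⟩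
  have m2 : ∀ t ∈ Ico 0 T, max t s ∈ Ico s T := fun t ht =>
    ⟨le_max_right t s, max_lt ht.2 hs.2⟩
  have hggc : ContinuousOn gg (Ico 0 T) :=
    (hgc.comp (continuous_id.min continuous_const).continuousOn m1).add
      (hGGc.comp (continuous_id.max continuous_const).continuousOn m2)
  have hggb : ∀ t ∈ Ico 0 T, ∀ i m x, |pd m (fun y => u t y i) x| ≤ gg t := by
    intro t ht i m x
    have n1 := hg0 _ (m1 t ht)
    have n2 := hGG0 _ (m2 t ht)
    rcases le_total t s with h4 | h4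
    · refine (hg t ht i m x).trans ?_
      have e1 : min t s = t := min_eq_left h4
      simp only [hgg]
      rw [e1] at n1 ⊢
      linarith
    · have e1 : max t s = t := max_eq_left h4
      have h6 := hGGb t ⟨h4, ht.2⟩ i m x
      refine h6.trans ?_
      simp only [hgg]
      rw [e1]
      linarith
  have hgg0 : ∀ t ∈ Ico 0 T, 0 ≤ gg t := fun t ht => (abs_nonneg _).trans (hggb t ht 0 0 0)
  -- the integral of `gg`
  have hint : ∀ t ∈ Ico s T, ∫ q in 0..t, gg q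
      ≤ ((∫ q in 0..s, gg q) + g s * T) + κ * ∫ q in s..t, (1 + Ω q) * L q := by
    intro t ht
    rw [← intervalIntegral.integral_add_adjacent_intervals (ii_of_cont hggc hsI)
      (ii_sub hggc hs.1.le ht.1 ht.2)]
    have e1 : ∫ q in s..t, gg q = ∫ q in s..t, (g s + GG q) := by
      refine intervalIntegral.integral_congr fun q hq => ?_
      rw [uIcc_of_le ht.1] at hq
      simp only [hgg]
      rw [min_eq_right hq.1, max_eq_left hq.1]
    have e2 : IntervalIntegrable GG volume s t := ii_of_cont hGGc ht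
    rw [e1, intervalIntegral.integral_add intervalIntegrable_const e2,
      intervalIntegral.integral_const, smul_eq_mul]
    have e3 : ∫ q in s..t, GG q = κ * ∫ q in s..t, (1 + Ω q) * L q :=
      intervalIntegral.integral_const_mul _ _
    have e5 : (t - s) * g s ≤ g s * T := by
      nlinarith [ht.2, hs.1]
    rw [e3]
    linarith
  -- the bound of `L`
  obtain ⟨C, hC, hadd⟩ := hn_add 0
  obtain ⟨a, ha, hexp⟩ := hadd T u p gg h hggc hggb s hs
  set B2 : ℝ := 9 * (1 + Real.sqrt C4) with hB2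
  have hB2n : 0 ≤ B2 := by positivity
  set A₁ : ℝ := 2 + E + (Real.log (1 + 0 + B2) + a + C * ((∫ q in 0..s, gg q) + g s * T)) with hA₁
  have hLle : ∀ t ∈ Ico s T, L t ≤ A₁ + ∫ q in s..t, (C * κ * (1 + Ω q)) * L q := by
    intro t ht
    have hI : 0 ≤ ∫ q in 0..t, gg q := prim_nonneg hgg0 (hsub t ht)
    have hy : 0 ≤ a + C * ∫ q in 0..t, gg q := by positivity
    have h1 := log_le (A := 0) (B := B2) le_rfl hB2n (Real.sqrt_nonneg (hn 2 (u t))) hy
      (sqrt_le_exp hy (hexp t ht))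
    have e : 1 + Nn u t = 1 + (0 + B2 * Real.sqrt (hn 2 (u t))) := by
      unfold Nn
      rw [hB2]
      ring
    have h2 : C * ∫ q in 0..t, gg q ≤ C * (((∫ q in 0..s, gg q) + g s * T)
        + κ * ∫ q in s..t, (1 + Ω q) * L q) := mul_le_mul_of_nonneg_left (hint t ht) hC.le
    have h3 : ∫ q in s..t, (C * κ * (1 + Ω q)) * L q = C * κ * ∫ q in s..t, (1 + Ω q) * L q := by
      rw [← intervalIntegral.integral_const_mul]
      refine intervalIntegral.integral_congr fun q _ => ?_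
      ring
    rw [h3]
    simp only [hL]
    rw [e]
    simp only [hA₁]
    linarith
  have hφc : ContinuousOn (fun q => C * κ * (1 + Ω q)) (Ico s T) :=
    continuousOn_const.mul (continuousOn_const.add hΩc)
  have hφ0 : ∀ t ∈ Ico s T, 0 ≤ C * κ * (1 + Ω t) := fun t ht => by
    have := hΩ0 t ht
    positivity
  have hLs : ContinuousOn L (Ico s T) := hLc.mono fun t ht => hsub t ht
  have hgr : ∀ t ∈ Ico s T, L t ≤ A₁ * Real.exp (∫ q in s..t, C * κ * (1 + Ω q)) := fun t ht =>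
    gron hLs hφc hφ0 hLle ht
  have hA₁1 : 0 ≤ A₁ := by
    have h1 := hLle s ⟨le_rfl, hs.2⟩
    rw [intervalIntegral.integral_same, add_zero] at h1
    linarith [hL1 s]
  have hone : ∀ t ∈ Ico s T, ∫ q in s..t, (1 + Ω q) ≤ T + B := by
    intro t ht
    rw [intervalIntegral.integral_add intervalIntegrable_const (ii_of_cont hΩc ht),
      intervalIntegral.integral_const, smul_eq_mul, mul_one]
    have := hB t ht
    linarith [hs.1, ht.2]
  set M : ℝ := A₁ * Real.exp (C * κ * (T + B)) with hM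
  have hM0 : 0 ≤ M := by positivity
  have hLM : ∀ t ∈ Ico s T, L t ≤ M := by
    intro t ht
    refine (hgr t ht).trans ?_
    rw [intervalIntegral.integral_const_mul]
    refine mul_le_mul_of_nonneg_left (Real.exp_le_exp.2 ?_) hA₁1
    exact mul_le_mul_of_nonneg_left (hone t ht) (mul_nonneg hC.le hκ0)
  refine hn_bounded r h hT hggc hggb (s := s)
    (A := ((∫ q in 0..s, gg q) + g s * T) + κ * (M * (T + B))) hsI fun t ht => ?_
  refine (hint t ht).trans ?_
  have h4 : ∫ q in s..t, (1 + Ω q) * L q ≤ ∫ q in s..t, (1 + Ω q) * M := by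
    refine int_mono ((continuousOn_const.add hΩc).mul hLs)
      ((continuousOn_const.add hΩc).mul continuousOn_const) (fun q hq => ?_) ht
    have h7 : 0 ≤ 1 + Ω q := by linarith [hΩ0 q hq]
    exact mul_le_mul_of_nonneg_left (hLM q hq) h7
  rw [intervalIntegral.integral_mul_const] at h4
  have h5 : (∫ q in s..t, (1 + Ω q)) * M ≤ (T + B) * M :=
    mul_le_mul_of_nonneg_right (hone t ht) hM0
  have h6 : κ * ∫ q in s..t, (1 + Ω q) * L q ≤ κ * (M * (T + B)) := by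
    refine mul_le_mul_of_nonneg_left ?_ hκ0
    linarith
  linarith

/-- The criterion. -/
theorem crit (h : IsSol 0 T u p) (hT : 0 < T) (hgc : ContinuousOn g (Ico 0 T))
    (hg : ∀ t ∈ Ico 0 T, ∀ i j x, |pd j (fun y => u t y i) x| ≤ g t) {s : ℝ} (hs : s ∈ Ioo 0 T)
    (hDc : ContinuousOn D (Ico s T)) (hD0 : ∀ t ∈ Ico s T, 0 ≤ D t)
    (hmax : ∀ᵐ t, t ∈ Ioo s T → ∃ x, IsMaxPt u t x ∧ Pq u t x ≤ D t * Wq u t x) {B : ℝ}
    (hB : ∀ t ∈ Ico s T, ∫ q in s..t, Real.exp (∫ w in s..q, D w) ≤ B)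
    (r : ℕ) : ∃ B, ∀ t ∈ Ico 0 T, hn (r + 2) (u t) ≤ B := by
  have hgs : 0 ≤ g s := (abs_nonneg _).trans (hg s ⟨hs.1.le, hs.2⟩ 0 0 0)
  refine bkm_reg h hT hgc hg hs (Ω := fun t => 4 * g s * Real.exp (∫ w in s..t, D w))
    (B := 4 * g s * B) ?_ (fun t ht y => ?_) (fun t ht => ?_) r
  · exact continuousOn_const.mul (Real.continuous_exp.comp_continuousOn (prim_cont hDc))
  · exact (norm_le_nrm _).trans (vort_growth h hg hs hDc hD0 hmax ht y)
  · rw [intervalIntegral.integral_const_mul]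
    exact mul_le_mul_of_nonneg_left (hB t ht) (by positivity)

end Pool.Agent.Helper29.Twi
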