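import Pool.Agent.Helper29.Twi.Spat
import Pool.Graph.R_seed8.W786.Max2

/-!
# The stretching rate of a smooth solution at a point
-/

set_option autoImplicit false

open MeasureTheory ProbabilityTheory Set Filter Topology
open scoped ContDiff

namespace Pool.Agent.Helper29.Twi

open Pool.Agent.Helper29.Dir
open Pool.Agent.H708R2.EulerSign Pool.Agent.H708R2.EulerTypeI Pool.Agent.W734.NS
open Pool.Agent.W786.Max
open H459R3.NS (pd energy cube Per IsSol C4)

variable {T : ℝ} {u : ℝ → V → V} {p : ℝ → V → ℝ} {g : ℝ → ℝ}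

/-- The bound of the Sobolev norm with an absolute constant in front of the integral. -/
lemma hn_add (r : ℕ) : ∃ C : ℝ, 0 < C ∧ ∀ (T : ℝ) (u : ℝ → V → V) (p : ℝ → V → ℝ) (g : ℝ → ℝ),
    IsSol 0 T u p → ContinuousOn g (Ico 0 T) →
    (∀ t ∈ Ico 0 T, ∀ i m x, |pd m (fun y => u t y i) x| ≤ g t) → ∀ s ∈ Ioo 0 T,
    ∃ a : ℝ, 0 ≤ a ∧ ∀ t ∈ Ico s T, hn (r + 2) (u t) ≤ Real.exp (a + C * ∫ q in 0..t, g q) := by
  obtain ⟨C, hC, hmain⟩ := hn_le r
  refine ⟨C, hC, ?_⟩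
  intro T u p g h hgc hg s hs
  have h0 : 0 ≤ hn (r + 2) (u 0) := hn_nonneg _ _
  set K : ℝ := Real.log (1 + T ^ 2 * hn (r + 2) (u 0)) with hK
  have hK0 : 0 ≤ K := Real.log_nonneg (by
    have : 0 ≤ T ^ 2 * hn (r + 2) (u 0) := by positivity
    linarith)
  have hs0 : 0 < s := hs.1
  have hT : 0 < T := hs0.trans hs.2
  have hg0 : ∀ t ∈ Ico 0 T, 0 ≤ g t := fun t ht => (abs_nonneg _).trans (hg t ht 0 0 0)
  refine ⟨(1 + C * (2 + K)) + |Real.log (s ^ 2)|, by positivity, fun t ht => ?_⟩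
  have htI : t ∈ Ico 0 T := ⟨hs0.le.trans ht.1, ht.2⟩
  have hI : 0 ≤ ∫ q in 0..t, g q := prim_nonneg hg0 htI
  have hc : ContinuousWithinAt (fun t => ∫ q in 0..t, g q) (Ico 0 T) t := prim_cont hgc t htI
  have hev : ∀ᶠ T' in 𝓝[Ico 0 T] t, (∫ q in 0..T', g q) < (∫ q in 0..t, g q) + 1 :=
    hc.eventually_lt_const (by linarith)
  have hev2 : ∀ᶠ T' in 𝓝[>] t, (∫ q in 0..T', g q) < (∫ q in 0..t, g q) + 1 ∧ T' ∈ Ioo t T := by
    have h1 : 𝓝[Ioo t T] t = 𝓝[>] t := nhdsWithin_Ioo_eq_nhdsGT ht.2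
    have h2 : 𝓝[Ioo t T] t ≤ 𝓝[Ico 0 T] t :=
      nhdsWithin_mono _ fun q hq => ⟨htI.1.trans hq.1.le, hq.2⟩
    have h3 : ∀ᶠ T' in 𝓝[Ioo t T] t, (∫ q in 0..T', g q) < (∫ q in 0..t, g q) + 1 := h2 hev
    rw [← h1]
    exact h3.and self_mem_nhdsWithin
  obtain ⟨T', h1, h2⟩ := hev2.exists
  have key := hmain T u p g h hgc hg t htI T' h2
  have hT' : s ≤ T' := ht.1.trans h2.1.le
  have hn0 : 0 ≤ hn (r + 2) (u t) := hn_nonneg _ _
  have k1 : s ^ 2 * hn (r + 2) (u t) ≤ T' ^ 2 * hn (r + 2) (u t) := by gcongr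
  have k2 : Real.log (1 + T' ^ 2 * hn (r + 2) (u 0)) ≤ K := by
    refine Real.log_le_log ?_ ?_
    · have : 0 ≤ T' ^ 2 * hn (r + 2) (u 0) := by positivity
      linarith
    · have : T' ^ 2 * hn (r + 2) (u 0) ≤ T ^ 2 * hn (r + 2) (u 0) := by
        have := h2.2.le
        have : 0 ≤ T' := hs0.le.trans hT'
        gcongr
      linarith
  have k3 : s ^ 2 * hn (r + 2) (u t)
      ≤ Real.exp (1 + C * (2 + K) + C * ∫ q in 0..t, g q) := by
    refine k1.trans (key.trans (Real.exp_le_exp.2 ?_))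
    have : C * (1 + Real.log (1 + T' ^ 2 * hn (r + 2) (u 0)) + ∫ q in 0..T', g q)
        ≤ C * (1 + K + ((∫ q in 0..t, g q) + 1)) := by
      gcongr
    linarith
  have k4 : s ^ 2 * hn (r + 2) (u t) = Real.exp (Real.log (s ^ 2)) * hn (r + 2) (u t) := by
    rw [Real.exp_log (by positivity)]
  have k5 : hn (r + 2) (u t) = Real.exp (-Real.log (s ^ 2)) * (s ^ 2 * hn (r + 2) (u t)) := by
    rw [k4, ← mul_assoc, ← Real.exp_add]
    simp
  rw [k5]
  calc Real.exp (-Real.log (s ^ 2)) * (s ^ 2 * hn (r + 2) (u t))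
      ≤ Real.exp (-Real.log (s ^ 2)) * Real.exp (1 + C * (2 + K) + C * ∫ q in 0..t, g q) := by
        gcongr
    _ = Real.exp (-Real.log (s ^ 2) + (1 + C * (2 + K) + C * ∫ q in 0..t, g q)) := by
        rw [← Real.exp_add]
    _ ≤ _ := by
        refine Real.exp_le_exp.2 ?_
        have l1 : -Real.log (s ^ 2) ≤ |Real.log (s ^ 2)| := neg_le_abs _
        linarith

/-- The bound of the second derivatives. -/
noncomputable def Nn (u : ℝ → V → V) (t : ℝ) : ℝ :=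
  9 * ((1 + Real.sqrt C4) * Real.sqrt (hn 2 (u t)))

lemma Nn_nonneg (u : ℝ → V → V) (t : ℝ) : 0 ≤ Nn u t := by
  unfold Nn
  positivity

lemma N_bound (h : IsSol 0 T u p) {t : ℝ} (ht : t ∈ Ico 0 T) (y : V) :
    ‖fderiv ℝ (fderiv ℝ (u t)) y‖ ≤ Nn u t :=
  norm_fderiv2_le (smooth_slice h ht) fun i j m => sup2 h ht i j m y

lemma Gr_eq_pd (h : IsSol 0 T u p) {t : ℝ} (ht : t ∈ Ico 0 T) (i j : Fin 3) (y : V) :
    Gr (u t) i j y = pd j (fun y => u t y i) y := (Dir.pd_eq h ht i j y).symm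

lemma vf_of_sol (h : IsSol 0 T u p) {t G : ℝ} (ht : t ∈ Ico 0 T)
    (hg : ∀ i j x, |pd j (fun y => u t y i) x| ≤ G) : ∃ M, VF (u t) M := by
  have hs := smooth_slice h ht
  have hG0 : 0 ≤ G := (abs_nonneg _).trans (hg 0 0 0)
  have hN0 := Nn_nonneg u t
  set B0 : ℝ := Real.sqrt (energy (u 0)) + Real.sqrt C4 * Real.sqrt (hn 2 (u t)) with hB0
  have hB0n : 0 ≤ B0 := by positivity
  refine ⟨B0 + 3 * G + Nn u t, hs.of_le (by norm_cast), fun x => ?_, fun x => ?_, fun x => ?_,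
    fun x => ?_⟩
  · have h1 := h.divfree t ht x
    unfold divergence Matrix.trace
    rw [← h1]
    refine Finset.sum_congr rfl fun i _ => ?_
    exact Gr_eq_pd h ht i i x
  · have h1 : ‖u t x‖ ≤ B0 := (pi_norm_le_iff_of_nonneg hB0n).2 fun i => sup0 h ht i x
    linarith
  · have h1 := norm_fderiv_le hs (x := x) fun i j => hg i j x
    linarith
  · have h1 := N_bound h ht x
    linarith

lemma vort_sup (h : IsSol 0 T u p) {t G : ℝ} (ht : t ∈ Ico 0 T)
    (hg : ∀ i j x, |pd j (fun y => u t y i) x| ≤ G) (y : V) : ‖vort (u t) y‖ ≤ 2 * G := by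
  have hG0 : 0 ≤ G := (abs_nonneg _).trans (hg 0 0 0)
  have h1 : ∀ i j, |grad (u t) y i j| ≤ G := fun i j => by
    have := Gr_eq_pd h ht i j y
    unfold Gr at this
    rw [this]
    exact hg i j y
  have h2 : ∀ i j k l, |grad (u t) y i j - grad (u t) y k l| ≤ 2 * G := fun i j k l =>
    (abs_sub _ _).trans (by linarith [h1 i j, h1 k l])
  refine (pi_norm_le_iff_of_nonneg (by positivity)).2 fun i => ?_
  rw [Real.norm_eq_abs]
  fin_cases i <;> simp only [vort] <;> simpa using h2 _ _ _ _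

lemma comp_le_nrm (w : V) (i : Fin 3) : |w i| ≤ nrm w := by
  have h1 : w i ^ 2 ≤ nrm w ^ 2 := by
    rw [nrm_sq, dotProduct, sq]
    exact Finset.single_le_sum (f := fun i => w i * w i) (fun _ _ => mul_self_nonneg _)
      (Finset.mem_univ i)
  exact abs_le_of_sq_le_sq h1 (nrm_nonneg w)

lemma norm_le_nrm (w : V) : ‖w‖ ≤ nrm w :=
  (pi_norm_le_iff_of_nonneg (nrm_nonneg w)).2 fun i => comp_le_nrm w i

lemma nrm_le_two (w : V) : nrm w ≤ 2 * ‖w‖ := by
  have h1 : nrm w ^ 2 ≤ (2 * ‖w‖) ^ 2 := by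
    rw [nrm_sq, dotProduct, Fin.sum_univ_three]
    have h2 : ∀ i, w i * w i ≤ ‖w‖ ^ 2 := fun i => by
      have h3 : |w i| ≤ ‖w‖ := norm_le_pi_norm w i
      nlinarith [abs_mul_abs_self (w i), abs_nonneg (w i)]
    nlinarith [h2 0, h2 1, h2 2, sq_nonneg ‖w‖]
  exact (abs_le_of_sq_le_sq' h1 (by positivity)).2

/-- The condition on the twist of the vorticity near `x`. -/
def TwistLE (v : V → V) (x : V) (ρ₁ lam h δ : ℝ) : Prop :=
  ∀ y : V, nrm y ≤ ρ₁ → tw (vort v x) y (vort v (x + y))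
    ≤ nrm (vort v x) ^ 2 * nrm y ^ 2 * (lam + h * nrm y ^ δ)

lemma tw_smul_left (a : ℝ) (c y w : V) : tw (a • c) y w = a ^ 2 * tw c y w := by
  simp only [tw, dotProduct, cross_apply, Fin.sum_univ_three, Pi.smul_apply, smul_eq_mul]
  simp
  ring

lemma str_smul (v : V → V) (a : ℝ) (c y : V) : str v (a • c) y = a ^ 2 * str v c y := by
  unfold str
  rw [Finset.mul_sum]
  refine Finset.sum_congr rfl fun i _ => ?_
  rw [Finset.mul_sum]
  refine Finset.sum_congr rfl fun j _ => ?_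
  simp only [Pi.smul_apply, smul_eq_mul]
  ring

lemma Pq_eq (u : ℝ → V → V) (t : ℝ) (x : V) : Pq u t x = str (u t) (vort (u t) x) x := by
  unfold Pq str Gr
  simp only [dotProduct, Matrix.mulVec]
  refine Finset.sum_congr rfl fun i _ => ?_
  rw [Finset.mul_sum]
  refine Finset.sum_congr rfl fun j _ => ?_
  ring

lemma alg1 {K N ε E R lam L Ln hh D g Q I2 : ℝ} {k : ℕ} (hK : 0 < K) (hN : N * ε ≤ 1)
    (hR : 1 ≤ R) (hlam : 0 ≤ lam) (hL : Ln ≤ L) (hL0 : 0 ≤ L) (hD : 0 ≤ hh * D) (hg : 0 ≤ g * Q)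
    (hE : 0 ≤ E) (hI : I2 = 2 ^ k * Q) :
    K * (N * ε + (1 + E) * R + 4 * lam * Ln + 8 * hh * D + 2 * g * I2)
      ≤ (K * 2 ^ (k + 3)) * ((2 + E) * R + lam * L + hh * D + g * Q) := by
  have h2k : (1 : ℝ) ≤ 2 ^ k := one_le_pow₀ (by norm_num)
  have h2k3 : (2 : ℝ) ^ (k + 3) = 8 * 2 ^ k := by rw [pow_add]; norm_num; ring
  have y1 : N * ε + (1 + E) * R ≤ (2 + E) * R := by nlinarith
  have y2 : (2 + E) * R ≤ 8 * 2 ^ k * ((2 + E) * R) :=
    le_mul_of_one_le_left (mul_nonneg (by linarith) (by linarith)) (by linarith)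
  have y3 : 4 * lam * Ln ≤ 4 * (lam * L) := by nlinarith
  have hlL : 0 ≤ lam * L := mul_nonneg hlam hL0
  have y4 : 4 * (lam * L) ≤ 8 * 2 ^ k * (lam * L) := by nlinarith
  have y5 : 8 * hh * D ≤ 8 * 2 ^ k * (hh * D) := by nlinarith
  have y6 : 2 * g * I2 ≤ 8 * 2 ^ k * (g * Q) := by
    rw [hI]
    have : 0 ≤ 2 ^ k * (g * Q) := by positivity
    nlinarith
  have e : (K * 2 ^ (k + 3)) * ((2 + E) * R + lam * L + hh * D + g * Q)
      = K * (8 * 2 ^ k * ((2 + E) * R + lam * L + hh * D + g * Q)) := by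
    rw [h2k3]
    ring
  rw [e]
  refine mul_le_mul_of_nonneg_left ?_ hK.le
  linarith

lemma alg2 {K N E Ω Ln L : ℝ} (hK : 1 ≤ K) (hN : N ≤ 1) (hL : Ln ≤ L) (hE : 1 + (1 + E) ≤ L)
    (hE0 : 0 ≤ E) (hΩ : 0 ≤ Ω) :
    2 * (K * (N + (1 + E) + 18 * Ω * Ln + Ω)) + Ω ≤ 40 * (K * ((1 + Ω) * L)) := by
  have hL1 : 1 ≤ L := by linarith
  have h5 : N + (1 + E) + 18 * Ω * Ln + Ω ≤ 19 * ((1 + Ω) * L) := by
    have h6 : 18 * Ω * Ln ≤ 18 * Ω * L := mul_le_mul_of_nonneg_left hL (by positivity)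
    have h7 : Ω ≤ Ω * L := le_mul_of_one_le_right hΩ hL1
    linarith
  have h8 := mul_le_mul_of_nonneg_left h5 (by linarith : 0 ≤ K)
  have h11 : 0 ≤ (1 + Ω) * L := by positivity
  have h9 : Ω ≤ K * ((1 + Ω) * L) := by
    have h10 : Ω ≤ (1 + Ω) * L := by nlinarith
    have h12 : (1 + Ω) * L ≤ K * ((1 + Ω) * L) := le_mul_of_one_le_left h11 hK
    linarith
  have h12 : 0 ≤ K * ((1 + Ω) * L) := by positivity
  linarith

/-- The bound of the stretching rate of a solution at a point. -/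
theorem stretch_sol : ∃ C : ℝ, 0 < C ∧ ∀ (T : ℝ) (u : ℝ → V → V) (p : ℝ → V → ℝ) (g : ℝ → ℝ),
    IsSol 0 T u p → ContinuousOn g (Ico 0 T) →
    (∀ t ∈ Ico 0 T, ∀ i j x, |pd j (fun y => u t y i) x| ≤ g t) → ∀ s ∈ Ioo 0 T,
    ∃ A : ℝ, 1 ≤ A ∧
    (∀ t ∈ Ico s T, ∀ (x : V) (lam h δ ρ₁ r : ℝ) (k : ℕ), 0 ≤ lam → 0 ≤ h → 0 < δ → δ ≤ 1 →
      0 < ρ₁ → 1 ≤ k → 0 < r → r ≤ 1 → TwistLE (u t) x ρ₁ lam h δ →
      Pq u t x ≤ (Kc k * 2 ^ (k + 3)) * ((2 + energy (u 0)) * r ^ (-(5 / 2) : ℝ)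
        + lam * (A + C * ∫ q in 0..t, g q) + h * (r ^ δ / δ) + g t * (r / ρ₁) ^ k) * Wq u t x) ∧
    (∀ t ∈ Ico s T, ∀ Ω : ℝ, (∀ y, ‖vort (u t) y‖ ≤ Ω) → ∀ i j x,
      |pd j (fun y => u t y i) x|
        ≤ 40 * (Kc 1 * ((1 + Ω) * (A + C * ∫ q in 0..t, g q)))) := by
  obtain ⟨C, hC, hadd⟩ := hn_add 0
  refine ⟨C, hC, ?_⟩
  intro T u p g h hgc hg s hs
  obtain ⟨a, ha, hexp⟩ := hadd T u p g h hgc hg s hs
  have hg0 : ∀ t ∈ Ico 0 T, 0 ≤ g t := fun t ht => (abs_nonneg _).trans (hg t ht 0 0 0)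
  set E := energy (u 0) with hE
  have hE0 : 0 ≤ E := Finset.sum_nonneg fun i _ => integral_nonneg fun _ => sq_nonneg _
  set B2 : ℝ := 9 * (1 + Real.sqrt C4) with hB2
  have hB2n : 0 ≤ B2 := by positivity
  have hlB : 0 ≤ Real.log (1 + 0 + B2) := Real.log_nonneg (by linarith)
  set A : ℝ := 3 + E + Real.log (1 + 0 + B2) + a with hA
  have hlog : ∀ t ∈ Ico s T, Real.log (1 + Nn u t)
      ≤ Real.log (1 + 0 + B2) + (a + C * ∫ q in 0..t, g q) := by
    intro t ht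
    have htI : t ∈ Ico 0 T := ⟨hs.1.le.trans ht.1, ht.2⟩
    have hI : 0 ≤ ∫ q in 0..t, g q := prim_nonneg hg0 htI
    have hy : 0 ≤ a + C * ∫ q in 0..t, g q := by positivity
    have h1 := log_le (A := 0) (B := B2) le_rfl hB2n (Real.sqrt_nonneg (hn 2 (u t))) hy
      (sqrt_le_exp hy (hexp t ht))
    have e : 1 + Nn u t = 1 + (0 + B2 * Real.sqrt (hn 2 (u t))) := by
      unfold Nn
      rw [hB2]
      ring
    rw [e]
    exact h1
  refine ⟨A, by linarith, ?_, ?_⟩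
  · intro t ht x lam h' δ ρ₁ r k hlam hh hδ hδ1 hρ₁ hk hr hr1 htw
    have htI : t ∈ Ico 0 T := ⟨hs.1.le.trans ht.1, ht.2⟩
    have hI : 0 ≤ ∫ q in 0..t, g q := prim_nonneg hg0 htI
    have hgt := hg0 t htI
    rcases eq_or_ne (nrm (vort (u t) x)) 0 with hz | hz
    · have h0 : vort (u t) x = 0 := nrm_eq_zero hz
      rw [Pq_eq, h0, Wq, h0]
      simp [str]
    · have hpos : 0 < nrm (vort (u t) x) := lt_of_le_of_ne (nrm_nonneg _) (Ne.symm hz)
      set om := vort (u t) x with hom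
      set c : V := (nrm om)⁻¹ • om with hcdef
      have hc : ∀ i, |c i| ≤ 1 := by
        intro i
        rw [hcdef, Pi.smul_apply, smul_eq_mul, abs_mul, abs_of_pos (inv_pos.2 hpos),
          inv_mul_le_iff₀ hpos, mul_one]
        exact comp_le_nrm om i
      obtain ⟨M, H⟩ := vf_of_sol h htI (hg t htI)
      have hN0 := Nn_nonneg u t
      set ε : ℝ := min r (1 / (1 + Nn u t)) with hε
      have hε0 : 0 < ε := lt_min hr (by positivity)
      have hεr : ε ≤ r := min_le_left _ _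
      have hNε : Nn u t * ε ≤ 1 := by
        have h1 : ε ≤ 1 / (1 + Nn u t) := min_le_right _ _
        calc Nn u t * ε ≤ Nn u t * (1 / (1 + Nn u t)) := mul_le_mul_of_nonneg_left h1 hN0
          _ ≤ 1 := by
            rw [mul_one_div, div_le_one (by positivity)]
            linarith
      have hlogε : Real.log (r / ε) ≤ A + C * ∫ q in 0..t, g q := by
        have h2 := hlog t ht
        have h3 : 0 ≤ Real.log (1 + Nn u t) := Real.log_nonneg (by linarith)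
        have h1 : Real.log (r / ε) ≤ Real.log (1 + Nn u t) := by
          rcases le_total r (1 / (1 + Nn u t)) with h4 | h4
          · rw [hε, min_eq_left h4, div_self hr.ne', Real.log_one]
            exact h3
          · rw [hε, min_eq_right h4]
            refine Real.log_le_log (by positivity) ?_
            rw [div_div_eq_mul_div, div_one]
            exact mul_le_of_le_one_left (by positivity) hr1
        linarith
      have htw' : ∀ y : V, ‖y‖ ≤ ρ₁ / 2 → tw c y (vort (u t) (x + y))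
          ≤ ‖y‖ ^ 2 * (4 * lam + 8 * h' * ‖y‖ ^ δ) := by
        intro y hy
        have n2 := nrm_le_two y
        have n0 := nrm_nonneg y
        have h1 := htw y (by linarith)
        rw [hcdef, tw_smul_left]
        have h2 : ((nrm om)⁻¹) ^ 2 * (nrm om ^ 2 * nrm y ^ 2 * (lam + h' * nrm y ^ δ))
            = nrm y ^ 2 * (lam + h' * nrm y ^ δ) := by
          field_simp
        have h3 : nrm y ^ δ ≤ 2 * ‖y‖ ^ δ := by
          calc nrm y ^ δ ≤ (2 * ‖y‖) ^ δ := Real.rpow_le_rpow n0 n2 hδ.le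
            _ = 2 ^ δ * ‖y‖ ^ δ := Real.mul_rpow (by norm_num) (norm_nonneg _)
            _ ≤ 2 * ‖y‖ ^ δ := by
                refine mul_le_mul_of_nonneg_right ?_ (Real.rpow_nonneg (norm_nonneg _) _)
                calc (2 : ℝ) ^ δ ≤ 2 ^ (1 : ℝ) :=
                      Real.rpow_le_rpow_of_exponent_le (by norm_num) hδ1
                  _ = 2 := Real.rpow_one 2
        have h4 : nrm y ^ 2 ≤ 4 * ‖y‖ ^ 2 := by nlinarith [norm_nonneg y]
        have h5 : 0 ≤ nrm y ^ δ := Real.rpow_nonneg n0 _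
        have h6 : 0 ≤ ‖y‖ ^ δ := Real.rpow_nonneg (norm_nonneg _) _
        calc ((nrm om)⁻¹) ^ 2 * tw om y (vort (u t) (x + y))
            ≤ ((nrm om)⁻¹) ^ 2 * (nrm om ^ 2 * nrm y ^ 2 * (lam + h' * nrm y ^ δ)) :=
              mul_le_mul_of_nonneg_left h1 (by positivity)
          _ = nrm y ^ 2 * (lam + h' * nrm y ^ δ) := h2
          _ ≤ (4 * ‖y‖ ^ 2) * (lam + h' * (2 * ‖y‖ ^ δ)) := by gcongr
          _ = ‖y‖ ^ 2 * (4 * lam + 8 * h' * ‖y‖ ^ δ) := by ring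
      have hEE : energy (u t) ≤ E := energy_le0 h htI
      have key := H.stretch (fun i x => h.per_u t htI i x) hEE
        (N_bound h htI) hc
        (vort_sup h htI (hg t htI)) (lam := 4 * lam) (h := 8 * h') (δ := δ) (ρ₁ := ρ₁ / 2)
        (by positivity) (by positivity) hδ hδ1 (by positivity) htw' hk hε0 hεr hr1
      have hstr : Pq u t x = nrm om ^ 2 * str (u t) c x := by
        rw [Pq_eq, hcdef, str_smul, ← hom]
        field_simp
      have hW : Wq u t x = nrm om ^ 2 := Wq_eq t x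
      rw [hstr, hW]
      have hK := Kc_pos k
      have hr52 : 1 ≤ r ^ (-(5 / 2) : ℝ) := by
        rw [Real.rpow_neg hr.le]
        exact (one_le_inv₀ (Real.rpow_pos_of_pos hr _)).2 (Real.rpow_le_one hr.le hr1 (by norm_num))
      have e5 : (r / (ρ₁ / 2)) ^ k = 2 ^ k * (r / ρ₁) ^ k := by
        rw [← mul_pow]
        congr 1
        field_simp
      have hCI : 0 ≤ C * ∫ q in 0..t, g q := by positivity
      have y5 : str (u t) c x ≤ (Kc k * 2 ^ (k + 3)) * ((2 + E) * r ^ (-(5 / 2) : ℝ)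
          + lam * (A + C * ∫ q in 0..t, g q) + h' * (r ^ δ / δ) + g t * (r / ρ₁) ^ k) :=
        key.trans (alg1 hK hNε hr52 hlam hlogε (by linarith) (by positivity) (by positivity)
          hE0 e5)
      calc nrm om ^ 2 * str (u t) c x
          ≤ nrm om ^ 2 * ((Kc k * 2 ^ (k + 3)) * ((2 + E) * r ^ (-(5 / 2) : ℝ)
          + lam * (A + C * ∫ q in 0..t, g q) + h' * (r ^ δ / δ) + g t * (r / ρ₁) ^ k)) :=
            mul_le_mul_of_nonneg_left y5 (by positivity)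
        _ = _ := by ring
  · intro t ht Ω hΩ i j x
    have htI : t ∈ Ico 0 T := ⟨hs.1.le.trans ht.1, ht.2⟩
    have hI : 0 ≤ ∫ q in 0..t, g q := prim_nonneg hg0 htI
    have hΩ0 : 0 ≤ Ω := (norm_nonneg _).trans (hΩ 0)
    obtain ⟨M, H⟩ := vf_of_sol h htI (hg t htI)
    have hN0 := Nn_nonneg u t
    have hEE : energy (u t) ≤ E := energy_le0 h htI
    have key := H.grad_le (fun i x => h.per_u t htI i x) hEE (N_bound h htI) hΩ
      (ε := 1 / (1 + Nn u t)) (by positivity) (by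
        rw [div_le_one (by positivity)]
        linarith) x i j
    rw [Gr_eq_pd h htI] at key
    refine key.trans ?_
    have h1 : Nn u t * (1 / (1 + Nn u t)) ≤ 1 := by
      rw [mul_one_div, div_le_one (by positivity)]
      linarith
    have h2 : Real.log (1 / (1 / (1 + Nn u t))) ≤ Real.log (1 + 0 + B2)
        + (a + C * ∫ q in 0..t, g q) := by
      rw [one_div_one_div]
      exact hlog t ht
    have hK1 : 1 ≤ Kc 1 := by
      have m1 := mom_nonneg 3 1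
      have m2 := mom_nonneg 3 2
      have m3 := mom_nonneg 3 3
      have mk := mom_nonneg 3 (2 + 1)
      unfold Kc
      linarith
    have hCI : 0 ≤ C * ∫ q in 0..t, g q := by positivity
    have h3 : Real.log (1 / (1 / (1 + Nn u t))) ≤ A + C * ∫ q in 0..t, g q := by
      refine h2.trans ?_
      rw [hA]
      linarith
    have h4 : (1 : ℝ) + (1 + E) ≤ A + C * ∫ q in 0..t, g q := by
      rw [hA]
      linarith
    exact alg2 hK1 h1 h3 h4 hE0 hΩ0

end Pool.Agent.Helper29.Twi
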