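import Pool.Agent.Helper29.Twi.Scale

/-!
# The derivative of the averages with respect to the scale is an average of the twist
-/

set_option autoImplicit false

open MeasureTheory ProbabilityTheory Set Filter Topology

namespace Pool.Agent.Helper29.Twi

open Pool.Agent.Helper29.Dir
open Pool.Agent.H708R2.EulerSign Pool.Agent.H708R2.EulerTypeI
open H459R3.NS (pd)

/-- Divergence-free fields of class `C²` with bounded derivatives of the orders 1 and 2. -/
structure VF (v : V → V) (M : ℝ) : Prop where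
  c2 : ContDiff ℝ 2 v
  div : ∀ x, divergence v x = 0
  b0 : ∀ x, ‖v x‖ ≤ M
  b1 : ∀ x, ‖fderiv ℝ v x‖ ≤ M
  b2 : ∀ x, ‖fderiv ℝ (fderiv ℝ v) x‖ ≤ M

/-- The entries of the gradient. -/
noncomputable def Gr (v : V → V) (i j : Fin 3) (y : V) : ℝ := grad v y i j

/-- The component `c · (∇v) c`. -/
noncomputable def str (v : V → V) (c : V) (y : V) : ℝ := ∑ i, ∑ j, c i * c j * Gr v i j y

/-- The twist: `(c · z) (w · (c × z))`. -/
noncomputable def tw (c z w : V) : ℝ := (c ⬝ᵥ z) * (w ⬝ᵥ crossProduct c z)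

section

variable {v : V → V} {M : ℝ}

lemma VF.cfd (H : VF v M) : ContDiff ℝ 1 (fderiv ℝ v) := H.c2.fderiv_right (by norm_num)

lemma VF.M0 (H : VF v M) : 0 ≤ M := (norm_nonneg _).trans (H.b1 0)

lemma VF.Gr_eq (i j : Fin 3) : Gr v i j = fun y => (ContinuousLinearMap.proj (R := ℝ) i).comp
    (ContinuousLinearMap.apply ℝ V (Pi.single j 1 : V)) (fderiv ℝ v y) := rfl

lemma VF.fd (H : VF v M) (i j : Fin 3) (y : V) :
    fderiv ℝ (Gr v i j) y = ((ContinuousLinearMap.proj (R := ℝ) (φ := fun _ : Fin 3 => ℝ) i).comp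
      (ContinuousLinearMap.apply ℝ V (Pi.single j 1 : V))).comp (fderiv ℝ (fderiv ℝ v) y) :=
  (((ContinuousLinearMap.proj (R := ℝ) (φ := fun _ : Fin 3 => ℝ) i).comp
    (ContinuousLinearMap.apply ℝ V (Pi.single j 1 : V))).hasFDerivAt.comp y
      ((H.cfd.differentiable one_ne_zero) y).hasFDerivAt).fderiv

lemma VF.pd_eq (H : VF v M) (i j k : Fin 3) (y : V) :
    pd k (Gr v i j) y = fderiv ℝ (fderiv ℝ v) y (Pi.single k 1) (Pi.single j 1) i := by
  unfold pd
  rw [H.fd]
  rfl

lemma VF.sym (H : VF v M) (i j k : Fin 3) (y : V) : pd k (Gr v i j) y = pd j (Gr v i k) y := by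
  rw [H.pd_eq, H.pd_eq]
  exact congrFun ((H.c2.contDiffAt.isSymmSndFDerivAt (by simp)) _ _) i

lemma norm_single (j : Fin 3) : ‖(Pi.single j 1 : V)‖ = 1 := by simp [Pi.norm_single]

lemma VF.bd (H : VF v M) (i j : Fin 3) : BD (Gr v i j) M where
  c1 := by
    rw [VF.Gr_eq]
    exact ((ContinuousLinearMap.proj (R := ℝ) (φ := fun _ : Fin 3 => ℝ) i).comp
      (ContinuousLinearMap.apply ℝ V (Pi.single j 1 : V))).contDiff.comp H.cfd
  b0 y := by
    have h1 : |Gr v i j y| ≤ ‖fderiv ℝ v y (Pi.single j 1)‖ :=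
      norm_le_pi_norm (fderiv ℝ v y (Pi.single j 1)) i
    have h2 := (fderiv ℝ v y).le_opNorm (Pi.single j 1)
    rw [norm_single, mul_one] at h2
    exact h1.trans (h2.trans (H.b1 y))
  b1 y := by
    rw [H.fd]
    refine ContinuousLinearMap.opNorm_le_bound _ H.M0 fun w => ?_
    have h1 : ‖fderiv ℝ (fderiv ℝ v) y w (Pi.single j 1) i‖
        ≤ ‖fderiv ℝ (fderiv ℝ v) y w (Pi.single j 1)‖ :=
      norm_le_pi_norm (fderiv ℝ (fderiv ℝ v) y w (Pi.single j 1)) i
    have h2 := (fderiv ℝ (fderiv ℝ v) y w).le_opNorm (Pi.single j 1)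
    rw [norm_single, mul_one] at h2
    have h3 := (fderiv ℝ (fderiv ℝ v) y).le_opNorm w
    have h4 : ‖fderiv ℝ (fderiv ℝ v) y‖ * ‖w‖ ≤ M * ‖w‖ :=
      mul_le_mul_of_nonneg_right (H.b2 y) (norm_nonneg _)
    exact h1.trans (h2.trans (h3.trans h4))

lemma VF.pdiv (H : VF v M) (i : Fin 3) (y : V) : ∑ k, pd i (Gr v k k) y = 0 := by
  have h1 : (fun y => ∑ k, Gr v k k y) = fun _ => (0 : ℝ) := by
    funext y
    have := H.div y
    unfold divergence Matrix.trace at this
    exact this
  have h2 : fderiv ℝ (fun y => ∑ k, Gr v k k y) y (Pi.single i 1) = 0 := by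
    rw [h1]
    simp
  rw [fderiv_fun_sum fun k _ => ((H.bd k k).c1.differentiable one_ne_zero) y] at h2
  rw [← h2]
  simp only [pd, FunLike.coe_sum, Finset.sum_apply]

/-- The vorticity and the twist in coordinates. -/
lemma tw_eq (c z : V) (y : V) : tw c z (vort v y)
    = ∑ j, ∑ i, ∑ k, c j * c i * (z j * (z k * Gr v k i y) - z j * (z k * Gr v i k y)) := by
  simp only [tw, vort, dotProduct, cross_apply, Fin.sum_univ_three, Gr]
  simp
  ring

lemma VF.str_bd (H : VF v M) {c : V} (hc : ∀ i, |c i| ≤ 1) : BD (str v c) (9 * M) := by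
  have hcc : ∀ i j, |c i * c j| ≤ 1 := fun i j => by
    rw [abs_mul]
    exact mul_le_one₀ (hc i) (abs_nonneg _) (hc j)
  have hd : ∀ i j y, DifferentiableAt ℝ (Gr v i j) y := fun i j y =>
    ((H.bd i j).c1.differentiable one_ne_zero) y
  refine ⟨?_, fun y => ?_, fun y => ?_⟩
  · exact ContDiff.sum fun i _ => ContDiff.sum fun j _ => contDiff_const.mul (H.bd i j).c1
  · refine (Finset.abs_sum_le_sum_abs _ _).trans ?_
    have h1 : ∀ i, |∑ j, c i * c j * Gr v i j y| ≤ 3 * M := by
      intro i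
      refine (Finset.abs_sum_le_sum_abs _ _).trans ?_
      refine (Finset.sum_le_card_nsmul _ _ M fun j _ => ?_).trans (le_of_eq (by simp))
      rw [abs_mul]
      exact (mul_le_mul (hcc i j) ((H.bd i j).b0 y) (abs_nonneg _) zero_le_one).trans
        (le_of_eq (one_mul _))
    refine (Finset.sum_le_card_nsmul _ _ _ fun i _ => h1 i).trans (le_of_eq ?_)
    simp
    ring
  · have e : fderiv ℝ (str v c) y = ∑ i, ∑ j, (c i * c j) • fderiv ℝ (Gr v i j) y := by
      unfold str
      rw [fderiv_fun_sum fun i _ => DifferentiableAt.fun_sum fun j _ => (hd i j y).const_mul _]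
      refine Finset.sum_congr rfl fun i _ => ?_
      rw [fderiv_fun_sum fun j _ => (hd i j y).const_mul _]
      exact Finset.sum_congr rfl fun j _ => fderiv_const_mul (hd i j y) _
    rw [e]
    refine (norm_sum_le _ _).trans ?_
    have h1 : ∀ i, ‖∑ j, (c i * c j) • fderiv ℝ (Gr v i j) y‖ ≤ 3 * M := by
      intro i
      refine (norm_sum_le _ _).trans ?_
      refine (Finset.sum_le_card_nsmul _ _ M fun j _ => ?_).trans (le_of_eq (by simp))
      rw [norm_smul, Real.norm_eq_abs]
      exact (mul_le_mul (hcc i j) ((H.bd i j).b1 y) (norm_nonneg _) zero_le_one).trans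
        (le_of_eq (one_mul _))
    refine (Finset.sum_le_card_nsmul _ _ _ fun i _ => h1 i).trans (le_of_eq ?_)
    simp
    ring

lemma VF.pd_str (H : VF v M) (c : V) (k : Fin 3) (y : V) :
    pd k (str v c) y = ∑ i, ∑ j, c i * c j * pd k (Gr v i j) y := by
  have hd : ∀ i j y, DifferentiableAt ℝ (Gr v i j) y := fun i j y =>
    ((H.bd i j).c1.differentiable one_ne_zero) y
  have e : fderiv ℝ (str v c) y = ∑ i, ∑ j, (c i * c j) • fderiv ℝ (Gr v i j) y := by
    unfold str
    rw [fderiv_fun_sum fun i _ => DifferentiableAt.fun_sum fun j _ => (hd i j y).const_mul _]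
    refine Finset.sum_congr rfl fun i _ => ?_
    rw [fderiv_fun_sum fun j _ => (hd i j y).const_mul _]
    exact Finset.sum_congr rfl fun j _ => fderiv_const_mul (hd i j y) _
  unfold pd
  rw [e]
  simp only [FunLike.coe_sum, Finset.sum_apply]
  rfl

/-- The derivative with respect to the scale. -/
theorem VF.scale (H : VF v M) (c x : V) (ρ : ℝ) :
    ρ * ∑ k, ∫ z, z k * pd k (str v c) (x + ρ • z) ∂g3
      = -∫ z, tw c z (vort v (x + ρ • z)) ∂g3 := by
  set m : Fin 3 → Fin 3 → ℝ := fun i l => ∫ z, Gr v i l (x + ρ • z) ∂g3 with hm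
  set a : Fin 3 → Fin 3 → Fin 3 → Fin 3 → ℝ := fun j k i l =>
    ∫ z, z j * pd k (Gr v i l) (x + ρ • z) ∂g3 with ha
  set b : Fin 3 → Fin 3 → Fin 3 → Fin 3 → ℝ := fun k j i l =>
    ∫ z, z k * (z j * Gr v i l (x + ρ • z)) ∂g3 with hb
  have hst : ∀ k j i l, b k j i l = (if j = k then m i l else 0) + ρ * a j k i l :=
    fun k j i l => st2 (H.bd i l) x ρ j k
  have hcm : ∀ k j i l, b k j i l = b j k i l := by
    intro k j i l
    simp only [hb]
    congr 1
    funext z
    ring
  have hsy : ∀ j k i l, a j k i l = a j l i k := by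
    intro j k i l
    simp only [ha]
    congr 1
    funext z
    rw [H.sym]
  have hdv : ∀ j i, ∑ k, a j i k k = 0 := by
    intro j i
    simp only [ha]
    rw [← integral_finsetSum _ fun k _ => i1 ((H.bd k k).cpd i) ((H.bd k k).bpd i) x ρ j]
    rw [integral_eq_zero_of_ae]
    refine Eventually.of_forall fun z => ?_
    simp only [Pi.zero_apply]
    rw [← Finset.mul_sum, H.pdiv, mul_zero]
  have T1 : ∀ j i, ∑ k, b j k k i = m j i := by
    intro j i
    have h1 : ∀ k, b j k k i = (if j = k then m k i else 0) + ρ * a j i k k := by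
      intro k
      rw [hcm, hst, hsy]
    simp only [h1]
    rw [Finset.sum_add_distrib, ← Finset.mul_sum, hdv]
    simp
  have T2 : ∀ j i, ∑ k, b j k i k = m i j + ρ * ∑ k, a k k i j := by
    intro j i
    have h1 : ∀ k, b j k i k = (if k = j then m i k else 0) + ρ * a k k i j := by
      intro k
      rw [hst, hsy]
    simp only [h1]
    rw [Finset.sum_add_distrib, ← Finset.mul_sum]
    simp
  have e1 : ∑ k, ∫ z, z k * pd k (str v c) (x + ρ • z) ∂g3
      = ∑ k, ∑ i, ∑ j, c i * c j * a k k i j := by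
    refine Finset.sum_congr rfl fun k _ => ?_
    have h1 : ∀ z : V, z k * pd k (str v c) (x + ρ • z)
        = ∑ i, ∑ j, c i * c j * (z k * pd k (Gr v i j) (x + ρ • z)) := by
      intro z
      rw [H.pd_str, Finset.mul_sum]
      refine Finset.sum_congr rfl fun i _ => ?_
      rw [Finset.mul_sum]
      refine Finset.sum_congr rfl fun j _ => ?_
      ring
    simp only [h1]
    have hi : ∀ i j, Integrable (fun z : V => c i * c j * (z k * pd k (Gr v i j) (x + ρ • z))) g3 :=
      fun i j => (i1 ((H.bd i j).cpd k) ((H.bd i j).bpd k) x ρ k).const_mul _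
    rw [integral_finsetSum _ fun i _ => integrable_finsetSum _ fun j _ => hi i j]
    refine Finset.sum_congr rfl fun i _ => ?_
    rw [integral_finsetSum _ fun j _ => hi i j]
    exact Finset.sum_congr rfl fun j _ => integral_const_mul _ _
  have e2 : ∫ z, tw c z (vort v (x + ρ • z)) ∂g3
      = ∑ j, ∑ i, c j * c i * (∑ k, b j k k i - ∑ k, b j k i k) := by
    have hi : ∀ j i k, Integrable (fun z : V => c j * c i * (z j * (z k * Gr v k i (x + ρ • z))
        - z j * (z k * Gr v i k (x + ρ • z)))) g3 := fun j i k =>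
      ((i2 (H.bd k i).cont (H.bd k i).b0 x ρ j k).sub
        (i2 (H.bd i k).cont (H.bd i k).b0 x ρ j k)).const_mul _
    simp only [tw_eq]
    rw [integral_finsetSum _ fun j _ => integrable_finsetSum _ fun i _ =>
      integrable_finsetSum _ fun k _ => hi j i k]
    refine Finset.sum_congr rfl fun j _ => ?_
    rw [integral_finsetSum _ fun i _ => integrable_finsetSum _ fun k _ => hi j i k]
    refine Finset.sum_congr rfl fun i _ => ?_
    rw [integral_finsetSum _ fun k _ => hi j i k, ← Finset.sum_sub_distrib, Finset.mul_sum]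
    refine Finset.sum_congr rfl fun k _ => ?_
    rw [integral_const_mul, integral_sub (i2 (H.bd k i).cont (H.bd k i).b0 x ρ j k)
      (i2 (H.bd i k).cont (H.bd i k).b0 x ρ j k)]
  rw [e1, e2]
  simp only [T1, T2]
  simp only [Fin.sum_univ_three]
  ring

end

end Pool.Agent.Helper29.Twi
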