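import Pool.Agent.Helper29.Dir.Gauss

/-!
# The Gaussian measure of the space and Stein's lemma
-/

set_option autoImplicit false

open MeasureTheory ProbabilityTheory Set Filter Topology

namespace Pool.Agent.Helper29.Twi

open Pool.Agent.Helper29.Dir

/-- The standard Gaussian measure of `ℝⁿ`. -/
noncomputable abbrev gn (n : ℕ) : Measure (Fin n → ℝ) := Measure.pi (fun _ => gm)

instance isG (n : ℕ) : IsGaussian (gn n) := by
  have h : (gn n).map (WithLp.toLp 2) = stdGaussian (EuclideanSpace ℝ (Fin n)) :=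
    map_pi_eq_stdGaussian
  have h1 : IsGaussian ((gn n).map (EuclideanSpace.equiv (Fin n) ℝ).symm) := by
    have : ((gn n).map (EuclideanSpace.equiv (Fin n) ℝ).symm)
        = stdGaussian (EuclideanSpace ℝ (Fin n)) := h
    rw [this]
    infer_instance
  exact (isGaussian_map_equiv_iff (EuclideanSpace.equiv (Fin n) ℝ).symm).1 h1

lemma int_pow (n k : ℕ) : Integrable (fun z : Fin n → ℝ => ‖z‖ ^ k) (gn n) := by
  rcases Nat.eq_zero_or_pos k with rfl | hk
  · simp
  · have h := (IsGaussian.memLp_id (gn n) (k : ENNReal) (by simp)).integrable_norm_pow hk.ne'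
    exact h

/-- The moments. -/
noncomputable def mom (n k : ℕ) : ℝ := ∫ z : Fin n → ℝ, ‖z‖ ^ k ∂(gn n)

lemma mom_nonneg (n k : ℕ) : 0 ≤ mom n k := integral_nonneg fun _ => by positivity

/-- Bounded by a power. -/
lemma int_of_pow {n k : ℕ} {ψ : (Fin n → ℝ) → ℝ} (hc : Continuous ψ) {C : ℝ}
    (hb : ∀ z, |ψ z| ≤ C * ‖z‖ ^ k) : Integrable ψ (gn n) :=
  Integrable.mono' ((int_pow n k).const_mul C) hc.aestronglyMeasurable
    (Eventually.of_forall fun z => by rw [Real.norm_eq_abs]; exact hb z)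

lemma int_of_pow2 {n k l : ℕ} {ψ : (Fin n → ℝ) → ℝ} (hc : Continuous ψ) {C D : ℝ}
    (hb : ∀ z, |ψ z| ≤ C * ‖z‖ ^ k + D * ‖z‖ ^ l) : Integrable ψ (gn n) :=
  Integrable.mono' (((int_pow n k).const_mul C).add ((int_pow n l).const_mul D))
    hc.aestronglyMeasurable
    (Eventually.of_forall fun z => by rw [Real.norm_eq_abs]; exact hb z)

lemma pres (n : ℕ) (i : Fin (n + 1)) :
    MeasurePreserving (MeasurableEquiv.piFinSuccAbove (fun _ => ℝ) i) (gn (n + 1))
      (gm.prod (gn n)) :=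
  measurePreserving_piFinSuccAbove (fun _ : Fin (n + 1) => gm) i

lemma symm_apply (n : ℕ) (i : Fin (n + 1)) (w : ℝ × (Fin n → ℝ)) :
    (MeasurableEquiv.piFinSuccAbove (fun _ => ℝ) i).symm w = i.insertNth w.1 w.2 := rfl

/-- Fubini. -/
lemma fub {n : ℕ} (i : Fin (n + 1)) {F : (Fin (n + 1) → ℝ) → ℝ} (hF : Integrable F (gn (n + 1))) :
    ∫ z, F z ∂(gn (n + 1)) = ∫ y, ∫ s, F (i.insertNth s y) ∂gm ∂(gn n) := by
  have h1 := (pres n i).symm
  have e : ∫ z, F z ∂(gn (n + 1))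
      = ∫ w, F ((MeasurableEquiv.piFinSuccAbove (fun _ => ℝ) i).symm w) ∂(gm.prod (gn n)) :=
    (h1.integral_comp (MeasurableEquiv.piFinSuccAbove (fun _ => ℝ) i).symm.measurableEmbedding
      F).symm
  have h2 : Integrable (fun w : ℝ × (Fin n → ℝ) =>
      F ((MeasurableEquiv.piFinSuccAbove (fun _ => ℝ) i).symm w)) (gm.prod (gn n)) :=
    (h1.integrable_comp_emb
      (MeasurableEquiv.piFinSuccAbove (fun _ => ℝ) i).symm.measurableEmbedding).2 hF
  rw [e, integral_prod_symm _ h2]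
  rfl

lemma insertNth_norm_le {n : ℕ} (i : Fin (n + 1)) (s : ℝ) (y : Fin n → ℝ) :
    ‖(i.insertNth s y : Fin (n + 1) → ℝ)‖ ≤ |s| + ‖y‖ := by
  rw [pi_norm_le_iff_of_nonneg (by positivity)]
  intro j
  rcases Fin.eq_self_or_eq_succAbove i j with rfl | ⟨k, rfl⟩
  · rw [Fin.insertNth_apply_same]
    have := norm_nonneg y
    rw [Real.norm_eq_abs]
    linarith
  · rw [Fin.insertNth_apply_succAbove]
    have := norm_le_pi_norm y k
    have := abs_nonneg s
    linarith

lemma insertNth_line {n : ℕ} (i : Fin (n + 1)) (s h : ℝ) (y : Fin n → ℝ) :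
    (i.insertNth (s + h) y : Fin (n + 1) → ℝ)
      = (i.insertNth s y : Fin (n + 1) → ℝ) + h • (Pi.single i 1 : Fin (n + 1) → ℝ) := by
  funext j
  rcases Fin.eq_self_or_eq_succAbove i j with rfl | ⟨k, rfl⟩
  · simp
  · simp [Fin.succAbove_ne]

/-- Stein's lemma. -/
lemma stein_n {n : ℕ} (i : Fin (n + 1)) {ψ ψ' : (Fin (n + 1) → ℝ) → ℝ} (hc : Continuous ψ)
    (hc' : Continuous ψ')
    (hd : ∀ z, HasDerivAt (fun h : ℝ => ψ (z + h • (Pi.single i 1 : Fin (n + 1) → ℝ))) (ψ' z) 0)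
    {C : ℝ} (h0 : ∀ z, |ψ z| ≤ C * (1 + ‖z‖)) (h1 : ∀ z, |ψ' z| ≤ C * (1 + ‖z‖)) :
    ∫ z, z i * ψ z ∂(gn (n + 1)) = ∫ z, ψ' z ∂(gn (n + 1)) := by
  have hC : 0 ≤ C := by
    have := (abs_nonneg _).trans (h0 0)
    simpa using this
  have i1 : Integrable (fun z : Fin (n + 1) → ℝ => z i * ψ z) (gn (n + 1)) := by
    refine int_of_pow2 (k := 1) (l := 2) (by fun_prop) (C := C) (D := C) fun z => ?_
    rw [abs_mul]
    have h2 : |z i| ≤ ‖z‖ := norm_le_pi_norm z i
    calc |z i| * |ψ z| ≤ ‖z‖ * (C * (1 + ‖z‖)) :=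
          mul_le_mul h2 (h0 z) (abs_nonneg _) (norm_nonneg _)
      _ = C * ‖z‖ ^ 1 + C * ‖z‖ ^ 2 := by ring
  have i2 : Integrable ψ' (gn (n + 1)) := by
    refine int_of_pow2 (k := 0) (l := 1) hc' (C := C) (D := C) fun z => (h1 z).trans (le_of_eq ?_)
    ring
  rw [fub i i1, fub i i2]
  congr 1
  funext y
  have key : ∀ s, HasDerivAt (fun s => ψ (i.insertNth s y)) (ψ' (i.insertNth s y)) s := by
    intro s
    have h3 := hd (i.insertNth s y)
    have e : (fun t => ψ (i.insertNth t y))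
        = (fun h : ℝ => ψ ((i.insertNth s y : Fin (n + 1) → ℝ)
            + h • (Pi.single i 1 : Fin (n + 1) → ℝ))) ∘ fun t => t - s := by
      funext t
      simp only [Function.comp_apply]
      rw [← insertNth_line]
      congr 2
      ring
    rw [e]
    have h4 : HasDerivAt (fun t : ℝ => t - s) 1 s := (hasDerivAt_id s).sub_const s
    have h5 : HasDerivAt (fun h : ℝ => ψ ((i.insertNth s y : Fin (n + 1) → ℝ)
            + h • (Pi.single i 1 : Fin (n + 1) → ℝ))) (ψ' (i.insertNth s y)) (s - s) := by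
      rw [sub_self]
      exact h3
    have h6 := HasDerivAt.comp (h := fun t : ℝ => t - s) s h5 h4
    rwa [mul_one] at h6
  have hins : Continuous fun s : ℝ => (i.insertNth s y : Fin (n + 1) → ℝ) :=
    Continuous.finInsertNth i continuous_id continuous_const
  have hw : ∀ s : ℝ, 1 + ‖(i.insertNth s y : Fin (n + 1) → ℝ)‖ ≤ (1 + ‖y‖) * (1 + |s|) := by
    intro s
    have h3 := insertNth_norm_le i s y
    nlinarith [norm_nonneg y, abs_nonneg s, mul_nonneg (norm_nonneg y) (abs_nonneg s)]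
  have h3 := stein (φ := fun s => ψ (i.insertNth s y)) (φ' := fun s => ψ' (i.insertNth s y))
    (C := C * (1 + ‖y‖)) key (hc'.comp hins) (fun s => ?_) fun s => ?_
  · simp only [Fin.insertNth_apply_same]
    exact h3
  · refine (h0 _).trans ?_
    rw [mul_assoc]
    exact mul_le_mul_of_nonneg_left (hw s) hC
  · refine (h1 _).trans ?_
    rw [mul_assoc]
    exact mul_le_mul_of_nonneg_left (hw s) hC

end Pool.Agent.Helper29.Twi
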