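import Pool.Agent.Helper29.Twi.Crit
import Pool.Agent.Helper29.Dir.Rates

/-!
# The general criterion, and the criterion for a pole of order one
-/

set_option autoImplicit false

open MeasureTheory ProbabilityTheory Set Filter Topology
open scoped ContDiff

namespace Pool.Agent.Helper29.Twi

open Pool.Agent.Helper29.Dir
open Pool.Agent.H708R2.EulerSign Pool.Agent.H708R2.EulerTypeI Pool.Agent.W734.NS
open Pool.Agent.W786.Max
open H459R3.NS (pd energy cube Per IsSol C4)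

variable {T : ℝ} {u : ℝ → V → V} {p : ℝ → V → ℝ} {g lam hh r ρ : ℝ → ℝ}

/-- At some point of maximal vorticity the twist is small. -/
def MaxTwist (v : V → V) (ρ₁ lam h δ : ℝ) : Prop :=
  ∃ x, (∀ y, nrm (vort v y) ≤ nrm (vort v x)) ∧ TwistLE v x ρ₁ lam h δ

/-- The general criterion on `[0, T)`. -/
theorem twist_gen0 (h : IsSol 0 T u p) (hT : 0 < T) {δ : ℝ} {k : ℕ} (hδ : 0 < δ) (hδ1 : δ ≤ 1)
    (hk : 1 ≤ k) (hgc : ContinuousOn g (Ico 0 T)) (hlc : ContinuousOn lam (Ico 0 T))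
    (hhc : ContinuousOn hh (Ico 0 T)) (hrc : ContinuousOn r (Ico 0 T))
    (hρc : ContinuousOn ρ (Ico 0 T))
    (hg : ∀ t ∈ Ico 0 T, ∀ i j x, |pd j (fun y => u t y i) x| ≤ g t)
    (hlam : ∀ t ∈ Ico 0 T, 0 ≤ lam t) (hh0 : ∀ t ∈ Ico 0 T, 0 ≤ hh t)
    (hr : ∀ t ∈ Ico 0 T, 0 < r t ∧ r t ≤ 1) (hρ : ∀ t ∈ Ico 0 T, 0 < ρ t)
    (hmax : ∀ᵐ t, t ∈ Ioo 0 T → MaxTwist (u t) (ρ t) (lam t) (hh t) δ)
    (i1 : IntegrableOn (fun t => r t ^ (-(5 / 2) : ℝ)) (Ioo 0 T))
    (i2 : IntegrableOn (fun t => lam t * (1 + ∫ q in 0..t, g q)) (Ioo 0 T))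
    (i3 : IntegrableOn (fun t => hh t * r t ^ δ) (Ioo 0 T))
    (i4 : IntegrableOn (fun t => g t * (r t / ρ t) ^ k) (Ioo 0 T)) (l : ℕ) :
    ∃ B, ∀ t ∈ Ico 0 T, hn (l + 2) (u t) ≤ B := by
  obtain ⟨C, hC, hmain⟩ := stretch_sol
  set s : ℝ := T / 2 with hs
  have hsI : s ∈ Ioo 0 T := ⟨half_pos hT, half_lt_self hT⟩
  obtain ⟨A, hA, hstr, -⟩ := hmain T u p g h hgc hg s hsI
  have hsub : ∀ t ∈ Ico s T, t ∈ Ico 0 T := fun t ht => ⟨hsI.1.le.trans ht.1, ht.2⟩
  have hg0 : ∀ t ∈ Ico 0 T, 0 ≤ g t := fun t ht => (abs_nonneg _).trans (hg t ht 0 0 0)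
  have hE0 : 0 ≤ energy (u 0) := Finset.sum_nonneg fun i _ => integral_nonneg fun _ => sq_nonneg _
  set E := energy (u 0) with hE
  have hK := Kc_pos k
  set K : ℝ := Kc k * 2 ^ (k + 3) with hKdef
  have hK0 : 0 < K := by positivity
  set D : ℝ → ℝ := fun t => K * ((2 + E) * r t ^ (-(5 / 2) : ℝ)
        + lam t * (A + C * ∫ q in 0..t, g q) + hh t * (r t ^ δ / δ) + g t * (r t / ρ t) ^ k) with hD
  set D' : ℝ → ℝ := fun t => K * ((2 + E) * r t ^ (-(5 / 2) : ℝ)
        + (A + C) * (lam t * (1 + ∫ q in 0..t, g q)) + 1 / δ * (hh t * r t ^ δ)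
        + g t * (r t / ρ t) ^ k) with hD'
  have hrp : ∀ e : ℝ, ContinuousOn (fun t => r t ^ e) (Ico 0 T) := fun e =>
    hrc.rpow_const fun t ht => Or.inl (hr t ht).1.ne'
  have hGc : ContinuousOn (fun t => ∫ q in 0..t, g q) (Ico 0 T) := prim_cont hgc
  have hDc : ContinuousOn D (Ico 0 T) := by
    refine continuousOn_const.mul ((((continuousOn_const.mul (hrp _)).add
      (hlc.mul (continuousOn_const.add (continuousOn_const.mul hGc)))).add
      (hhc.mul ((hrp δ).div_const δ))).add (hgc.mul ((hrc.div hρc fun t ht => (hρ t ht).ne').pow k)))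
  have hI0 : ∀ t ∈ Ico 0 T, 0 ≤ ∫ q in 0..t, g q := fun t ht => prim_nonneg hg0 ht
  have hD0 : ∀ t ∈ Ico 0 T, 0 ≤ D t := by
    intro t ht
    have h1 := (hr t ht).1
    have h2 := hρ t ht
    have h3 := hlam t ht
    have h4 := hh0 t ht
    have h5 := hg0 t ht
    have h6 := hI0 t ht
    have h7 : 0 ≤ A := by linarith
    simp only [hD]
    positivity
  have hDD : ∀ t ∈ Ico 0 T, D t ≤ D' t := by
    intro t ht
    have h3 := hlam t ht
    have h6 := hI0 t ht
    have h7 : A + C * ∫ q in 0..t, g q ≤ (A + C) * (1 + ∫ q in 0..t, g q) := by nlinarith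
    have h8 := mul_le_mul_of_nonneg_left h7 h3
    have h9 : hh t * (r t ^ δ / δ) = 1 / δ * (hh t * r t ^ δ) := by ring
    simp only [hD, hD']
    refine mul_le_mul_of_nonneg_left ?_ hK0.le
    rw [h9]
    linarith
  have hD'i : IntegrableOn D' (Ioo 0 T) :=
    ((((i1.const_mul _).add (i2.const_mul _)).add (i3.const_mul _)).add i4).const_mul K
  have hDi : IntegrableOn D (Ioo 0 T) := by
    refine Integrable.mono' hD'i
      ((hDc.mono Ioo_subset_Ico_self).aestronglyMeasurable measurableSet_Ioo) ?_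
    refine (ae_restrict_iff' measurableSet_Ioo).2 (Eventually.of_forall fun t ht => ?_)
    have ht' := Ioo_subset_Ico_self ht
    rw [Real.norm_of_nonneg (hD0 t ht')]
    exact hDD t ht'
  set J : ℝ := ∫ t in Ioo 0 T, D t with hJ
  have hJb : ∀ q ∈ Ico s T, ∫ w in s..q, D w ≤ J := by
    intro q hq
    rw [intervalIntegral.integral_of_le hq.1]
    refine setIntegral_mono_set hDi ?_ ?_
    · exact (ae_restrict_iff' measurableSet_Ioo).2
        (Eventually.of_forall fun t ht => hD0 t (Ioo_subset_Ico_self ht))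
    · have hss : Ioc s q ⊆ Ioo 0 T := fun w hw => ⟨hsI.1.trans hw.1, hw.2.trans_lt hq.2⟩
      exact hss.eventuallyLE
  refine crit h hT hgc hg hsI (D := D) (B := T * Real.exp J) (hDc.mono fun t ht => hsub t ht)
    (fun t ht => hD0 t (hsub t ht)) ?_ ?_ l
  · filter_upwards [hmax] with t ht1 ht
    obtain ⟨x, hx1, hx2⟩ := ht1 ⟨hsI.1.trans ht.1, ht.2⟩
    have ht0 : t ∈ Ico 0 T := ⟨(hsI.1.trans ht.1).le, ht.2⟩
    exact ⟨x, hx1, hstr t ⟨ht.1.le, ht.2⟩ x (lam t) (hh t) δ (ρ t) (r t) k (hlam t ht0)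
      (hh0 t ht0) hδ hδ1 (hρ t ht0) hk (hr t ht0).1 (hr t ht0).2 hx2⟩
  · intro t ht
    have h1 : ∫ q in s..t, Real.exp (∫ w in s..q, D w) ≤ ∫ q in s..t, Real.exp J := by
      refine int_mono (Real.continuous_exp.comp_continuousOn
        (prim_cont (hDc.mono fun t ht => hsub t ht))) continuousOn_const (fun q hq => ?_) ht
      exact Real.exp_le_exp.2 (hJb q hq)
    rw [intervalIntegral.integral_const, smul_eq_mul] at h1
    refine h1.trans (mul_le_mul_of_nonneg_right ?_ (Real.exp_pos _).le)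
    linarith [hsI.1, ht.2]

/-- A pole of order one with a coefficient less than one is harmless. -/
theorem crit_kappa (h : IsSol 0 T u p) (hT : 0 < T) (hgc : ContinuousOn g (Ico 0 T))
    (hg : ∀ t ∈ Ico 0 T, ∀ i j x, |pd j (fun y => u t y i) x| ≤ g t) {s₀ κ : ℝ}
    (hs₀ : s₀ ∈ Ico 0 T) (hκ0 : 0 ≤ κ) (hκ : κ < 1)
    (hmax : ∀ᵐ t, t ∈ Ioo s₀ T → ∃ x, IsMaxPt u t x ∧ Pq u t x ≤ κ / (T - t) * Wq u t x)
    (l : ℕ) : ∃ B, ∀ t ∈ Ico 0 T, hn (l + 2) (u t) ≤ B := by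
  set s : ℝ := (s₀ + T) / 2 with hs
  have hss : s₀ < s := by rw [hs]; linarith [hs₀.2]
  have hsI : s ∈ Ioo 0 T := ⟨hs₀.1.trans_lt hss, by rw [hs]; linarith [hs₀.2]⟩
  have hpos : ∀ t ∈ Ico s T, 0 < T - t := fun t ht => by linarith [ht.2]
  have hX : 0 < T - s := by linarith [hsI.2]
  have hDc : ContinuousOn (fun t => κ / (T - t)) (Ico s T) :=
    continuousOn_const.div (continuousOn_const.sub continuousOn_id) fun t ht => (hpos t ht).ne'
  have hD0 : ∀ t ∈ Ico s T, 0 ≤ κ / (T - t) := fun t ht => div_nonneg hκ0 (hpos t ht).le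
  have e1 : ∀ t ∈ Ico s T, ∫ q in s..t, κ / (T - q) = κ * (Real.log (T - s) - Real.log (T - t)) := by
    intro t ht
    have hd : ∀ q ∈ uIcc s t, HasDerivAt (fun q => -(κ * Real.log (T - q))) (κ / (T - q)) q := by
      intro q hq
      rw [uIcc_of_le ht.1] at hq
      have h0 : T - q ≠ 0 := by
        have : 0 < T - q := by linarith [hq.2, ht.2]
        exact this.ne'
      have h1 := ((((hasDerivAt_id q).const_sub T).log h0).const_mul κ).neg
      refine h1.congr_deriv ?_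
      simp only [id]
      ring
    rw [intervalIntegral.integral_eq_sub_of_hasDerivAt hd (ii_of_cont hDc ht)]
    ring
  have e2 : ∀ t ∈ Ico s T, Real.exp (∫ q in s..t, κ / (T - q))
      = (T - s) ^ κ * (T - t) ^ (-κ) := by
    intro t ht
    rw [e1 t ht, Real.rpow_def_of_pos hX, Real.rpow_def_of_pos (hpos t ht), ← Real.exp_add]
    congr 1
    ring
  have hκ1 : 0 < 1 - κ := by linarith
  have hcont : ContinuousOn (fun t => (T - s) ^ κ * (T - t) ^ (-κ)) (Ico s T) :=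
    continuousOn_const.mul ((continuousOn_const.sub continuousOn_id).rpow_const fun t ht =>
      Or.inl (hpos t ht).ne')
  refine crit h hT hgc hg hsI (D := fun t => κ / (T - t))
    (B := (T - s) ^ κ / (1 - κ) * (T - s) ^ (1 - κ)) hDc hD0 ?_ ?_ l
  · filter_upwards [hmax] with t ht1 ht
    exact ht1 ⟨hss.trans ht.1, ht.2⟩
  · intro t ht
    have h1 : ∫ q in s..t, Real.exp (∫ w in s..q, κ / (T - w))
        = ∫ q in s..t, (T - s) ^ κ * (T - q) ^ (-κ) := by
      refine intervalIntegral.integral_congr fun q hq => ?_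
      rw [uIcc_of_le ht.1] at hq
      exact e2 q ⟨hq.1, hq.2.trans_lt ht.2⟩
    have hd : ∀ q ∈ uIcc s t, HasDerivAt (fun q => -((T - s) ^ κ / (1 - κ) * (T - q) ^ (1 - κ)))
        ((T - s) ^ κ * (T - q) ^ (-κ)) q := by
      intro q hq
      rw [uIcc_of_le ht.1] at hq
      have h0 : T - q ≠ 0 := by
        have : 0 < T - q := by linarith [hq.2, ht.2]
        exact this.ne'
      have h1 := ((((hasDerivAt_id q).const_sub T).rpow_const (p := 1 - κ)
        (Or.inl h0)).const_mul ((T - s) ^ κ / (1 - κ))).neg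
      refine h1.congr_deriv ?_
      have e2 : (1 - κ - 1 : ℝ) = -κ := by ring
      simp only [id, e2]
      field_simp
    rw [h1, intervalIntegral.integral_eq_sub_of_hasDerivAt hd (ii_of_cont hcont ht)]
    have h3 : 0 ≤ (T - s) ^ κ / (1 - κ) * (T - t) ^ (1 - κ) := by
      have := hpos t ht
      positivity
    linarith

end Pool.Agent.Helper29.Twi
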