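import Pool.Agent.Helper29.Twi.G3

/-!
# Gaussian averages of periodic functions
-/

set_option autoImplicit false

open MeasureTheory ProbabilityTheory Set Filter Topology

namespace Pool.Agent.Helper29.Twi

open Pool.Agent.Helper29.Dir

lemma per_bdd {φ : ℝ → ℝ} (hc : Continuous φ) (hp : Function.Periodic φ 1) :
    ∃ M : ℝ, ∀ s, |φ s| ≤ M := by
  obtain ⟨M, hM⟩ := (isCompact_Icc (a := (0 : ℝ)) (b := 1)).exists_bound_of_continuousOn
    hc.continuousOn
  refine ⟨M, fun s => ?_⟩
  have h1 : φ s = φ (Int.fract s) := by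
    have := hp.sub_zsmul_eq (x := s) ⌊s⌋
    rw [← this]
    congr 1
    rw [zsmul_eq_mul, mul_one, Int.self_sub_floor]
  rw [h1]
  exact hM _ ⟨Int.fract_nonneg s, (Int.fract_lt_one s).le⟩

lemma int_per_le {φ : ℝ → ℝ} (hc : Continuous φ) (h0 : ∀ s, 0 ≤ φ s) (hp : Function.Periodic φ 1)
    (x : ℝ) {a : ℝ} (ha : 0 ≤ a) : ∫ s in x..(x + a), φ s ≤ (a + 1) * ∫ s in (0 : ℝ)..1, φ s := by
  set n : ℕ := ⌈a⌉₊ with hn
  have hI : 0 ≤ ∫ s in (0 : ℝ)..1, φ s :=
    intervalIntegral.integral_nonneg zero_le_one fun s _ => h0 s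
  have hii : ∀ a b : ℝ, IntervalIntegrable φ volume a b := fun a b => hc.intervalIntegrable a b
  have h1 : ∫ s in x..(x + a), φ s ≤ ∫ s in x..(x + n), φ s := by
    refine intervalIntegral.integral_mono_interval le_rfl (by linarith) ?_ ?_ (hii _ _)
    · have := Nat.le_ceil a
      linarith
    · exact Eventually.of_forall h0
  have h2 : ∫ s in x..(x + n), φ s = n * ∫ s in (0 : ℝ)..1, φ s := by
    have h3 := hp.intervalIntegral_add_zsmul_eq (n : ℤ) x (fun a b => hii a b)
    have h4 := hp.intervalIntegral_add_eq x 0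
    simp only [zsmul_eq_mul, mul_one, Int.cast_natCast, zero_add] at h3 h4
    rw [h3, h4]
  have h3 : (n : ℝ) ≤ a + 1 := (Nat.ceil_lt_add_one ha).le
  calc ∫ s in x..(x + a), φ s ≤ n * ∫ s in (0 : ℝ)..1, φ s := h1.trans h2.le
    _ ≤ (a + 1) * ∫ s in (0 : ℝ)..1, φ s := mul_le_mul_of_nonneg_right h3 hI

/-- One variable. -/
lemma avg1 {φ : ℝ → ℝ} (hc : Continuous φ) (h0 : ∀ s, 0 ≤ φ s) (hp : Function.Periodic φ 1)
    {ρ : ℝ} (hρ : 0 < ρ) (x : ℝ) :
    ∫ s, φ (x + ρ * s) ∂gm ≤ (1 + 1 / ρ) * ∫ s in (0 : ℝ)..1, φ s := by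
  obtain ⟨M, hM⟩ := per_bdd hc hp
  set I := ∫ s in (0 : ℝ)..1, φ s with hI
  have hI0 : 0 ≤ I := intervalIntegral.integral_nonneg zero_le_one fun s _ => h0 s
  have hM0 : 0 ≤ M := (abs_nonneg _).trans (hM 0)
  have hii : ∀ a b : ℝ, IntervalIntegrable φ volume a b := fun a b => hc.intervalIntegrable a b
  set Φ : ℝ → ℝ := fun s => (∫ r in x..(x + ρ * s), φ r) / ρ with hΦ
  have hΦd : ∀ s, HasDerivAt Φ (φ (x + ρ * s)) s := by
    intro s
    have h1 : HasDerivAt (fun t => ∫ r in x..t, φ r) (φ (x + ρ * s)) (x + ρ * s) :=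
      intervalIntegral.integral_hasDerivAt_right (hii _ _)
        (hc.stronglyMeasurableAtFilter _ _) hc.continuousAt
    have h2 : HasDerivAt (fun s : ℝ => x + ρ * s) ρ s := by
      simpa using ((hasDerivAt_id s).const_mul ρ).const_add x
    have h3 := (HasDerivAt.comp (h := fun s : ℝ => x + ρ * s) s h1 h2).div_const ρ
    refine h3.congr_deriv ?_
    field_simp
  have hΦb : ∀ s, |Φ s| ≤ (|s| + 1 / ρ) * I := by
    intro s
    have key : |∫ r in x..(x + ρ * s), φ r| ≤ (ρ * |s| + 1) * I := by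
      rcases le_total 0 s with hs | hs
      · have h1 := int_per_le hc h0 hp x (a := ρ * s) (by positivity)
        rw [abs_of_nonneg (intervalIntegral.integral_nonneg
          (by have : 0 ≤ ρ * s := by positivity
              linarith) fun s _ => h0 s), abs_of_nonneg hs]
        exact h1
      · have h1 := int_per_le hc h0 hp (x + ρ * s) (a := ρ * (-s)) (by
          have : 0 ≤ -s := by linarith
          positivity)
        have e : x + ρ * s + ρ * -s = x := by ring
        rw [e] at h1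
        rw [intervalIntegral.integral_symm, abs_neg, abs_of_nonneg
          (intervalIntegral.integral_nonneg (by nlinarith) fun s _ => h0 s), abs_of_nonpos hs]
        exact h1
    rw [hΦ]
    simp only
    rw [abs_div, abs_of_pos hρ, div_le_iff₀ hρ]
    refine key.trans (le_of_eq ?_)
    field_simp
  have h1 := stein (φ := Φ) (φ' := fun s => φ (x + ρ * s)) (C := (1 + 1 / ρ) * I + M) hΦd
    (hc.comp (by fun_prop)) (fun s => ?_) fun s => ?_
  · rw [← h1]
    have iΦ : Integrable (fun s => s * Φ s) gm := by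
      have hΦc : Continuous Φ := continuous_iff_continuousAt.2 fun s => (hΦd s).continuousAt
      refine int_poly (by fun_prop) (C := (1 + 1 / ρ) * I) fun s => ?_
      rw [abs_mul]
      calc |s| * |Φ s| ≤ |s| * ((|s| + 1 / ρ) * I) :=
            mul_le_mul_of_nonneg_left (hΦb s) (abs_nonneg _)
        _ = (|s| ^ 2 + |s| * (1 / ρ)) * I := by ring
        _ ≤ ((1 + s ^ 2) + (1 + s ^ 2) * (1 / ρ)) * I := by
            have h2 : |s| ^ 2 ≤ 1 + s ^ 2 := by rw [sq_abs]; linarith
            have h3 : |s| ≤ 1 + s ^ 2 := by nlinarith [sq_nonneg (|s| - 1), sq_abs s]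
            gcongr
        _ = (1 + 1 / ρ) * I * (1 + s ^ 2) := by ring
    have ib : Integrable (fun s : ℝ => I * s ^ 2 + (1 / ρ) * I / 2 * (1 + s ^ 2)) gm :=
      (int_sq.const_mul I).add (int_one_add_sq.const_mul _)
    have h2 : ∫ s, s * Φ s ∂gm ≤ ∫ s, (I * s ^ 2 + (1 / ρ) * I / 2 * (1 + s ^ 2)) ∂gm := by
      refine integral_mono iΦ ib fun s => ?_
      have h3 : s * Φ s ≤ |s| * |Φ s| := by rw [← abs_mul]; exact le_abs_self _
      have h4 : |s| * |Φ s| ≤ |s| * ((|s| + 1 / ρ) * I) :=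
        mul_le_mul_of_nonneg_left (hΦb s) (abs_nonneg _)
      have h5 : |s| ≤ (1 + s ^ 2) / 2 := by nlinarith [sq_nonneg (|s| - 1), sq_abs s]
      have h6 : |s| * (1 / ρ * I) ≤ (1 + s ^ 2) / 2 * (1 / ρ * I) :=
        mul_le_mul_of_nonneg_right h5 (by positivity)
      have h7 : |s| ^ 2 = s ^ 2 := sq_abs s
      calc s * Φ s ≤ |s| * ((|s| + 1 / ρ) * I) := h3.trans h4
        _ = I * |s| ^ 2 + |s| * (1 / ρ * I) := by ring
        _ ≤ I * s ^ 2 + (1 + s ^ 2) / 2 * (1 / ρ * I) := by rw [h7]; linarith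
        _ = I * s ^ 2 + (1 / ρ) * I / 2 * (1 + s ^ 2) := by ring
    refine h2.trans (le_of_eq ?_)
    rw [integral_add (int_sq.const_mul I) (int_one_add_sq.const_mul _), integral_const_mul,
      integral_const_mul, integral_add (integrable_const 1) int_sq, integral_sq]
    simp
    ring
  · refine (hΦb s).trans ?_
    have h2 : (|s| + 1 / ρ) ≤ (1 + 1 / ρ) * (1 + |s|) := by
      have h3 : 0 ≤ |s| := abs_nonneg s
      have h4 : 0 ≤ 1 / ρ := by positivity
      nlinarith [mul_nonneg h3 h4]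
    calc (|s| + 1 / ρ) * I ≤ ((1 + 1 / ρ) * (1 + |s|)) * I := mul_le_mul_of_nonneg_right h2 hI0
      _ = (1 + 1 / ρ) * I * (1 + |s|) := by ring
      _ ≤ ((1 + 1 / ρ) * I + M) * (1 + |s|) := by
          refine mul_le_mul_of_nonneg_right (by linarith) (by positivity)
  · refine (hM _).trans ?_
    have h3 : 0 ≤ |s| := abs_nonneg s
    have h4 : 0 ≤ (1 + 1 / ρ) * I := by positivity
    nlinarith [mul_nonneg hM0 h3, mul_nonneg h4 h3]

lemma insertNth_add {n : ℕ} (a b : ℝ) (y z : Fin n → ℝ) :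
    ((0 : Fin (n + 1)).insertNth (a + b) (y + z) : Fin (n + 1) → ℝ)
      = ((0 : Fin (n + 1)).insertNth a y : Fin (n + 1) → ℝ)
        + ((0 : Fin (n + 1)).insertNth b z : Fin (n + 1) → ℝ) := by
  funext j
  rcases Fin.eq_self_or_eq_succAbove 0 j with rfl | ⟨k, rfl⟩
  · simp
  · simp

lemma insertNth_smul {n : ℕ} (c a : ℝ) (y : Fin n → ℝ) :
    ((0 : Fin (n + 1)).insertNth (c * a) (c • y) : Fin (n + 1) → ℝ)
      = c • ((0 : Fin (n + 1)).insertNth a y : Fin (n + 1) → ℝ) := by
  funext j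
  rcases Fin.eq_self_or_eq_succAbove 0 j with rfl | ⟨k, rfl⟩
  · simp
  · simp

lemma insertNth_self {n : ℕ} (x : Fin (n + 1) → ℝ) :
    ((0 : Fin (n + 1)).insertNth (x 0) (fun k => x ((0 : Fin (n + 1)).succAbove k))
      : Fin (n + 1) → ℝ) = x := by
  funext j
  rcases Fin.eq_self_or_eq_succAbove 0 j with rfl | ⟨k, rfl⟩
  · simp
  · simp

/-- Several variables. -/
lemma avgn {ρ : ℝ} (hρ : 0 < ρ) : ∀ (n : ℕ) {φ : (Fin n → ℝ) → ℝ}, Continuous φ → (∀ z, 0 ≤ φ z) →
    (∀ i z, φ (z + Pi.single i 1) = φ z) → ∀ x : Fin n → ℝ,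
    ∫⁻ z, ENNReal.ofReal (φ (x + ρ • z)) ∂(gn n)
      ≤ ENNReal.ofReal ((1 + 1 / ρ) ^ n) * ∫⁻ z in Icc 0 1, ENNReal.ofReal (φ z) := by
  intro n
  induction n with
  | zero =>
    intro φ hc h0 hp x
    have h1 : ∀ z : Fin 0 → ℝ, φ z = φ 0 := fun z => by rw [Subsingleton.elim z 0]
    have h2 : (Icc 0 1 : Set (Fin 0 → ℝ)) = univ := by
      ext z
      simp [Subsingleton.elim z 0]
    simp only [h1, lintegral_const, pow_zero, ENNReal.ofReal_one, one_mul, h2, measure_univ,
      Measure.restrict_univ]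
    rw [volume_pi, Measure.pi_of_empty]
    simp
  | succ n ih =>
    intro φ hc h0 hp x
    have hins : Continuous fun w : ℝ × (Fin n → ℝ) =>
        ((0 : Fin (n + 1)).insertNth w.1 w.2 : Fin (n + 1) → ℝ) :=
      Continuous.finInsertNth 0 continuous_fst continuous_snd
    set x0 := x 0 with hx0
    set x' : Fin n → ℝ := fun k => x ((0 : Fin (n + 1)).succAbove k) with hx'
    have hx : x = ((0 : Fin (n + 1)).insertNth x0 x' : Fin (n + 1) → ℝ) := (insertNth_self x).symm
    have hcomb : ∀ (s : ℝ) (y : Fin n → ℝ),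
        x + ρ • ((0 : Fin (n + 1)).insertNth s y : Fin (n + 1) → ℝ)
          = ((0 : Fin (n + 1)).insertNth (x0 + ρ * s) (x' + ρ • y) : Fin (n + 1) → ℝ) := by
      intro s y
      rw [insertNth_add, insertNth_smul, ← hx]
    have hofc : Continuous fun w : ℝ × (Fin n → ℝ) =>
        ENNReal.ofReal (φ ((0 : Fin (n + 1)).insertNth w.1 w.2)) :=
      ENNReal.continuous_ofReal.comp (hc.comp hins)
    -- Tonelli
    have e1 : ∫⁻ z, ENNReal.ofReal (φ (x + ρ • z)) ∂(gn (n + 1))
        = ∫⁻ y, ∫⁻ s, ENNReal.ofReal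
          (φ ((0 : Fin (n + 1)).insertNth (x0 + ρ * s) (x' + ρ • y))) ∂gm ∂(gn n) := by
      have h1 := (pres n 0).symm
      have h2 : ∫⁻ z, ENNReal.ofReal (φ (x + ρ • z)) ∂(gn (n + 1))
          = ∫⁻ w, ENNReal.ofReal (φ (x + ρ • ((0 : Fin (n + 1)).insertNth w.1 w.2
            : Fin (n + 1) → ℝ))) ∂(gm.prod (gn n)) :=
        (h1.lintegral_comp_emb
          (MeasurableEquiv.piFinSuccAbove (fun _ => ℝ) 0).symm.measurableEmbedding
          (fun z => ENNReal.ofReal (φ (x + ρ • z)))).symm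
      rw [h2, lintegral_prod_symm]
      · refine lintegral_congr fun y => lintegral_congr fun s => ?_
        rw [hcomb]
      · refine Continuous.aemeasurable ?_
        exact ENNReal.continuous_ofReal.comp (hc.comp (continuous_const.add (hins.const_smul ρ)))
    have e2 : ∫⁻ z in Icc 0 1, ENNReal.ofReal (φ z)
        = ∫⁻ s in Icc 0 1, ∫⁻ y in Icc 0 1,
          ENNReal.ofReal (φ ((0 : Fin (n + 1)).insertNth s y)) := by
      have h1 := (volume_preserving_piFinSuccAbove (fun _ : Fin (n + 1) => ℝ) 0).symm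
      have h2 := h1.setLIntegral_comp_preimage_emb
        (MeasurableEquiv.piFinSuccAbove (fun _ => ℝ) 0).symm.measurableEmbedding
        (fun z => ENNReal.ofReal (φ z)) (Icc 0 1)
      rw [← h2]
      have h3 : (MeasurableEquiv.piFinSuccAbove (fun _ : Fin (n + 1) => ℝ) 0).symm ⁻¹' Icc 0 1
          = Icc (0 : ℝ) 1 ×ˢ Icc (0 : Fin n → ℝ) 1 := by
        ext w
        simp only [mem_preimage, mem_Icc, mem_prod, symm_apply, Pi.le_def, Pi.zero_apply,
          Pi.one_apply]
        constructor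
        · rintro ⟨h4, h5⟩
          refine ⟨⟨?_, ?_⟩, ⟨fun k => ?_, fun k => ?_⟩⟩
          · simpa using h4 0
          · simpa using h5 0
          · simpa using h4 k.succ
          · simpa using h5 k.succ
        · rintro ⟨⟨h4, h5⟩, ⟨h6, h7⟩⟩
          refine ⟨fun j => ?_, fun j => ?_⟩
          · rcases Fin.eq_self_or_eq_succAbove 0 j with rfl | ⟨k, rfl⟩
            · simpa using h4
            · simpa using h6 k
          · rcases Fin.eq_self_or_eq_succAbove 0 j with rfl | ⟨k, rfl⟩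
            · simpa using h5
            · simpa using h7 k
      rw [h3, Measure.volume_eq_prod, ← Measure.prod_restrict, lintegral_prod]
      · rfl
      · exact (hofc.measurable).aemeasurable
    rw [e1, e2]
    calc ∫⁻ y, ∫⁻ s, ENNReal.ofReal
          (φ ((0 : Fin (n + 1)).insertNth (x0 + ρ * s) (x' + ρ • y))) ∂gm ∂(gn n)
        ≤ ∫⁻ y, (ENNReal.ofReal (1 + 1 / ρ) * ∫⁻ s in Icc (0 : ℝ) 1,
          ENNReal.ofReal (φ ((0 : Fin (n + 1)).insertNth s (x' + ρ • y)))) ∂(gn n) := by
          refine lintegral_mono fun y => ?_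
          set φ1 : ℝ → ℝ := fun s => φ ((0 : Fin (n + 1)).insertNth s (x' + ρ • y)) with hφ1
          have c1 : Continuous φ1 := hc.comp (Continuous.finInsertNth 0 continuous_id
            continuous_const)
          have p1 : Function.Periodic φ1 1 := by
            intro s
            have h1 := insertNth_line 0 s 1 (x' + ρ • y)
            rw [one_smul] at h1
            simp only [hφ1]
            rw [h1, hp]
          have key := avg1 c1 (fun s => h0 _) p1 hρ x0
          have i1 : Integrable (fun s => φ1 (x0 + ρ * s)) gm := by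
            obtain ⟨M, hM⟩ := per_bdd c1 p1
            exact int_poly (c1.comp (by fun_prop)) (C := M) fun s => (hM _).trans
              (le_mul_of_one_le_right ((abs_nonneg _).trans (hM 0)) (by nlinarith [sq_nonneg s]))
          have i2 : IntegrableOn φ1 (Icc 0 1) := c1.continuousOn.integrableOn_Icc
          have r1 : ∫⁻ s, ENNReal.ofReal (φ1 (x0 + ρ * s)) ∂gm
              = ENNReal.ofReal (∫ s, φ1 (x0 + ρ * s) ∂gm) :=
            (ofReal_integral_eq_lintegral_ofReal i1 (Eventually.of_forall fun s => h0 _)).symm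
          have r2 : ∫⁻ s in Icc 0 1, ENNReal.ofReal (φ1 s)
              = ENNReal.ofReal (∫ s in Icc 0 1, φ1 s) :=
            (ofReal_integral_eq_lintegral_ofReal i2 (Eventually.of_forall fun s => h0 _)).symm
          rw [r1, r2, ← ENNReal.ofReal_mul (by positivity)]
          refine ENNReal.ofReal_le_ofReal (key.trans (le_of_eq ?_))
          rw [intervalIntegral.integral_of_le zero_le_one, integral_Icc_eq_integral_Ioc]
      _ = ENNReal.ofReal (1 + 1 / ρ) * ∫⁻ s in Icc (0 : ℝ) 1, ∫⁻ y,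
          ENNReal.ofReal (φ ((0 : Fin (n + 1)).insertNth s (x' + ρ • y))) ∂(gn n) := by
          rw [lintegral_const_mul' _ _ ENNReal.ofReal_ne_top, lintegral_lintegral_swap]
          refine Continuous.aemeasurable ?_
          exact ENNReal.continuous_ofReal.comp (hc.comp (Continuous.finInsertNth 0 continuous_snd
            (continuous_const.add (continuous_fst.const_smul ρ))))
      _ ≤ ENNReal.ofReal (1 + 1 / ρ) * ∫⁻ s in Icc (0 : ℝ) 1,
          (ENNReal.ofReal ((1 + 1 / ρ) ^ n) * ∫⁻ y in Icc 0 1,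
            ENNReal.ofReal (φ ((0 : Fin (n + 1)).insertNth s y))) := by
          gcongr with s
          refine ih (hc.comp (Continuous.finInsertNth 0 continuous_const continuous_id))
            (fun z => h0 _) (fun i z => ?_) x'
          have h1 : ((0 : Fin (n + 1)).insertNth s (z + Pi.single i 1) : Fin (n + 1) → ℝ)
              = ((0 : Fin (n + 1)).insertNth s z : Fin (n + 1) → ℝ) + Pi.single i.succ 1 := by
            funext j
            rcases Fin.eq_self_or_eq_succAbove 0 j with rfl | ⟨k, rfl⟩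
            · simp
            · simp [Pi.single_apply]
          show φ ((0 : Fin (n + 1)).insertNth s (z + Pi.single i 1)) = φ ((0 : Fin (n + 1)).insertNth s z)
          rw [h1, hp]
      _ = _ := by
          rw [lintegral_const_mul' _ _ ENNReal.ofReal_ne_top, ← mul_assoc,
            ← ENNReal.ofReal_mul (by positivity)]
          congr 2
          ring

/-- The average of a continuous periodic function is at most a multiple of its integral. -/
theorem avg_le {n : ℕ} {ρ : ℝ} (hρ : 0 < ρ) {φ : (Fin n → ℝ) → ℝ} (hc : Continuous φ)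
    (h0 : ∀ z, 0 ≤ φ z) (hp : ∀ i z, φ (z + Pi.single i 1) = φ z) (x : Fin n → ℝ)
    (hi : Integrable (fun z => φ (x + ρ • z)) (gn n)) :
    ∫ z, φ (x + ρ • z) ∂(gn n) ≤ (1 + 1 / ρ) ^ n * ∫ z in Icc 0 1, φ z := by
  have h1 := avgn hρ n hc h0 hp x
  have i2 : IntegrableOn φ (Icc 0 1) := hc.continuousOn.integrableOn_Icc
  have r1 : ∫⁻ z, ENNReal.ofReal (φ (x + ρ • z)) ∂(gn n)
      = ENNReal.ofReal (∫ z, φ (x + ρ • z) ∂(gn n)) :=
    (ofReal_integral_eq_lintegral_ofReal hi (Eventually.of_forall fun s => h0 _)).symm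
  have r2 : ∫⁻ z in Icc 0 1, ENNReal.ofReal (φ z) = ENNReal.ofReal (∫ z in Icc 0 1, φ z) :=
    (ofReal_integral_eq_lintegral_ofReal i2 (Eventually.of_forall fun s => h0 _)).symm
  rw [r1, r2, ← ENNReal.ofReal_mul (by positivity)] at h1
  have h2 : 0 ≤ ∫ z in Icc 0 1, φ z := setIntegral_nonneg measurableSet_Icc fun z _ => h0 z
  exact (ENNReal.ofReal_le_ofReal_iff (by positivity)).1 h1

end Pool.Agent.Helper29.Twi
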