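import Pool.Agent.Helper29.Twi.Form

/-!
# The stretching rate is bounded by the twist near the point and by the energy
-/

set_option autoImplicit false

open MeasureTheory ProbabilityTheory Set Filter Topology

namespace Pool.Agent.Helper29.Twi

open Pool.Agent.Helper29.Dir
open Pool.Agent.H708R2.EulerSign Pool.Agent.H708R2.EulerTypeI
open H459R3.NS (pd energy cube Per)

section

variable {v : V → V} {M : ℝ}

/-! ## Large scales -/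

lemma VF.comp_bd (H : VF v M) (i : Fin 3) : BD (fun y => v y i) M where
  c1 := (contDiff_pi.1 (H.c2.of_le (by norm_num))) i
  b0 y := (norm_le_pi_norm (v y) i).trans (H.b0 y)
  b1 y := by
    have hd : DifferentiableAt ℝ v y := (H.c2.differentiable (by norm_num)) y
    refine ContinuousLinearMap.opNorm_le_bound _ H.M0 fun w => ?_
    rw [comp_fderiv hd]
    have h1 : ‖fderiv ℝ v y w i‖ ≤ ‖fderiv ℝ v y w‖ := norm_le_pi_norm (fderiv ℝ v y w) i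
    exact h1.trans (((fderiv ℝ v y).le_opNorm w).trans
      (mul_le_mul_of_nonneg_right (H.b1 y) (norm_nonneg _)))

lemma VF.pd_comp (H : VF v M) (i j : Fin 3) (y : V) : pd j (fun y => v y i) y = Gr v i j y := by
  have hd : DifferentiableAt ℝ v y := (H.c2.differentiable (by norm_num)) y
  exact comp_fderiv hd i _

lemma VF.far1 (H : VF v M) (hp : Per v) {E r : ℝ} (hE : energy v ≤ E) (hr : 0 < r) (hr1 : r ≤ 1)
    (x : V) (i j : Fin 3) :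
    |Av (Gr v i j) x r| ≤ r ^ (-(5 / 2) : ℝ) * ((mom 3 2 + 8 * E) / 2) := by
  have hB := H.comp_bd i
  have h1 := st1 hB x r j
  simp only [H.pd_comp] at h1
  have e1 : Av (Gr v i j) x r = r⁻¹ * ∫ z, z j * v (x + r • z) i ∂g3 := by
    rw [h1]
    unfold Av
    field_simp
  set μ : ℝ := r ^ (-(3 / 2) : ℝ) with hμ
  have hμ0 : 0 < μ := Real.rpow_pos_of_pos hr _
  have hvc := fcont hB.cont x r
  have isq : Integrable (fun z : V => v (x + r • z) i ^ 2) g3 := by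
    refine int_of_pow (k := 0) (hvc.pow 2) (C := M ^ 2) fun z => ?_
    rw [pow_zero, mul_one, abs_pow]
    exact pow_le_pow_left₀ (abs_nonneg _) (hB.b0 _) 2
  have hS : ∫ z, v (x + r • z) i ^ 2 ∂g3 ≤ 8 * E * r ^ (-3 : ℝ) := by
    have h2 := avg_le (n := 3) hr (φ := fun y => v y i ^ 2) (hB.cont.pow 2) (fun z => sq_nonneg _)
      (fun k z => by
        have := hp k z
        rw [this]) x isq
    have h3 : ∫ z in Icc 0 1, v z i ^ 2 ≤ E := by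
      refine le_trans ?_ hE
      exact Finset.single_le_sum (f := fun i => ∫ x in cube, v x i ^ 2)
        (fun _ _ => integral_nonneg fun _ => sq_nonneg _) (Finset.mem_univ i)
    have h4 : (1 + 1 / r) ^ 3 ≤ 8 * r ^ (-3 : ℝ) := by
      have h5 : 1 + 1 / r ≤ 2 * r⁻¹ := by
        have : 1 ≤ r⁻¹ := (one_le_inv₀ hr).2 hr1
        rw [one_div]
        linarith
      calc (1 + 1 / r) ^ 3 ≤ (2 * r⁻¹) ^ 3 := by gcongr
        _ = 8 * r ^ (-3 : ℝ) := by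
            rw [mul_pow, inv_pow, Real.rpow_neg hr.le]
            norm_num
    have h6 : 0 ≤ ∫ z in Icc 0 1, v z i ^ 2 := integral_nonneg fun _ => sq_nonneg _
    calc ∫ z, v (x + r • z) i ^ 2 ∂g3 ≤ (1 + 1 / r) ^ 3 * ∫ z in Icc 0 1, v z i ^ 2 := h2
      _ ≤ (8 * r ^ (-3 : ℝ)) * E := by gcongr
      _ = 8 * E * r ^ (-3 : ℝ) := by ring
  have hb : ∀ z : V, |z j * v (x + r • z) i| ≤ μ / 2 * ‖z‖ ^ 2 + μ⁻¹ / 2 * v (x + r • z) i ^ 2 := by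
    intro z
    rw [abs_mul]
    have h2 : |z j| ≤ ‖z‖ := norm_le_pi_norm z j
    have h3 : |z j| * |v (x + r • z) i| ≤ ‖z‖ * |v (x + r • z) i| :=
      mul_le_mul_of_nonneg_right h2 (abs_nonneg _)
    have h4 : 0 ≤ μ⁻¹ / 2 * (μ * ‖z‖ - |v (x + r • z) i|) ^ 2 := by positivity
    have h5 : μ⁻¹ / 2 * (μ * ‖z‖ - |v (x + r • z) i|) ^ 2
        = μ / 2 * ‖z‖ ^ 2 + μ⁻¹ / 2 * v (x + r • z) i ^ 2 - ‖z‖ * |v (x + r • z) i| := by
      rw [sub_sq, mul_pow, sq_abs]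
      field_simp
      ring
    linarith
  have hint : |∫ z, z j * v (x + r • z) i ∂g3| ≤ μ / 2 * mom 3 2 + μ⁻¹ / 2 * (8 * E * r ^ (-3 : ℝ)) := by
    rw [← Real.norm_eq_abs]
    have i3 : Integrable (fun z : V => μ / 2 * ‖z‖ ^ 2 + μ⁻¹ / 2 * v (x + r • z) i ^ 2) g3 :=
      ((int_pow 3 2).const_mul _).add (isq.const_mul _)
    refine (norm_integral_le_of_norm_le i3 (Eventually.of_forall fun z => ?_)).trans ?_
    · rw [Real.norm_eq_abs]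
      exact hb z
    · rw [integral_add ((int_pow 3 2).const_mul _) (isq.const_mul _), integral_const_mul,
        integral_const_mul]
      have h6 : μ⁻¹ / 2 * ∫ z, v (x + r • z) i ^ 2 ∂g3 ≤ μ⁻¹ / 2 * (8 * E * r ^ (-3 : ℝ)) :=
        mul_le_mul_of_nonneg_left hS (by positivity)
      have h7 : ∫ z : V, ‖z‖ ^ 2 ∂g3 = mom 3 2 := rfl
      rw [h7]
      linarith
  rw [e1, abs_mul, abs_of_pos (inv_pos.2 hr)]
  have hμi : μ⁻¹ * r ^ (-3 : ℝ) = μ := by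
    rw [hμ, ← Real.rpow_neg hr.le, ← Real.rpow_add hr]
    congr 1
    norm_num
  have hμ2 : r⁻¹ * μ = r ^ (-(5 / 2) : ℝ) := by
    rw [hμ, ← Real.rpow_neg_one, ← Real.rpow_add hr]
    congr 1
    norm_num
  calc r⁻¹ * |∫ z, z j * v (x + r • z) i ∂g3|
      ≤ r⁻¹ * (μ / 2 * mom 3 2 + μ⁻¹ / 2 * (8 * E * r ^ (-3 : ℝ))) :=
        mul_le_mul_of_nonneg_left hint (inv_pos.2 hr).le
    _ = (r⁻¹ * μ) * (mom 3 2 / 2) + r⁻¹ * (μ⁻¹ * r ^ (-3 : ℝ)) * (4 * E) := by ring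
    _ = r ^ (-(5 / 2) : ℝ) * ((mom 3 2 + 8 * E) / 2) := by
        rw [hμi, hμ2]
        ring

lemma VF.Av_str (H : VF v M) (c x : V) (r : ℝ) :
    Av (str v c) x r = ∑ i, ∑ j, c i * c j * Av (Gr v i j) x r := by
  unfold Av str
  have hi : ∀ i j, Integrable (fun z : V => c i * c j * Gr v i j (x + r • z)) g3 :=
    fun i j => (i0 (H.bd i j).cont (H.bd i j).b0 x r).const_mul _
  rw [integral_finsetSum _ fun i _ => integrable_finsetSum _ fun j _ => hi i j]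
  refine Finset.sum_congr rfl fun i _ => ?_
  rw [integral_finsetSum _ fun j _ => hi i j]
  exact Finset.sum_congr rfl fun j _ => integral_const_mul _ _

lemma VF.far (H : VF v M) (hp : Per v) {E r : ℝ} (hE : energy v ≤ E) (hr : 0 < r) (hr1 : r ≤ 1)
    {c : V} (hc : ∀ i, |c i| ≤ 1) (x : V) :
    |Av (str v c) x r| ≤ 9 * (r ^ (-(5 / 2) : ℝ) * ((mom 3 2 + 8 * E) / 2)) := by
  rw [H.Av_str]
  set B := r ^ (-(5 / 2) : ℝ) * ((mom 3 2 + 8 * E) / 2) with hB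
  have hb : ∀ i j, |c i * c j * Av (Gr v i j) x r| ≤ B := by
    intro i j
    rw [abs_mul, abs_mul]
    have h1 := H.far1 hp hE hr hr1 x i j
    have h2 : |c i| * |c j| ≤ 1 := mul_le_one₀ (hc i) (abs_nonneg _) (hc j)
    exact (mul_le_mul h2 h1 (abs_nonneg _) zero_le_one).trans (le_of_eq (one_mul _))
  refine (Finset.abs_sum_le_sum_abs _ _).trans ?_
  have h1 : ∀ i, |∑ j, c i * c j * Av (Gr v i j) x r| ≤ 3 * B := by
    intro i
    refine (Finset.abs_sum_le_sum_abs _ _).trans ?_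
    exact (Finset.sum_le_card_nsmul _ _ B fun j _ => hb i j).trans (le_of_eq (by simp))
  refine (Finset.sum_le_card_nsmul _ _ _ fun i _ => h1 i).trans (le_of_eq ?_)
  simp
  ring

/-! ## Small scales -/

lemma near {f : V → ℝ} (h : BD f M) {N : ℝ} (hN : ∀ y, ‖fderiv ℝ f y‖ ≤ N) {ε : ℝ} (hε : 0 ≤ ε)
    (x : V) : |f x - Av f x ε| ≤ N * ε * mom 3 1 := by
  have e : f x - Av f x ε = ∫ z, (f x - f (x + ε • z)) ∂g3 := by
    rw [integral_sub (integrable_const _) (i0 h.cont h.b0 x ε)]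
    simp [Av]
  have h2 : ∀ z : V, ‖f x - f (x + ε • z)‖ ≤ N * ε * ‖z‖ ^ 1 := by
    intro z
    have h3 := Convex.norm_image_sub_le_of_norm_fderiv_le (𝕜 := ℝ) (f := f) (s := univ)
      (x := x + ε • z) (y := x)
      (fun x _ => (h.c1.differentiable one_ne_zero) x) (fun x _ => hN x) convex_univ (mem_univ _)
      (mem_univ _)
    refine h3.trans (le_of_eq ?_)
    have h4 : x - (x + ε • z) = (-ε) • z := by simp
    rw [h4, norm_smul, norm_neg, Real.norm_of_nonneg hε]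
    ring
  rw [e, ← Real.norm_eq_abs]
  refine (norm_integral_le_of_norm_le ((int_pow 3 1).const_mul _)
    (Eventually.of_forall h2)).trans (le_of_eq ?_)
  rw [integral_const_mul]
  rfl

/-! ## Intermediate scales -/

lemma tw_smul (c z w : V) (ρ : ℝ) : tw c (ρ • z) w = ρ ^ 2 * tw c z w := by
  simp only [tw, dotProduct, cross_apply, Fin.sum_univ_three, Pi.smul_apply, smul_eq_mul]
  simp
  ring

lemma tw_abs {c : V} (hc : ∀ i, |c i| ≤ 1) (z w : V) : |tw c z w| ≤ 18 * (‖z‖ ^ 2 * ‖w‖) := by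
  have hz : ∀ i, |z i| ≤ ‖z‖ := fun i => norm_le_pi_norm z i
  have hw : ∀ i, |w i| ≤ ‖w‖ := fun i => norm_le_pi_norm w i
  have h1 : |c ⬝ᵥ z| ≤ 3 * ‖z‖ := by
    rw [dotProduct]
    refine (Finset.abs_sum_le_sum_abs _ _).trans ?_
    refine (Finset.sum_le_card_nsmul _ _ ‖z‖ fun i _ => ?_).trans (le_of_eq (by simp))
    rw [abs_mul]
    exact (mul_le_mul (hc i) (hz i) (abs_nonneg _) zero_le_one).trans (le_of_eq (one_mul _))
  have h2 : ∀ i j k l : Fin 3, |c i * z j - c k * z l| ≤ 2 * ‖z‖ := by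
    intro i j k l
    refine (abs_sub _ _).trans ?_
    rw [abs_mul, abs_mul]
    have a1 := mul_le_mul (hc i) (hz j) (abs_nonneg _) zero_le_one
    have a2 := mul_le_mul (hc k) (hz l) (abs_nonneg _) zero_le_one
    linarith
  have h3 : |w ⬝ᵥ crossProduct c z| ≤ 6 * (‖w‖ * ‖z‖) := by
    rw [cross_apply, dotProduct, Fin.sum_univ_three]
    simp only [Matrix.cons_val_zero, Matrix.cons_val_one, Matrix.cons_val]
    have b1 : |w 0 * (c 1 * z 2 - c 2 * z 1)| ≤ ‖w‖ * (2 * ‖z‖) := by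
      rw [abs_mul]
      exact mul_le_mul (hw _) (h2 _ _ _ _) (abs_nonneg _) (norm_nonneg _)
    have b2 : |w 1 * (c 2 * z 0 - c 0 * z 2)| ≤ ‖w‖ * (2 * ‖z‖) := by
      rw [abs_mul]
      exact mul_le_mul (hw _) (h2 _ _ _ _) (abs_nonneg _) (norm_nonneg _)
    have b3 : |w 2 * (c 0 * z 1 - c 1 * z 0)| ≤ ‖w‖ * (2 * ‖z‖) := by
      rw [abs_mul]
      exact mul_le_mul (hw _) (h2 _ _ _ _) (abs_nonneg _) (norm_nonneg _)
    refine (abs_add_le _ _).trans ?_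
    have b4 := abs_add_le (w 0 * (c 1 * z 2 - c 2 * z 1)) (w 1 * (c 2 * z 0 - c 0 * z 2))
    linarith
  unfold tw
  rw [abs_mul]
  calc |c ⬝ᵥ z| * |w ⬝ᵥ crossProduct c z| ≤ (3 * ‖z‖) * (6 * (‖w‖ * ‖z‖)) :=
        mul_le_mul h1 h3 (abs_nonneg _) (by positivity)
    _ = 18 * (‖z‖ ^ 2 * ‖w‖) := by ring

lemma rpow_le_one_add {a δ : ℝ} (ha : 0 ≤ a) (hδ : 0 ≤ δ) (hδ1 : δ ≤ 1) : a ^ δ ≤ 1 + a := by
  rcases le_total a 1 with h | h
  · have := Real.rpow_le_one ha h hδ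
    linarith
  · have := Real.rpow_le_rpow_of_exponent_le h hδ1
    rw [Real.rpow_one] at this
    linarith

/-- The pointwise bound of the integrand. -/
lemma tw_point {c : V} (hc : ∀ i, |c i| ≤ 1) {x : V} {Ω lam h δ ρ₁ : ℝ}
    (hΩ : ∀ y, ‖vort v y‖ ≤ Ω) (hlam : 0 ≤ lam) (hh : 0 ≤ h) (hδ : 0 < δ) (hδ1 : δ ≤ 1)
    (hρ₁ : 0 < ρ₁)
    (htw : ∀ y : V, ‖y‖ ≤ ρ₁ → tw c y (vort v (x + y)) ≤ ‖y‖ ^ 2 * (lam + h * ‖y‖ ^ δ))
    (k : ℕ) {ρ : ℝ} (hρ : 0 < ρ) (z : V) :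
    tw c z (vort v (x + ρ • z)) ≤ lam * ‖z‖ ^ 2 + h * ρ ^ δ * (‖z‖ ^ 2 + ‖z‖ ^ 3)
      + 18 * Ω * (ρ / ρ₁) ^ k * ‖z‖ ^ (2 + k) := by
  have hΩ0 : 0 ≤ Ω := (norm_nonneg _).trans (hΩ 0)
  have hz := norm_nonneg z
  have hρδ : 0 < ρ ^ δ := Real.rpow_pos_of_pos hρ _
  rcases le_or_gt ‖ρ • z‖ ρ₁ with h1 | h1
  · have h2 := htw _ h1
    rw [tw_smul, norm_smul, Real.norm_of_nonneg hρ.le, mul_pow, mul_assoc] at h2
    have h3 := le_of_mul_le_mul_left h2 (by positivity)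
    have h4 : (ρ * ‖z‖) ^ δ = ρ ^ δ * ‖z‖ ^ δ := Real.mul_rpow hρ.le hz
    rw [h4] at h3
    have h5 := rpow_le_one_add hz hδ.le hδ1
    have h6 : 0 ≤ 18 * Ω * (ρ / ρ₁) ^ k * ‖z‖ ^ (2 + k) := by positivity
    have h7 : ‖z‖ ^ 2 * (h * (ρ ^ δ * ‖z‖ ^ δ)) ≤ h * ρ ^ δ * (‖z‖ ^ 2 + ‖z‖ ^ 3) := by
      calc ‖z‖ ^ 2 * (h * (ρ ^ δ * ‖z‖ ^ δ)) = h * ρ ^ δ * (‖z‖ ^ 2 * ‖z‖ ^ δ) := by ring
        _ ≤ h * ρ ^ δ * (‖z‖ ^ 2 * (1 + ‖z‖)) := by gcongr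
        _ = h * ρ ^ δ * (‖z‖ ^ 2 + ‖z‖ ^ 3) := by ring
    nlinarith
  · rw [norm_smul, Real.norm_of_nonneg hρ.le] at h1
    have h2 : 1 ≤ (ρ * ‖z‖ / ρ₁) ^ k := one_le_pow₀ ((one_le_div₀ hρ₁).2 h1.le)
    have h3 := (le_abs_self _).trans (tw_abs hc z (vort v (x + ρ • z)))
    have h4 : ‖z‖ ^ 2 * ‖vort v (x + ρ • z)‖ ≤ ‖z‖ ^ 2 * Ω := by
      gcongr
      exact hΩ _
    have h5 : ‖z‖ ^ 2 * Ω ≤ ‖z‖ ^ 2 * Ω * (ρ * ‖z‖ / ρ₁) ^ k :=
      le_mul_of_one_le_right (by positivity) h2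
    have h6 : 18 * (‖z‖ ^ 2 * Ω * (ρ * ‖z‖ / ρ₁) ^ k) = 18 * Ω * (ρ / ρ₁) ^ k * ‖z‖ ^ (2 + k) := by
      rw [mul_div_right_comm, mul_pow, pow_add]
      ring
    have h7 : 0 ≤ lam * ‖z‖ ^ 2 + h * ρ ^ δ * (‖z‖ ^ 2 + ‖z‖ ^ 3) := by positivity
    linarith

lemma VF.tw_cont (H : VF v M) (c x : V) (ρ : ℝ) :
    Continuous fun z : V => tw c z (vort v (x + ρ • z)) := by
  have h1 : ∀ i j, Continuous fun z : V => Gr v i j (x + ρ • z) := fun i j =>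
    fcont (H.bd i j).cont x ρ
  simp only [tw_eq]
  fun_prop

/-- The bound of the average of the twist. -/
lemma VF.J_le (H : VF v M) {c : V} (hc : ∀ i, |c i| ≤ 1) {x : V} {Ω lam h δ ρ₁ : ℝ}
    (hΩ : ∀ y, ‖vort v y‖ ≤ Ω) (hlam : 0 ≤ lam) (hh : 0 ≤ h) (hδ : 0 < δ) (hδ1 : δ ≤ 1)
    (hρ₁ : 0 < ρ₁)
    (htw : ∀ y : V, ‖y‖ ≤ ρ₁ → tw c y (vort v (x + y)) ≤ ‖y‖ ^ 2 * (lam + h * ‖y‖ ^ δ))
    (k : ℕ) {ρ : ℝ} (hρ : 0 < ρ) :
    ∫ z, tw c z (vort v (x + ρ • z)) ∂g3 ≤ lam * mom 3 2 + h * ρ ^ δ * (mom 3 2 + mom 3 3)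
      + 18 * Ω * (ρ / ρ₁) ^ k * mom 3 (2 + k) := by
  have hi : Integrable (fun z : V => tw c z (vort v (x + ρ • z))) g3 :=
    int_of_pow (k := 2) (H.tw_cont c x ρ) (C := 18 * Ω) fun z => by
      refine (tw_abs hc z _).trans ?_
      have : ‖z‖ ^ 2 * ‖vort v (x + ρ • z)‖ ≤ ‖z‖ ^ 2 * Ω := by
        gcongr
        exact hΩ _
      linarith
  have j1 : Integrable (fun z : V => lam * ‖z‖ ^ 2) g3 := (int_pow 3 2).const_mul _
  have j2 : Integrable (fun z : V => h * ρ ^ δ * (‖z‖ ^ 2 + ‖z‖ ^ 3)) g3 :=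
    ((int_pow 3 2).add (int_pow 3 3)).const_mul _
  have j3 : Integrable (fun z : V => 18 * Ω * (ρ / ρ₁) ^ k * ‖z‖ ^ (2 + k)) g3 :=
    (int_pow 3 (2 + k)).const_mul _
  have j12 : Integrable (fun z : V => lam * ‖z‖ ^ 2 + h * ρ ^ δ * (‖z‖ ^ 2 + ‖z‖ ^ 3)) g3 :=
    j1.add j2
  have j123 : Integrable (fun z : V => lam * ‖z‖ ^ 2 + h * ρ ^ δ * (‖z‖ ^ 2 + ‖z‖ ^ 3)
      + 18 * Ω * (ρ / ρ₁) ^ k * ‖z‖ ^ (2 + k)) g3 := j12.add j3
  refine (integral_mono hi j123 fun z =>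
    tw_point hc hΩ hlam hh hδ hδ1 hρ₁ htw k hρ z).trans (le_of_eq ?_)
  rw [integral_add j12 j3, integral_add j1 j2, integral_const_mul, integral_const_mul,
    integral_const_mul, integral_add (int_pow 3 2) (int_pow 3 3)]
  rfl

/-- Comparison of the averages at two scales. -/
lemma VF.middle (H : VF v M) {c : V} (hc : ∀ i, |c i| ≤ 1) {x : V} {Ω lam h δ ρ₁ : ℝ}
    (hΩ : ∀ y, ‖vort v y‖ ≤ Ω) (hlam : 0 ≤ lam) (hh : 0 ≤ h) (hδ : 0 < δ) (hδ1 : δ ≤ 1)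
    (hρ₁ : 0 < ρ₁)
    (htw : ∀ y : V, ‖y‖ ≤ ρ₁ → tw c y (vort v (x + y)) ≤ ‖y‖ ^ 2 * (lam + h * ‖y‖ ^ δ))
    {k : ℕ} (hk : 1 ≤ k) {ε r : ℝ} (hε : 0 < ε) (hr : ε ≤ r) :
    Av (str v c) x ε ≤ Av (str v c) x r + lam * mom 3 2 * Real.log (r / ε)
      + h * (mom 3 2 + mom 3 3) * (r ^ δ / δ) + 18 * Ω * mom 3 (2 + k) * (r / ρ₁) ^ k := by
  have hΩ0 : 0 ≤ Ω := (norm_nonneg _).trans (hΩ 0)
  have m2 := mom_nonneg 3 2
  have m3 := mom_nonneg 3 3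
  have mk := mom_nonneg 3 (2 + k)
  have hr0 : 0 < r := hε.trans_le hr
  have hbd := H.str_bd hc
  have hk0 : (0 : ℝ) < k := by exact_mod_cast hk
  set F : ℝ → ℝ := fun ρ => Av (str v c) x ρ + (lam * mom 3 2 * Real.log ρ
      + h * (mom 3 2 + mom 3 3) / δ * ρ ^ δ + 18 * Ω * mom 3 (2 + k) / (k * ρ₁ ^ k) * ρ ^ k) with hF
  have hd : ∀ ρ, 0 < ρ → HasDerivAt F (∑ k, ∫ z, z k * pd k (str v c) (x + ρ • z) ∂g3
      + (lam * mom 3 2 * ρ⁻¹ + h * (mom 3 2 + mom 3 3) / δ * (δ * ρ ^ (δ - 1))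
        + 18 * Ω * mom 3 (2 + k) / (k * ρ₁ ^ k) * (k * ρ ^ (k - 1)))) ρ := by
    intro ρ hρ
    have a1 := Av_deriv hbd x ρ
    have a2 := (Real.hasDerivAt_log hρ.ne').const_mul (lam * mom 3 2)
    have a3 := (Real.hasDerivAt_rpow_const (p := δ) (Or.inl hρ.ne')).const_mul
      (h * (mom 3 2 + mom 3 3) / δ)
    have a4 := (hasDerivAt_pow k ρ).const_mul (18 * Ω * mom 3 (2 + k) / (k * ρ₁ ^ k))
    exact a1.fun_add ((a2.fun_add a3).fun_add a4)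
  have hpos : ∀ ρ, 0 < ρ → 0 ≤ ∑ k, ∫ z, z k * pd k (str v c) (x + ρ • z) ∂g3
      + (lam * mom 3 2 * ρ⁻¹ + h * (mom 3 2 + mom 3 3) / δ * (δ * ρ ^ (δ - 1))
        + 18 * Ω * mom 3 (2 + k) / (k * ρ₁ ^ k) * (k * ρ ^ (k - 1))) := by
    intro ρ hρ
    have h1 := H.scale c x ρ
    have h2 := H.J_le hc hΩ hlam hh hδ hδ1 hρ₁ htw k hρ
    refine nonneg_of_mul_nonneg_right ?_ hρ
    rw [mul_add, h1]
    have e1 : ρ * (lam * mom 3 2 * ρ⁻¹ + h * (mom 3 2 + mom 3 3) / δ * (δ * ρ ^ (δ - 1))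
        + 18 * Ω * mom 3 (2 + k) / (k * ρ₁ ^ k) * (k * ρ ^ (k - 1)))
        = lam * mom 3 2 + h * ρ ^ δ * (mom 3 2 + mom 3 3)
          + 18 * Ω * (ρ / ρ₁) ^ k * mom 3 (2 + k) := by
      have e2 : ρ * ρ ^ (δ - 1) = ρ ^ δ := by
        rw [Real.rpow_sub_one hρ.ne']
        field_simp
      have e3 : ρ * ρ ^ (k - 1) = ρ ^ k := by
        rw [← pow_succ', Nat.sub_add_cancel hk]
      rw [div_pow, ← e2, ← e3]
      field_simp
    rw [e1]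
    linarith
  have mono : MonotoneOn F (Icc ε r) := by
    refine monotoneOn_of_deriv_nonneg (convex_Icc ε r) ?_ ?_ ?_
    · intro ρ hρ
      exact (hd ρ (hε.trans_le hρ.1)).continuousAt.continuousWithinAt
    · intro ρ hρ
      rw [interior_Icc] at hρ
      exact (hd ρ (hε.trans hρ.1)).differentiableAt.differentiableWithinAt
    · intro ρ hρ
      rw [interior_Icc] at hρ
      rw [(hd ρ (hε.trans hρ.1)).deriv]
      exact hpos ρ (hε.trans hρ.1)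
  have key := mono (left_mem_Icc.2 hr) (right_mem_Icc.2 hr) hr
  simp only [hF] at key
  rw [Real.log_div hr0.ne' hε.ne']
  have p1 : 0 ≤ h * (mom 3 2 + mom 3 3) / δ * ε ^ δ := by positivity
  have p2 : 0 ≤ 18 * Ω * mom 3 (2 + k) / (k * ρ₁ ^ k) * ε ^ k := by positivity
  have p3 : 18 * Ω * mom 3 (2 + k) / (k * ρ₁ ^ k) * r ^ k
      ≤ 18 * Ω * mom 3 (2 + k) * (r / ρ₁) ^ k := by
    have e4 : 18 * Ω * mom 3 (2 + k) / (k * ρ₁ ^ k) * r ^ k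
        = (18 * Ω * mom 3 (2 + k) * (r / ρ₁) ^ k) / k := by
      rw [div_pow]
      field_simp
    rw [e4]
    refine div_le_self (by positivity) ?_
    exact_mod_cast hk
  have p4 : h * (mom 3 2 + mom 3 3) / δ * r ^ δ = h * (mom 3 2 + mom 3 3) * (r ^ δ / δ) := by ring
  linarith

end

end Pool.Agent.Helper29.Twi
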