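import Pool.Agent.Helper29.Twi.Rate

/-!
# Power rates, and the criteria from a later time on
-/

set_option autoImplicit false

open MeasureTheory ProbabilityTheory Set Filter Topology
open scoped ContDiff

namespace Pool.Agent.Helper29.Twi

open Pool.Agent.Helper29.Dir
open Pool.Agent.H708R2.EulerSign Pool.Agent.H708R2.EulerTypeI Pool.Agent.W734.NS
open Pool.Agent.W786.Max
open H459R3.NS (pd energy cube Per IsSol C4)

/-- Power rates on `[0, T)`. -/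
theorem power0 (C E δ b q : ℝ) (hδ : 0 < δ) (hδ1 : δ ≤ 1) (hb : 1 < b) (hq : q < 2 / 5) :
    ∃ c : ℝ, 0 < c ∧
    ∀ (T : ℝ) (u : ℝ → V → V) (p : ℝ → V → ℝ), IsSol 0 T u p → 0 < T → energy (u 0) ≤ E →
    (∀ t ∈ Ico 0 T, ∀ i j x, |pd j (fun y => u t y i) x| ≤ C * (T - t) ^ (-b)) →
    (∀ᵐ t, t ∈ Ioo 0 T → MaxTwist (u t) ((T - t) ^ q)
      (c * (T - t) ^ (b - 2)) (c * (T - t) ^ (-(1 + 2 * δ / 5) : ℝ)) δ) →
    ∀ l : ℕ, ∃ B, ∀ t ∈ Ico 0 T, hn (l + 2) (u t) ≤ B := by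
  obtain ⟨Ca, hCa, hmain⟩ := stretch_sol
  have hq' : 0 < 2 / 5 - q := by linarith
  have hb' : 0 < b - 1 := by linarith
  obtain ⟨k, hk⟩ := exists_nat_gt ((b - 1) / (2 / 5 - q))
  have hk1 : 1 ≤ k := by
    have h1 : 0 < (b - 1) / (2 / 5 - q) := by positivity
    have h2 : (0 : ℝ) < k := h1.trans hk
    exact_mod_cast h2
  have hkk : b - 1 < (2 / 5 - q) * k := by
    rw [div_lt_iff₀ hq'] at hk
    linarith
  have hKk := Kc_pos k
  set K : ℝ := Kc k * 2 ^ (k + 3) with hK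
  have hK0 : 0 < K := by positivity
  set R : ℝ := 1 + 16 * K * (2 + |E|) with hR
  have hR1 : 1 ≤ R := by
    have : 0 ≤ 16 * K * (2 + |E|) := by positivity
    linarith
  have hR0 : 0 < R := by linarith
  set M : ℝ := (1 + Ca * |C| / (b - 1) + 1 / δ) * R with hM
  have hM0 : 0 < M := by positivity
  set c : ℝ := 1 / (16 * K * M) with hc
  have hc0 : 0 < c := by positivity
  have hKcM : K * (c * M) = 1 / 16 := by
    rw [hc]
    field_simp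
  refine ⟨c, hc0, ?_⟩
  intro T u p h hT hEn hg hmax l
  have hpos : ∀ t ∈ Ico 0 T, 0 < T - t := fun t ht => by linarith [ht.2]
  have hE0 : 0 ≤ energy (u 0) := Finset.sum_nonneg fun i _ => integral_nonneg fun _ => sq_nonneg _
  set g : ℝ → ℝ := fun t => |C| * (T - t) ^ (-b) with hgdef
  have hgc : ContinuousOn g (Ico 0 T) :=
    continuousOn_const.mul ((continuousOn_const.sub continuousOn_id).rpow_const fun t ht =>
      Or.inl (hpos t ht).ne')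
  have hg' : ∀ t ∈ Ico 0 T, ∀ i j x, |pd j (fun y => u t y i) x| ≤ g t := fun t ht i j x =>
    (hg t ht i j x).trans (mul_le_mul_of_nonneg_right (le_abs_self C)
      (Real.rpow_nonneg (hpos t ht).le _))
  have e1 : ∀ t ∈ Ico 0 T, ∫ q in 0..t, g q ≤ |C| / (b - 1) * (T - t) ^ (1 - b) := by
    intro t ht
    have hd : ∀ q ∈ uIcc 0 t, HasDerivAt (fun q => |C| / (b - 1) * (T - q) ^ (1 - b)) (g q) q := by
      intro q hq
      rw [uIcc_of_le ht.1] at hq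
      have h0 : T - q ≠ 0 := by
        have : 0 < T - q := by linarith [hq.2, ht.2]
        exact this.ne'
      have h1 := ((((hasDerivAt_id q).const_sub T).rpow_const (p := 1 - b)
        (Or.inl h0)).const_mul (|C| / (b - 1)))
      refine h1.congr_deriv ?_
      have e2 : (1 - b - 1 : ℝ) = -b := by ring
      simp only [id, e2, hgdef]
      field_simp
      ring
    rw [intervalIntegral.integral_eq_sub_of_hasDerivAt hd (ii_of_cont hgc ht), sub_zero]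
    have : 0 ≤ |C| / (b - 1) * T ^ (1 - b) := by positivity
    linarith
  have hsI : T / 2 ∈ Ioo 0 T := ⟨half_pos hT, half_lt_self hT⟩
  obtain ⟨A, hA, hstr, -⟩ := hmain T u p g h hgc hg' (T / 2) hsI
  have hA0 : 0 < A := by linarith
  set w : ℝ := (2 / 5 - q) * k - (b - 1) with hw
  have hw0 : 0 < w := by rw [hw]; linarith
  set a4 : ℝ := 1 / (16 * K * (1 + |C| * R ^ k)) with ha4
  have ha40 : 0 < a4 := by positivity
  obtain ⟨s₁, hs₁, hev⟩ := exists_start ((small_rpow (e := 2 / 5) (a := 1 / R) (by norm_num)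
    (by positivity)).and ((small_rpow (e := b - 1) (a := 1 / A) hb' (by positivity)).and
    (small_rpow (e := w) (a := a4) hw0 ha40))) hT
  set s₀ : ℝ := max s₁ (T / 2) with hs₀
  have hs₀I : s₀ ∈ Ico 0 T := ⟨hs₁.1.trans (le_max_left _ _), max_lt hs₁.2 hsI.2⟩
  refine crit_kappa h hT hgc hg' hs₀I (κ := 1 / 4) (by norm_num) (by norm_num) ?_ l
  filter_upwards [hmax] with t ht1 ht
  have hts₁ : t ∈ Ioo s₁ T := ⟨(le_max_left _ _).trans_lt ht.1, ht.2⟩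
  have htT : t ∈ Ico (T / 2) T := ⟨((le_max_right _ _).trans_lt ht.1).le, ht.2⟩
  have ht0 : t ∈ Ioo 0 T := ⟨hs₀I.1.trans_lt ht.1, ht.2⟩
  obtain ⟨x, hx1, hx2⟩ := ht1 ht0
  refine ⟨x, hx1, ?_⟩
  obtain ⟨v1, v2, v3⟩ := hev t hts₁
  have e1t := e1 t ⟨ht0.1.le, ht0.2⟩
  set X : ℝ := T - t with hX
  have hX0 : 0 < X := by rw [hX]; linarith [ht.2]
  have hX25 : 0 < X ^ (2 / 5 : ℝ) := Real.rpow_pos_of_pos hX0 _
  have hXq : 0 < X ^ q := Real.rpow_pos_of_pos hX0 _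
  have key := hstr t htT x (c * X ^ (b - 2)) (c * X ^ (-(1 + 2 * δ / 5) : ℝ)) δ
    (X ^ q) (R * X ^ (2 / 5 : ℝ)) k (by positivity) (by positivity) hδ hδ1
    hXq hk1 (by positivity) (by
      rw [le_div_iff₀ hR0] at v1
      linarith) hx2
  have hW : 0 ≤ Wq u t x := by
    rw [Wq_eq t x]
    positivity
  refine key.trans (mul_le_mul_of_nonneg_right ?_ hW)
  -- the four terms
  have t1 : K * ((2 + energy (u 0)) * (R * X ^ (2 / 5 : ℝ)) ^ (-(5 / 2) : ℝ)) ≤ 1 / 16 / X := by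
    refine term1 hK0 hE0 ?_ hX0
    have : energy (u 0) ≤ |E| := hEn.trans (le_abs_self E)
    rw [hR]
    gcongr
  have t3 := term3 (K := K) (R := R) (X := X) (c := c) (δ := δ) (M := M) hK0 hR1 hX0 hδ hδ1 (by
    rw [hM]
    have : 0 ≤ (1 + Ca * |C| / (b - 1)) * R := by positivity
    linarith) hc
  have hXi : 0 < X⁻¹ := inv_pos.2 hX0
  have t2 : K * (c * X ^ (b - 2) * (A + Ca * ∫ q in 0..t, g q)) ≤ 1 / 16 / X := by
    have f1 : X ^ (b - 2) = X⁻¹ * X ^ (b - 1) := by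
      rw [← Real.rpow_neg_one, ← Real.rpow_add hX0]
      congr 1
      ring
    have f2 : X ^ (b - 1) * X ^ (1 - b) = 1 := by
      rw [← Real.rpow_add hX0]
      simp
    have f3 : X ^ (b - 1) * A ≤ 1 := by
      rw [le_div_iff₀ hA0] at v2
      exact v2
    have f5 : 0 ≤ X ^ (b - 1) := Real.rpow_nonneg hX0.le _
    have f4 : X ^ (b - 1) * (A + Ca * ∫ q in 0..t, g q) ≤ 1 + Ca * |C| / (b - 1) := by
      calc X ^ (b - 1) * (A + Ca * ∫ q in 0..t, g q)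
          ≤ X ^ (b - 1) * (A + Ca * (|C| / (b - 1) * X ^ (1 - b))) := by gcongr
        _ = X ^ (b - 1) * A + Ca * |C| / (b - 1) * (X ^ (b - 1) * X ^ (1 - b)) := by ring
        _ ≤ 1 + Ca * |C| / (b - 1) := by
          rw [f2, mul_one]
          linarith
    have h6 : c * (1 + Ca * |C| / (b - 1)) ≤ c * M := by
      refine mul_le_mul_of_nonneg_left ?_ hc0.le
      rw [hM]
      have h7 : (1 + Ca * |C| / (b - 1)) * 1 ≤ (1 + Ca * |C| / (b - 1)) * R :=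
        mul_le_mul_of_nonneg_left hR1 (by positivity)
      have h8 : 0 ≤ (1 / δ) * R := by positivity
      linarith
    calc K * (c * X ^ (b - 2) * (A + Ca * ∫ q in 0..t, g q))
        = K * (c * (X ^ (b - 1) * (A + Ca * ∫ q in 0..t, g q))) * X⁻¹ := by
          rw [f1]
          ring
      _ ≤ K * (c * (1 + Ca * |C| / (b - 1))) * X⁻¹ := by gcongr
      _ ≤ K * (c * M) * X⁻¹ := by gcongr
      _ = 1 / 16 / X := by rw [hKcM, ← div_eq_mul_inv]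
  have t4 : K * (g t * (R * X ^ (2 / 5 : ℝ) / X ^ q) ^ k) ≤ 1 / 16 / X := by
    have h1 : (R * X ^ (2 / 5 : ℝ) / X ^ q) ^ k = R ^ k * X ^ ((2 / 5 - q) * k) := by
      rw [mul_div_assoc, ← Real.rpow_sub hX0, mul_pow, ← Real.rpow_natCast (X ^ (2 / 5 - q)) k,
        ← Real.rpow_mul hX0.le]
    have h2 : X ^ (-b) * X ^ ((2 / 5 - q) * k) = X⁻¹ * X ^ w := by
      rw [← Real.rpow_neg_one, ← Real.rpow_add hX0, ← Real.rpow_add hX0]
      congr 1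
      rw [hw]
      ring
    have h3 : 0 ≤ X ^ w := Real.rpow_nonneg hX0.le _
    have h4 : K * ((|C| * R ^ k) * X ^ w) ≤ 1 / 16 := by
      calc K * ((|C| * R ^ k) * X ^ w) ≤ K * ((1 + |C| * R ^ k) * a4) := by
            gcongr
            linarith
        _ = 1 / 16 := by
            rw [ha4]
            field_simp
    rw [h1]
    calc K * (g t * (R ^ k * X ^ ((2 / 5 - q) * k)))
        = K * ((|C| * R ^ k) * (X ^ (-b) * X ^ ((2 / 5 - q) * k))) := by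
          simp only [hgdef, ← hX]
          ring
      _ = K * ((|C| * R ^ k) * X ^ w) * X⁻¹ := by
          rw [h2]
          ring
      _ ≤ 1 / 16 * X⁻¹ := mul_le_mul_of_nonneg_right h4 hXi.le
      _ = 1 / 16 / X := by rw [← div_eq_mul_inv]
  have e : 1 / 4 / X = 1 / 16 / X + 1 / 16 / X + 1 / 16 / X + 1 / 16 / X := by ring
  rw [e]
  have e' : K * ((2 + energy (u 0)) * (R * X ^ (2 / 5 : ℝ)) ^ (-(5 / 2) : ℝ)
      + c * X ^ (b - 2) * (A + Ca * ∫ q in 0..t, g q)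
      + c * X ^ (-(1 + 2 * δ / 5) : ℝ) * ((R * X ^ (2 / 5 : ℝ)) ^ δ / δ)
      + g t * (R * X ^ (2 / 5 : ℝ) / X ^ q) ^ k)
      = K * ((2 + energy (u 0)) * (R * X ^ (2 / 5 : ℝ)) ^ (-(5 / 2) : ℝ))
      + K * (c * X ^ (b - 2) * (A + Ca * ∫ q in 0..t, g q))
      + K * (c * X ^ (-(1 + 2 * δ / 5) : ℝ) * ((R * X ^ (2 / 5 : ℝ)) ^ δ / δ))
      + K * (g t * (R * X ^ (2 / 5 : ℝ) / X ^ q) ^ k) := by ring
  rw [e']
  linarith

/-- From the later time `t₀` on: the solution. -/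
lemma reg_shift {T t₀ : ℝ} {u : ℝ → V → V} {p : ℝ → V → ℝ} (h : IsSol 0 T u p)
    (ht₀ : t₀ ∈ Ico 0 T) {l : ℕ}
    (hB : ∃ B, ∀ t ∈ Ico 0 (T - t₀), hn (l + 2) (u (t + t₀)) ≤ B) :
    ∃ B, ∀ t ∈ Ico 0 T, hn (l + 2) (u t) ≤ B := by
  obtain ⟨B1, hB1⟩ := hB
  obtain ⟨B2, hB2⟩ := hn_bdd_Icc h ht₀ (l + 2)
  refine ⟨max B1 B2, fun t ht => ?_⟩
  rcases le_or_gt t t₀ with h4 | h4
  · exact (hB2 t ⟨ht.1, h4⟩).trans (le_max_right _ _)
  · have h5 := hB1 (t - t₀) ⟨by linarith, by linarith [ht.2]⟩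
    simp only [sub_add_cancel] at h5
    exact h5.trans (le_max_left _ _)

lemma ae_shift {T t₀ : ℝ} {P : ℝ → Prop} (hP : ∀ᵐ t, t ∈ Ioo t₀ T → P t) :
    ∀ᵐ t, t ∈ Ioo 0 (T - t₀) → P (t + t₀) := by
  have h1 := (measurePreserving_add_right volume t₀).quasiMeasurePreserving.ae hP
  filter_upwards [h1] with t ht htI
  exact ht ⟨by linarith [htI.1], by linarith [htI.2]⟩

/-- The general criterion. -/
theorem twist_gen {T t₀ : ℝ} {u : ℝ → V → V} {p : ℝ → V → ℝ} {g lam hh r ρ : ℝ → ℝ}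
    (h : IsSol 0 T u p) (ht₀ : t₀ ∈ Ico 0 T) {δ : ℝ} {k : ℕ} (hδ : 0 < δ) (hδ1 : δ ≤ 1)
    (hk : 1 ≤ k) (hgc : ContinuousOn g (Ico t₀ T)) (hlc : ContinuousOn lam (Ico t₀ T))
    (hhc : ContinuousOn hh (Ico t₀ T)) (hrc : ContinuousOn r (Ico t₀ T))
    (hρc : ContinuousOn ρ (Ico t₀ T))
    (hg : ∀ t ∈ Ico t₀ T, ∀ i j x, |pd j (fun y => u t y i) x| ≤ g t)
    (hlam : ∀ t ∈ Ico t₀ T, 0 ≤ lam t) (hh0 : ∀ t ∈ Ico t₀ T, 0 ≤ hh t)
    (hr : ∀ t ∈ Ico t₀ T, 0 < r t ∧ r t ≤ 1) (hρ : ∀ t ∈ Ico t₀ T, 0 < ρ t)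
    (hmax : ∀ᵐ t, t ∈ Ioo t₀ T → MaxTwist (u t) (ρ t) (lam t) (hh t) δ)
    (i1 : IntegrableOn (fun t => r t ^ (-(5 / 2) : ℝ)) (Ioo t₀ T))
    (i2 : IntegrableOn (fun t => lam t * (1 + ∫ q in t₀..t, g q)) (Ioo t₀ T))
    (i3 : IntegrableOn (fun t => hh t * r t ^ δ) (Ioo t₀ T))
    (i4 : IntegrableOn (fun t => g t * (r t / ρ t) ^ k) (Ioo t₀ T)) (l : ℕ) :
    ∃ B, ∀ t ∈ Ico 0 T, hn (l + 2) (u t) ≤ B := by
  have hT' : 0 < T - t₀ := by linarith [ht₀.2]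
  have hI : ∀ t ∈ Ico 0 (T - t₀), t + t₀ ∈ Ico t₀ T := fun t ht =>
    ⟨by linarith [ht.1], by linarith [ht.2]⟩
  have hsh : ContinuousOn (fun t : ℝ => t + t₀) (Ico 0 (T - t₀)) :=
    (continuous_id.add continuous_const).continuousOn
  refine reg_shift h ht₀ (twist_gen0 (sol_shift h ht₀.1) hT' hδ hδ1 hk (hgc.comp hsh hI)
    (hlc.comp hsh hI) (hhc.comp hsh hI) (hrc.comp hsh hI) (hρc.comp hsh hI)
    (fun t ht => hg _ (hI t ht)) (fun t ht => hlam _ (hI t ht)) (fun t ht => hh0 _ (hI t ht))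
    (fun t ht => hr _ (hI t ht)) (fun t ht => hρ _ (hI t ht)) (ae_shift hmax)
    (shift_integrable i1) ?_ (shift_integrable i3) (shift_integrable i4) l)
  refine (shift_integrable i2).congr_fun (fun t _ => ?_) measurableSet_Ioo
  have := intervalIntegral.integral_comp_add_right (f := g) (a := 0) (b := t) t₀
  rw [zero_add] at this
  simp only [Function.comp]
  rw [← this]

/-- Type I. -/
theorem type_one_tw (C E δ : ℝ) (hδ : 0 < δ) (hδ1 : δ ≤ 1) : ∃ c : ℝ, 0 < c ∧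
    ∀ (T t₀ : ℝ) (u : ℝ → V → V) (p : ℝ → V → ℝ), IsSol 0 T u p → t₀ ∈ Ico 0 T →
    energy (u 0) ≤ E →
    (∀ t ∈ Ico t₀ T, ∀ i j x, |pd j (fun y => u t y i) x| ≤ C / (T - t)) →
    (∀ᵐ t, t ∈ Ioo t₀ T → MaxTwist (u t) ((T - t) ^ (2 / 5 : ℝ) / c)
      (c / ((T - t) * |Real.log (T - t)|)) (c * (T - t) ^ (-(1 + 2 * δ / 5) : ℝ)) δ) →
    ∀ l : ℕ, ∃ B, ∀ t ∈ Ico 0 T, hn (l + 2) (u t) ≤ B := by
  obtain ⟨c, hc, hmain⟩ := type_one0 C E δ hδ hδ1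
  refine ⟨c, hc, fun T t₀ u p h ht₀ hE hg hmax l => ?_⟩
  have hT' : 0 < T - t₀ := by linarith [ht₀.2]
  have hI : ∀ t ∈ Ico 0 (T - t₀), t + t₀ ∈ Ico t₀ T := fun t ht =>
    ⟨by linarith [ht.1], by linarith [ht.2]⟩
  have e : ∀ t : ℝ, T - (t + t₀) = T - t₀ - t := fun t => by ring
  refine reg_shift h ht₀ (hmain (T - t₀) _ _ (sol_shift h ht₀.1) hT' ?_ ?_ ?_ l)
  · simp only [zero_add]
    exact (energy_le0 h ht₀).trans hE
  · intro t ht i j x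
    have h1 := hg _ (hI t ht) i j x
    rw [e t] at h1
    exact h1
  · filter_upwards [ae_shift hmax] with t h1 h2
    have h3 := h1 h2
    rw [e t] at h3
    exact h3

/-- Power rates. -/
theorem power_tw (C E δ b q : ℝ) (hδ : 0 < δ) (hδ1 : δ ≤ 1) (hb : 1 < b) (hq : q < 2 / 5) :
    ∃ c : ℝ, 0 < c ∧
    ∀ (T t₀ : ℝ) (u : ℝ → V → V) (p : ℝ → V → ℝ), IsSol 0 T u p → t₀ ∈ Ico 0 T →
    energy (u 0) ≤ E →
    (∀ t ∈ Ico t₀ T, ∀ i j x, |pd j (fun y => u t y i) x| ≤ C * (T - t) ^ (-b)) →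
    (∀ᵐ t, t ∈ Ioo t₀ T → MaxTwist (u t) ((T - t) ^ q)
      (c * (T - t) ^ (b - 2)) (c * (T - t) ^ (-(1 + 2 * δ / 5) : ℝ)) δ) →
    ∀ l : ℕ, ∃ B, ∀ t ∈ Ico 0 T, hn (l + 2) (u t) ≤ B := by
  obtain ⟨c, hc, hmain⟩ := power0 C E δ b q hδ hδ1 hb hq
  refine ⟨c, hc, fun T t₀ u p h ht₀ hE hg hmax l => ?_⟩
  have hT' : 0 < T - t₀ := by linarith [ht₀.2]
  have hI : ∀ t ∈ Ico 0 (T - t₀), t + t₀ ∈ Ico t₀ T := fun t ht =>
    ⟨by linarith [ht.1], by linarith [ht.2]⟩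
  have e : ∀ t : ℝ, T - (t + t₀) = T - t₀ - t := fun t => by ring
  refine reg_shift h ht₀ (hmain (T - t₀) _ _ (sol_shift h ht₀.1) hT' ?_ ?_ ?_ l)
  · simp only [zero_add]
    exact (energy_le0 h ht₀).trans hE
  · intro t ht i j x
    have h1 := hg _ (hI t ht) i j x
    rw [e t] at h1
    exact h1
  · filter_upwards [ae_shift hmax] with t h1 h2
    have h3 := h1 h2
    rw [e t] at h3
    exact h3

end Pool.Agent.Helper29.Twi
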