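import Pool.Agent.Helper29.Twi.Gen

/-!
# Type I and power rates
-/

set_option autoImplicit false

open MeasureTheory ProbabilityTheory Set Filter Topology
open scoped ContDiff

namespace Pool.Agent.Helper29.Twi

open Pool.Agent.Helper29.Dir
open Pool.Agent.H708R2.EulerSign Pool.Agent.H708R2.EulerTypeI Pool.Agent.W734.NS
open Pool.Agent.W786.Max
open H459R3.NS (pd energy cube Per IsSol C4)

lemma small_rpow {e a : ℝ} (he : 0 < e) (ha : 0 < a) : ∀ᶠ X in 𝓝[>] (0 : ℝ), X ^ e ≤ a := by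
  have h1 : Tendsto (fun X : ℝ => X ^ e) (𝓝[>] 0) (𝓝 0) := by
    have h2 := (Real.continuousAt_rpow_const 0 e (Or.inr he.le)).tendsto
    rw [Real.zero_rpow he.ne'] at h2
    exact h2.mono_left nhdsWithin_le_nhds
  exact (h1.eventually_lt_const ha).mono fun X hX => hX.le

lemma big_log (L : ℝ) : ∀ᶠ X in 𝓝[>] (0 : ℝ), L ≤ |Real.log X| := by
  filter_upwards [Real.tendsto_log_nhdsGT_zero.eventually_le_atBot (-L)] with X hX
  have := neg_le_abs (Real.log X)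
  linarith

lemma exists_start {P : ℝ → Prop} (hP : ∀ᶠ X in 𝓝[>] (0 : ℝ), P X) {T : ℝ} (hT : 0 < T) :
    ∃ s₀ ∈ Ico 0 T, ∀ t ∈ Ioo s₀ T, P (T - t) := by
  obtain ⟨ε, hε, hsub⟩ := mem_nhdsGT_iff_exists_Ioo_subset.1 hP
  have hε0 : 0 < ε := hε
  refine ⟨max 0 (T - ε), ⟨le_max_left _ _, max_lt hT (by linarith)⟩, fun t ht => ?_⟩
  have h1 : T - ε < t := (le_max_right _ _).trans_lt ht.1
  exact hsub ⟨by linarith [ht.2], by linarith⟩

lemma term1 {K E R X : ℝ} (hK : 0 < K) (hE : 0 ≤ E) (hR : 1 + 16 * K * (2 + E) ≤ R) (hX : 0 < X) :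
    K * ((2 + E) * (R * X ^ (2 / 5 : ℝ)) ^ (-(5 / 2) : ℝ)) ≤ 1 / 16 / X := by
  have hR1 : 1 ≤ R := by
    have : 0 ≤ 16 * K * (2 + E) := by positivity
    linarith
  have hR0 : 0 < R := by linarith
  have e1 : (R * X ^ (2 / 5 : ℝ)) ^ (-(5 / 2) : ℝ) = R ^ (-(5 / 2) : ℝ) * X⁻¹ := by
    rw [Real.mul_rpow hR0.le (Real.rpow_nonneg hX.le _), ← Real.rpow_mul hX.le,
      show (2 / 5 * -(5 / 2) : ℝ) = -1 by norm_num, Real.rpow_neg_one]
  have e2 : R ^ (-(5 / 2) : ℝ) ≤ R⁻¹ := by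
    rw [← Real.rpow_neg_one]
    exact Real.rpow_le_rpow_of_exponent_le hR1 (by norm_num)
  have e3 : K * (2 + E) * R⁻¹ ≤ 1 / 16 := by
    rw [← div_eq_mul_inv, div_le_iff₀ hR0]
    linarith
  have hXi : 0 < X⁻¹ := inv_pos.2 hX
  rw [e1]
  calc K * ((2 + E) * (R ^ (-(5 / 2) : ℝ) * X⁻¹))
      ≤ K * ((2 + E) * (R⁻¹ * X⁻¹)) := by gcongr
    _ = (K * (2 + E) * R⁻¹) * X⁻¹ := by ring
    _ ≤ 1 / 16 * X⁻¹ := mul_le_mul_of_nonneg_right e3 hXi.le
    _ = 1 / 16 / X := by rw [div_eq_mul_inv (1 / 16) X]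

lemma term3 {K R X c δ M : ℝ} (hK : 0 < K) (hR : 1 ≤ R) (hX : 0 < X) (hδ : 0 < δ) (hδ1 : δ ≤ 1)
    (hM : 1 / δ * R ≤ M) (hc : c = 1 / (16 * K * M)) :
    K * (c * X ^ (-(1 + 2 * δ / 5) : ℝ) * ((R * X ^ (2 / 5 : ℝ)) ^ δ / δ)) ≤ 1 / 16 / X := by
  have hR0 : 0 < R := by linarith
  have hM0 : 0 < M := lt_of_lt_of_le (by positivity) hM
  have hc0 : 0 < c := by rw [hc]; positivity
  have e1 : (R * X ^ (2 / 5 : ℝ)) ^ δ = R ^ δ * X ^ (2 * δ / 5 : ℝ) := by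
    rw [Real.mul_rpow hR0.le (Real.rpow_nonneg hX.le _), ← Real.rpow_mul hX.le]
    congr 2
    ring
  have e2 : X ^ (-(1 + 2 * δ / 5) : ℝ) * X ^ (2 * δ / 5 : ℝ) = X⁻¹ := by
    rw [← Real.rpow_add hX, show (-(1 + 2 * δ / 5) + 2 * δ / 5 : ℝ) = -1 by ring,
      Real.rpow_neg_one]
  have e3 : R ^ δ ≤ R := by
    calc R ^ δ ≤ R ^ (1 : ℝ) := Real.rpow_le_rpow_of_exponent_le hR hδ1
      _ = R := Real.rpow_one R
  have hXi : 0 < X⁻¹ := inv_pos.2 hX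
  have e4 : K * (c * (R ^ δ / δ)) ≤ 1 / 16 := by
    have h1 : R ^ δ / δ ≤ M := by
      refine le_trans ?_ hM
      rw [div_eq_mul_inv, one_div, mul_comm (δ⁻¹)]
      exact mul_le_mul_of_nonneg_right e3 (by positivity)
    have h2 : K * (c * M) = 1 / 16 := by
      rw [hc]
      field_simp
    rw [← h2]
    gcongr
  calc K * (c * X ^ (-(1 + 2 * δ / 5) : ℝ) * ((R * X ^ (2 / 5 : ℝ)) ^ δ / δ))
      = K * (c * (R ^ δ / δ)) * (X ^ (-(1 + 2 * δ / 5) : ℝ) * X ^ (2 * δ / 5 : ℝ)) := by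
        rw [e1]
        ring
    _ = K * (c * (R ^ δ / δ)) * X⁻¹ := by rw [e2]
    _ ≤ 1 / 16 * X⁻¹ := mul_le_mul_of_nonneg_right e4 hXi.le
    _ = 1 / 16 / X := by rw [div_eq_mul_inv (1 / 16) X]

/-- Type I on `[0, T)`. -/
theorem type_one0 (C E δ : ℝ) (hδ : 0 < δ) (hδ1 : δ ≤ 1) : ∃ c : ℝ, 0 < c ∧
    ∀ (T : ℝ) (u : ℝ → V → V) (p : ℝ → V → ℝ), IsSol 0 T u p → 0 < T → energy (u 0) ≤ E →
    (∀ t ∈ Ico 0 T, ∀ i j x, |pd j (fun y => u t y i) x| ≤ C / (T - t)) →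
    (∀ᵐ t, t ∈ Ioo 0 T → MaxTwist (u t) ((T - t) ^ (2 / 5 : ℝ) / c)
      (c / ((T - t) * |Real.log (T - t)|)) (c * (T - t) ^ (-(1 + 2 * δ / 5) : ℝ)) δ) →
    ∀ l : ℕ, ∃ B, ∀ t ∈ Ico 0 T, hn (l + 2) (u t) ≤ B := by
  obtain ⟨Ca, hCa, hmain⟩ := stretch_sol
  have hK1 := Kc_pos 1
  set K : ℝ := Kc 1 * 2 ^ (1 + 3) with hK
  have hK0 : 0 < K := by positivity
  set R : ℝ := 1 + 16 * K * (2 + |E|) with hR
  have hR1 : 1 ≤ R := by
    have : 0 ≤ 16 * K * (2 + |E|) := by positivity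
    linarith
  have hR0 : 0 < R := by linarith
  set M : ℝ := (1 + |C| + Ca * |C| + 1 / δ) * R with hM
  have hM0 : 0 < M := by positivity
  set c : ℝ := 1 / (16 * K * M) with hc
  have hc0 : 0 < c := by positivity
  have hKcM : K * (c * M) = 1 / 16 := by
    rw [hc]
    field_simp
  refine ⟨c, hc0, ?_⟩
  intro T u p h hT hEn hg hmax l
  have hpos : ∀ t ∈ Ico 0 T, 0 < T - t := fun t ht => by linarith [ht.2]
  have hE0 : 0 ≤ energy (u 0) := Finset.sum_nonneg fun i _ => integral_nonneg fun _ => sq_nonneg _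
  set g : ℝ → ℝ := fun t => |C| / (T - t) with hgdef
  have hgc : ContinuousOn g (Ico 0 T) :=
    continuousOn_const.div (continuousOn_const.sub continuousOn_id) fun t ht => (hpos t ht).ne'
  have hg' : ∀ t ∈ Ico 0 T, ∀ i j x, |pd j (fun y => u t y i) x| ≤ g t := fun t ht i j x =>
    (hg t ht i j x).trans (div_le_div_of_nonneg_right (le_abs_self C) (hpos t ht).le)
  have e1 : ∀ t ∈ Ico 0 T, ∫ q in 0..t, g q = |C| * (Real.log T - Real.log (T - t)) := by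
    intro t ht
    have hd : ∀ q ∈ uIcc 0 t, HasDerivAt (fun q => -(|C| * Real.log (T - q))) (g q) q := by
      intro q hq
      rw [uIcc_of_le ht.1] at hq
      have h0 : T - q ≠ 0 := by
        have : 0 < T - q := by linarith [hq.2, ht.2]
        exact this.ne'
      have h1 := ((((hasDerivAt_id q).const_sub T).log h0).const_mul |C|).neg
      refine h1.congr_deriv ?_
      simp only [id, hgdef]
      ring
    rw [intervalIntegral.integral_eq_sub_of_hasDerivAt hd (ii_of_cont hgc ht), sub_zero]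
    ring
  have hsI : T / 2 ∈ Ioo 0 T := ⟨half_pos hT, half_lt_self hT⟩
  obtain ⟨A, hA, hstr, -⟩ := hmain T u p g h hgc hg' (T / 2) hsI
  obtain ⟨s₁, hs₁, hev⟩ := exists_start ((small_rpow (e := 2 / 5) (a := 1 / R) (by norm_num)
    (by positivity)).and ((small_rpow (e := 1) (a := 1 / 2) one_pos (by norm_num)).and
    ((big_log (A + Ca * |C| * Real.log T)).and (big_log 1)))) hT
  set s₀ : ℝ := max s₁ (T / 2) with hs₀
  have hs₀I : s₀ ∈ Ico 0 T := ⟨hs₁.1.trans (le_max_left _ _), max_lt hs₁.2 hsI.2⟩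
  refine crit_kappa h hT hgc hg' hs₀I (κ := 1 / 4) (by norm_num) (by norm_num) ?_ l
  filter_upwards [hmax] with t ht1 ht
  have hts₁ : t ∈ Ioo s₁ T := ⟨(le_max_left _ _).trans_lt ht.1, ht.2⟩
  have htT : t ∈ Ico (T / 2) T := ⟨((le_max_right _ _).trans_lt ht.1).le, ht.2⟩
  have ht0 : t ∈ Ioo 0 T := ⟨hs₀I.1.trans_lt ht.1, ht.2⟩
  obtain ⟨x, hx1, hx2⟩ := ht1 ht0
  refine ⟨x, hx1, ?_⟩
  obtain ⟨v1, v2, v3, v4⟩ := hev t hts₁
  set X : ℝ := T - t with hX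
  have hX0 : 0 < X := by rw [hX]; linarith [ht.2]
  rw [Real.rpow_one] at v2
  have hl0 : 0 < |Real.log X| := by linarith
  have hX25 : 0 < X ^ (2 / 5 : ℝ) := Real.rpow_pos_of_pos hX0 _
  have key := hstr t htT x (c / (X * |Real.log X|)) (c * X ^ (-(1 + 2 * δ / 5) : ℝ)) δ
    (X ^ (2 / 5 : ℝ) / c) (R * X ^ (2 / 5 : ℝ)) 1 (by positivity) (by positivity) hδ hδ1
    (by positivity) le_rfl (by positivity) (by
      rw [le_div_iff₀ hR0] at v1
      linarith) hx2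
  have hW : 0 ≤ Wq u t x := by
    rw [Wq_eq t x]
    positivity
  refine key.trans (mul_le_mul_of_nonneg_right ?_ hW)
  -- the four terms
  have t1 : K * ((2 + energy (u 0)) * (R * X ^ (2 / 5 : ℝ)) ^ (-(5 / 2) : ℝ)) ≤ 1 / 16 / X := by
    refine term1 hK0 hE0 ?_ hX0
    have : energy (u 0) ≤ |E| := hEn.trans (le_abs_self E)
    rw [hR]
    gcongr
  have t3 := term3 (K := K) (R := R) (X := X) (c := c) (δ := δ) (M := M) hK0 hR1 hX0 hδ hδ1 (by
    rw [hM]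
    have : 0 ≤ (1 + |C| + Ca * |C|) * R := by positivity
    linarith) hc
  have t2 : K * (c / (X * |Real.log X|) * (A + Ca * ∫ q in 0..t, g q)) ≤ 1 / 16 / X := by
    rw [e1 t ⟨ht0.1.le, ht0.2⟩, ← hX]
    have h1 : -Real.log X ≤ |Real.log X| := neg_le_abs _
    have h2 : A + Ca * (|C| * (Real.log T - Real.log X)) ≤ |Real.log X| * (1 + Ca * |C|) := by
      have h3 : Ca * |C| * (-Real.log X) ≤ Ca * |C| * |Real.log X| :=
        mul_le_mul_of_nonneg_left h1 (by positivity)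
      linarith
    have h4 : c / (X * |Real.log X|) * (A + Ca * (|C| * (Real.log T - Real.log X)))
        ≤ c / (X * |Real.log X|) * (|Real.log X| * (1 + Ca * |C|)) :=
      mul_le_mul_of_nonneg_left h2 (by positivity)
    have h5 : c / (X * |Real.log X|) * (|Real.log X| * (1 + Ca * |C|))
        = c * (1 + Ca * |C|) / X := by
      field_simp
    have h6 : c * (1 + Ca * |C|) ≤ c * M := by
      refine mul_le_mul_of_nonneg_left ?_ hc0.le
      rw [hM]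
      have h7 : (1 + Ca * |C|) * 1 ≤ (1 + Ca * |C|) * R :=
        mul_le_mul_of_nonneg_left hR1 (by positivity)
      have h8 : 0 ≤ (|C| + 1 / δ) * R := by positivity
      linarith
    calc K * (c / (X * |Real.log X|) * (A + Ca * (|C| * (Real.log T - Real.log X))))
        ≤ K * (c * (1 + Ca * |C|) / X) := by
          rw [← h5]
          exact mul_le_mul_of_nonneg_left h4 hK0.le
      _ ≤ K * (c * M / X) := by gcongr
      _ = K * (c * M) / X := by ring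
      _ = 1 / 16 / X := by rw [hKcM]
  have t4 : K * (g t * (R * X ^ (2 / 5 : ℝ) / (X ^ (2 / 5 : ℝ) / c)) ^ 1) ≤ 1 / 16 / X := by
    have h1 : R * X ^ (2 / 5 : ℝ) / (X ^ (2 / 5 : ℝ) / c) = R * c := by
      field_simp
    have h2 : |C| * R ≤ M := by
      rw [hM]
      have : 0 ≤ (1 + Ca * |C| + 1 / δ) * R := by positivity
      linarith
    rw [h1, pow_one]
    calc K * (g t * (R * c)) = K * (c * (|C| * R)) / X := by
          simp only [hgdef, ← hX]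
          ring
      _ ≤ K * (c * M) / X := by gcongr
      _ = 1 / 16 / X := by rw [hKcM]
  have e : 1 / 4 / X = 1 / 16 / X + 1 / 16 / X + 1 / 16 / X + 1 / 16 / X := by ring
  rw [e]
  have e' : K * ((2 + energy (u 0)) * (R * X ^ (2 / 5 : ℝ)) ^ (-(5 / 2) : ℝ)
      + c / (X * |Real.log X|) * (A + Ca * ∫ q in 0..t, g q)
      + c * X ^ (-(1 + 2 * δ / 5) : ℝ) * ((R * X ^ (2 / 5 : ℝ)) ^ δ / δ)
      + g t * (R * X ^ (2 / 5 : ℝ) / (X ^ (2 / 5 : ℝ) / c)) ^ 1)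
      = K * ((2 + energy (u 0)) * (R * X ^ (2 / 5 : ℝ)) ^ (-(5 / 2) : ℝ))
      + K * (c / (X * |Real.log X|) * (A + Ca * ∫ q in 0..t, g q))
      + K * (c * X ^ (-(1 + 2 * δ / 5) : ℝ) * ((R * X ^ (2 / 5 : ℝ)) ^ δ / δ))
      + K * (g t * (R * X ^ (2 / 5 : ℝ) / (X ^ (2 / 5 : ℝ) / c)) ^ 1) := by ring
  rw [e']
  linarith

end Pool.Agent.Helper29.Twi
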