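import Pool.Agent.Helper29.Twi.L2
import Pool.Agent.Helper29.Dir.Rates

/-!
# Gaussian averages of the velocity gradient: dependence on the scale
-/

set_option autoImplicit false

open MeasureTheory ProbabilityTheory Set Filter Topology

namespace Pool.Agent.Helper29.Twi

open Pool.Agent.Helper29.Dir
open Pool.Agent.H708R2.EulerSign Pool.Agent.H708R2.EulerTypeI
open H459R3.NS (pd)

/-- The Gaussian measure of the space. -/
noncomputable abbrev g3 : Measure V := gn 3

/-- Bounded functions of class `C¹` with bounded derivative. -/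
structure BD (f : V → ℝ) (M : ℝ) : Prop where
  c1 : ContDiff ℝ 1 f
  b0 : ∀ z, |f z| ≤ M
  b1 : ∀ z, ‖fderiv ℝ f z‖ ≤ M

namespace BD

variable {f : V → ℝ} {M : ℝ} (h : BD f M)

include h

lemma cont : Continuous f := h.c1.continuous

lemma M0 : 0 ≤ M := (abs_nonneg _).trans (h.b0 0)

lemma cpd (j : Fin 3) : Continuous (pd j f) :=
  (h.c1.continuous_fderiv one_ne_zero).clm_apply continuous_const

lemma bpd (j : Fin 3) (z : V) : |pd j f z| ≤ M := by
  have h1 := (fderiv ℝ f z).le_opNorm (Pi.single j 1 : V)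
  have h2 : ‖(Pi.single j 1 : V)‖ = 1 := by simp [Pi.norm_single]
  rw [h2, mul_one] at h1
  exact h1.trans (h.b1 z)

lemma line (x : V) (ρ : ℝ) (k : Fin 3) (z : V) :
    HasDerivAt (fun s : ℝ => f (x + ρ • (z + s • (Pi.single k 1 : V)))) (ρ * pd k f (x + ρ • z)) 0
      := by
  have h1 : HasFDerivAt f (fderiv ℝ f (x + ρ • z)) (x + ρ • z) :=
    ((h.c1.differentiable one_ne_zero) _).hasFDerivAt
  have h2 : HasDerivAt (fun s : ℝ => x + ρ • (z + s • (Pi.single k 1 : V)))
      (ρ • (Pi.single k 1 : V)) 0 := by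
    have h3 : HasDerivAt (fun s : ℝ => s • (Pi.single k 1 : V)) (Pi.single k 1 : V) 0 := by
      simpa using (hasDerivAt_id (0 : ℝ)).smul_const (Pi.single k 1 : V)
    exact ((h3.const_add z).const_smul ρ).const_add x
  have h4 : HasFDerivAt f (fderiv ℝ f (x + ρ • z)) (x + ρ • (z + (0 : ℝ) • (Pi.single k 1 : V))) := by
    rw [zero_smul, add_zero]
    exact h1
  have h5 := h4.comp_hasDerivAt (0 : ℝ) h2
  refine h5.congr_deriv ?_
  rw [map_smul]
  rfl

lemma comp_cont (x : V) (ρ : ℝ) : Continuous fun z : V => f (x + ρ • z) :=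
  h.cont.comp (by fun_prop)

end BD

variable {f : V → ℝ} {M : ℝ}

lemma fcont {f : V → ℝ} (hf : Continuous f) (x : V) (ρ : ℝ) : Continuous fun z : V => f (x + ρ • z) :=
  hf.comp (by fun_prop)

lemma i0 {f : V → ℝ} (hf : Continuous f) (hb : ∀ z, |f z| ≤ M) (x : V) (ρ : ℝ) :
    Integrable (fun z => f (x + ρ • z)) g3 :=
  int_of_pow (k := 0) (fcont hf x ρ) (C := M) fun z => by simpa using hb _

lemma i1 {f : V → ℝ} (hf : Continuous f) (hb : ∀ z, |f z| ≤ M) (x : V) (ρ : ℝ) (j : Fin 3) :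
    Integrable (fun z => z j * f (x + ρ • z)) g3 := by
  have hc := fcont hf x ρ
  refine int_of_pow (k := 1) (by fun_prop) (C := M) fun z => ?_
  rw [abs_mul, pow_one, mul_comm M]
  exact mul_le_mul (norm_le_pi_norm z j) (hb _) (abs_nonneg _) (norm_nonneg _)

lemma i2 {f : V → ℝ} (hf : Continuous f) (hb : ∀ z, |f z| ≤ M) (x : V) (ρ : ℝ) (j k : Fin 3) :
    Integrable (fun z => z j * (z k * f (x + ρ • z))) g3 := by
  have hc := fcont hf x ρ
  refine int_of_pow (k := 2) (by fun_prop) (C := M) fun z => ?_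
  rw [abs_mul, abs_mul]
  have h1 : |z j| ≤ ‖z‖ := norm_le_pi_norm z j
  have h2 : |z k| ≤ ‖z‖ := norm_le_pi_norm z k
  calc |z j| * (|z k| * |f (x + ρ • z)|) ≤ ‖z‖ * (‖z‖ * M) :=
        mul_le_mul h1 (mul_le_mul h2 (hb _) (abs_nonneg _) (norm_nonneg _))
          (by positivity) (norm_nonneg _)
    _ = M * ‖z‖ ^ 2 := by ring

lemma st1 (h : BD f M) (x : V) (ρ : ℝ) (k : Fin 3) :
    ∫ z, z k * f (x + ρ • z) ∂g3 = ρ * ∫ z, pd k f (x + ρ • z) ∂g3 := by
  have hM := h.M0
  rw [← integral_const_mul]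
  refine stein_n k (fcont h.cont x ρ) (continuous_const.mul (fcont (h.cpd k) x ρ))
    (fun z => h.line x ρ k z) (C := M + |ρ| * M) (fun z => ?_) fun z => ?_
  · have := norm_nonneg z
    have h1 : 0 ≤ |ρ| * M := by positivity
    refine (h.b0 _).trans ?_
    nlinarith [mul_nonneg hM this, mul_nonneg h1 this]
  · have := norm_nonneg z
    have h1 : 0 ≤ |ρ| * M := by positivity
    rw [abs_mul]
    have h2 : |ρ| * |pd k f (x + ρ • z)| ≤ |ρ| * M :=
      mul_le_mul_of_nonneg_left (h.bpd k _) (abs_nonneg _)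
    nlinarith [mul_nonneg hM this, mul_nonneg h1 this]

lemma st2 (h : BD f M) (x : V) (ρ : ℝ) (j k : Fin 3) :
    ∫ z, z k * (z j * f (x + ρ • z)) ∂g3
      = (if j = k then ∫ z, f (x + ρ • z) ∂g3 else 0)
        + ρ * ∫ z, z j * pd k f (x + ρ • z) ∂g3 := by
  have hM := h.M0
  have hc := fcont h.cont x ρ
  have hc' := fcont (h.cpd k) x ρ
  have key : ∫ z, z k * (z j * f (x + ρ • z)) ∂g3
      = ∫ z, ((if j = k then 1 else 0) * f (x + ρ • z) + ρ * (z j * pd k f (x + ρ • z))) ∂g3 := by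
    refine stein_n k ((continuous_apply j).mul hc)
      ((continuous_const.mul hc).add (continuous_const.mul ((continuous_apply j).mul hc')))
      (fun z => ?_) (C := M + |ρ| * M) (fun z => ?_) fun z => ?_
    · have h1 : HasDerivAt (fun s : ℝ => (z + s • (Pi.single k 1 : V)) j)
          (if j = k then 1 else 0) 0 := by
        have h2 : HasDerivAt (fun s : ℝ => z j + s * (Pi.single k 1 : V) j)
            ((Pi.single k 1 : V) j) 0 := by
          simpa using ((hasDerivAt_id (0 : ℝ)).mul_const ((Pi.single k 1 : V) j)).const_add (z j)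
        have h3 : (Pi.single k 1 : V) j = if j = k then 1 else 0 := by
          rw [Pi.single_apply]
        rw [h3] at h2
        refine h2.congr_of_eventuallyEq (Eventually.of_forall fun s => ?_)
        simp [Pi.single_apply]
      have h4 := h1.mul (h.line x ρ k z)
      refine h4.congr_deriv ?_
      simp only [zero_smul, add_zero]
      ring
    · rw [abs_mul]
      have h1 : |z j| ≤ ‖z‖ := norm_le_pi_norm z j
      have h2 := h.b0 (x + ρ • z)
      have h3 : 0 ≤ |ρ| * M := by positivity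
      have h4 := norm_nonneg z
      have h5 : |z j| * |f (x + ρ • z)| ≤ ‖z‖ * M := mul_le_mul h1 h2 (abs_nonneg _) h4
      nlinarith [mul_nonneg h3 h4]
    · refine (abs_add_le _ _).trans ?_
      rw [abs_mul, abs_mul, abs_mul]
      have h1 : |z j| ≤ ‖z‖ := norm_le_pi_norm z j
      have h2 := h.b0 (x + ρ • z)
      have h3 : 0 ≤ |ρ| * M := by positivity
      have h4 := norm_nonneg z
      have h5 : |ρ| * (|z j| * |pd k f (x + ρ • z)|) ≤ |ρ| * (‖z‖ * M) := by
        gcongr
        exact h.bpd k _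
      have h6 : |(if j = k then (1 : ℝ) else 0)| ≤ 1 := by split_ifs <;> simp
      have h7 : |(if j = k then (1 : ℝ) else 0)| * |f (x + ρ • z)| ≤ 1 * M :=
        mul_le_mul h6 h2 (abs_nonneg _) zero_le_one
      nlinarith [mul_nonneg hM h4]
  rw [key, integral_add ((i0 h.cont h.b0 x ρ).const_mul _)
    ((i1 (h.cpd k) (h.bpd k) x ρ j).const_mul _), integral_const_mul, integral_const_mul]
  congr 1
  split_ifs <;> simp

/-- The Gaussian average. -/
noncomputable def Av (f : V → ℝ) (x : V) (ρ : ℝ) : ℝ := ∫ z, f (x + ρ • z) ∂g3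

lemma Av_deriv (h : BD f M) (x : V) (ρ : ℝ) :
    HasDerivAt (Av f x) (∑ k, ∫ z, z k * pd k f (x + ρ • z) ∂g3) ρ := by
  have hM := h.M0
  have hval : ∀ (ρ : ℝ) (z : V), fderiv ℝ f (x + ρ • z) z = ∑ k, z k * pd k f (x + ρ • z) := by
    intro ρ z
    have h1 : ∀ L : V →L[ℝ] ℝ, L z = ∑ k, z k * L (Pi.single k 1) := by
      intro L
      conv_lhs => rw [sum_single z]
      rw [map_sum]
      exact Finset.sum_congr rfl fun k _ => by rw [map_smul, smul_eq_mul]
    exact h1 _
  have key : HasDerivAt (Av f x) (∫ z, ∑ k, z k * pd k f (x + ρ • z) ∂g3) ρ := by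
    refine (hasDerivAt_integral_of_dominated_loc_of_deriv_le (μ := g3)
      (F := fun ρ z => f (x + ρ • z)) (F' := fun ρ z => ∑ k, z k * pd k f (x + ρ • z))
      (bound := fun z => M * ‖z‖ ^ 1) (s := univ) univ_mem ?_ ?_ ?_ ?_ ?_ ?_).2
    · exact Eventually.of_forall fun ρ => (fcont h.cont x ρ).aestronglyMeasurable
    · exact i0 h.cont h.b0 x ρ
    · have h1 : ∀ k, Continuous fun z : V => pd k f (x + ρ • z) := fun k => fcont (h.cpd k) x ρ
      exact Continuous.aestronglyMeasurable (by fun_prop)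
    · refine Eventually.of_forall fun z ρ _ => ?_
      rw [← hval, pow_one]
      exact ((fderiv ℝ f _).le_opNorm z).trans
        (mul_le_mul_of_nonneg_right (h.b1 _) (norm_nonneg _))
    · exact (int_pow 3 1).const_mul M
    · refine Eventually.of_forall fun z ρ _ => ?_
      have h1 : HasFDerivAt f (fderiv ℝ f (x + ρ • z)) (x + ρ • z) :=
        ((h.c1.differentiable one_ne_zero) _).hasFDerivAt
      have h2 : HasDerivAt (fun s : ℝ => x + s • z) z ρ := by
        simpa using ((hasDerivAt_id ρ).smul_const z).const_add x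
      have h3 := h1.comp_hasDerivAt ρ h2
      refine h3.congr_deriv ?_
      rw [← hval]
  rwa [integral_finsetSum _ fun k _ => i1 (h.cpd k) (h.bpd k) x ρ k] at key

end Pool.Agent.Helper29.Twi
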