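import Pool.Agent.Helper29.Twi.Near

/-!
# Bounds of the stretching rate and of the gradient at a fixed time
-/

set_option autoImplicit false

open MeasureTheory ProbabilityTheory Set Filter Topology

namespace Pool.Agent.Helper29.Twi

open Pool.Agent.Helper29.Dir
open Pool.Agent.H708R2.EulerSign Pool.Agent.H708R2.EulerTypeI
open H459R3.NS (pd energy cube Per)

/-- The constant. -/
noncomputable def Kc (k : ℕ) : ℝ :=
  9 * mom 3 1 + 9 * (mom 3 2 + 8) + mom 3 2 + (mom 3 2 + mom 3 3) + 18 * mom 3 (2 + k) + 1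

lemma Kc_pos (k : ℕ) : 0 < Kc k := by
  have m1 := mom_nonneg 3 1
  have m2 := mom_nonneg 3 2
  have m3 := mom_nonneg 3 3
  have mk := mom_nonneg 3 (2 + k)
  unfold Kc
  positivity

section

variable {v : V → V} {M : ℝ}

lemma VF.str_fd_le (H : VF v M) {N : ℝ} (hN : ∀ y, ‖fderiv ℝ (fderiv ℝ v) y‖ ≤ N) {c : V}
    (hc : ∀ i, |c i| ≤ 1) (y : V) : ‖fderiv ℝ (str v c) y‖ ≤ 9 * N := by
  have hN0 : 0 ≤ N := (norm_nonneg (fderiv ℝ (fderiv ℝ v) 0)).trans (hN 0)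
  have hcc : ∀ i j, |c i * c j| ≤ 1 := fun i j => by
    rw [abs_mul]
    exact mul_le_one₀ (hc i) (abs_nonneg _) (hc j)
  have hd : ∀ i j y, DifferentiableAt ℝ (Gr v i j) y := fun i j y =>
    ((H.bd i j).c1.differentiable one_ne_zero) y
  have hG : ∀ i j, ‖fderiv ℝ (Gr v i j) y‖ ≤ N := by
    intro i j
    rw [H.fd]
    refine ContinuousLinearMap.opNorm_le_bound _ hN0 fun w => ?_
    have h1 : ‖fderiv ℝ (fderiv ℝ v) y w (Pi.single j 1) i‖
        ≤ ‖fderiv ℝ (fderiv ℝ v) y w (Pi.single j 1)‖ :=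
      norm_le_pi_norm (fderiv ℝ (fderiv ℝ v) y w (Pi.single j 1)) i
    have h2 := (fderiv ℝ (fderiv ℝ v) y w).le_opNorm (Pi.single j 1)
    rw [norm_single, mul_one] at h2
    have h3 := (fderiv ℝ (fderiv ℝ v) y).le_opNorm w
    have h4 : ‖fderiv ℝ (fderiv ℝ v) y‖ * ‖w‖ ≤ N * ‖w‖ :=
      mul_le_mul_of_nonneg_right (hN y) (norm_nonneg _)
    exact h1.trans (h2.trans (h3.trans h4))
  have e : fderiv ℝ (str v c) y = ∑ i, ∑ j, (c i * c j) • fderiv ℝ (Gr v i j) y := by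
    unfold str
    rw [fderiv_fun_sum fun i _ => DifferentiableAt.fun_sum fun j _ => (hd i j y).const_mul _]
    refine Finset.sum_congr rfl fun i _ => ?_
    rw [fderiv_fun_sum fun j _ => (hd i j y).const_mul _]
    exact Finset.sum_congr rfl fun j _ => fderiv_const_mul (hd i j y) _
  rw [e]
  refine (norm_sum_le _ _).trans ?_
  have h1 : ∀ i, ‖∑ j, (c i * c j) • fderiv ℝ (Gr v i j) y‖ ≤ 3 * N := by
    intro i
    refine (norm_sum_le _ _).trans ?_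
    refine (Finset.sum_le_card_nsmul _ _ N fun j _ => ?_).trans (le_of_eq (by simp))
    rw [norm_smul, Real.norm_eq_abs]
    exact (mul_le_mul (hcc i j) (hG i j) (norm_nonneg _) zero_le_one).trans
      (le_of_eq (one_mul _))
  refine (Finset.sum_le_card_nsmul _ _ _ fun i _ => h1 i).trans (le_of_eq ?_)
  simp
  ring

/-- The bound of the stretching rate. -/
theorem VF.stretch (H : VF v M) (hp : Per v) {E : ℝ} (hE : energy v ≤ E) {N : ℝ}
    (hN : ∀ y, ‖fderiv ℝ (fderiv ℝ v) y‖ ≤ N) {c : V} (hc : ∀ i, |c i| ≤ 1) {x : V}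
    {Ω lam h δ ρ₁ : ℝ}
    (hΩ : ∀ y, ‖vort v y‖ ≤ Ω) (hlam : 0 ≤ lam) (hh : 0 ≤ h) (hδ : 0 < δ) (hδ1 : δ ≤ 1)
    (hρ₁ : 0 < ρ₁)
    (htw : ∀ y : V, ‖y‖ ≤ ρ₁ → tw c y (vort v (x + y)) ≤ ‖y‖ ^ 2 * (lam + h * ‖y‖ ^ δ))
    {k : ℕ} (hk : 1 ≤ k) {ε r : ℝ} (hε : 0 < ε) (hr : ε ≤ r) (hr1 : r ≤ 1) :
    str v c x ≤ Kc k * (N * ε + (1 + E) * r ^ (-(5 / 2) : ℝ) + lam * Real.log (r / ε)
      + h * (r ^ δ / δ) + Ω * (r / ρ₁) ^ k) := by
  have hr0 : 0 < r := hε.trans_le hr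
  have hE0 : 0 ≤ E := le_trans (Finset.sum_nonneg fun i _ =>
    integral_nonneg fun _ => sq_nonneg _) hE
  have hN0 : 0 ≤ N := (norm_nonneg (fderiv ℝ (fderiv ℝ v) 0)).trans (hN 0)
  have hΩ0 : 0 ≤ Ω := (norm_nonneg _).trans (hΩ 0)
  have m1 := mom_nonneg 3 1
  have m2 := mom_nonneg 3 2
  have m3 := mom_nonneg 3 3
  have mk := mom_nonneg 3 (2 + k)
  have a1 := le_of_abs_le (near (H.str_bd hc) (H.str_fd_le hN hc) hε.le x)
  have a2 := H.middle hc hΩ hlam hh hδ hδ1 hρ₁ htw hk hε hr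
  have a3 := le_of_abs_le (H.far hp hE hr0 hr1 hc x)
  have hlog : 0 ≤ Real.log (r / ε) := Real.log_nonneg ((one_le_div₀ hε).2 hr)
  set X1 := N * ε with hX1
  set X2 := r ^ (-(5 / 2) : ℝ) with hX2
  set X3 := lam * Real.log (r / ε) with hX3
  set X4 := h * (r ^ δ / δ) with hX4
  set X5 := Ω * (r / ρ₁) ^ k with hX5
  have x1 : 0 ≤ X1 := by positivity
  have x2 : 0 ≤ X2 := by positivity
  have x3 : 0 ≤ X3 := by positivity
  have x4 : 0 ≤ X4 := by positivity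
  have x5 : 0 ≤ X5 := by positivity
  have b1 : 9 * N * ε * mom 3 1 = (9 * mom 3 1) * X1 := by rw [hX1]; ring
  have b2 : 9 * (X2 * ((mom 3 2 + 8 * E) / 2)) ≤ (9 * (mom 3 2 + 8)) * ((1 + E) * X2) := by
    have : (mom 3 2 + 8 * E) / 2 ≤ (mom 3 2 + 8) * (1 + E) := by
      nlinarith [mul_nonneg m2 hE0]
    calc 9 * (X2 * ((mom 3 2 + 8 * E) / 2)) ≤ 9 * (X2 * ((mom 3 2 + 8) * (1 + E))) := by gcongr
      _ = _ := by ring
  have b3 : lam * mom 3 2 * Real.log (r / ε) = mom 3 2 * X3 := by rw [hX3]; ring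
  have b4 : h * (mom 3 2 + mom 3 3) * (r ^ δ / δ) = (mom 3 2 + mom 3 3) * X4 := by rw [hX4]; ring
  have b5 : 18 * Ω * mom 3 (2 + k) * (r / ρ₁) ^ k = (18 * mom 3 (2 + k)) * X5 := by rw [hX5]; ring
  have hE1 : 0 ≤ (1 + E) * X2 := by positivity
  have c1 : (9 * mom 3 1) * X1 ≤ Kc k * X1 := mul_le_mul_of_nonneg_right (by unfold Kc; linarith) x1
  have c2 : (9 * (mom 3 2 + 8)) * ((1 + E) * X2) ≤ Kc k * ((1 + E) * X2) :=
    mul_le_mul_of_nonneg_right (by unfold Kc; linarith) hE1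
  have c3 : mom 3 2 * X3 ≤ Kc k * X3 := mul_le_mul_of_nonneg_right (by unfold Kc; linarith) x3
  have c4 : (mom 3 2 + mom 3 3) * X4 ≤ Kc k * X4 :=
    mul_le_mul_of_nonneg_right (by unfold Kc; linarith) x4
  have c5 : (18 * mom 3 (2 + k)) * X5 ≤ Kc k * X5 :=
    mul_le_mul_of_nonneg_right (by unfold Kc; linarith) x5
  have : Kc k * (X1 + (1 + E) * X2 + X3 + X4 + X5)
      = Kc k * X1 + Kc k * ((1 + E) * X2) + Kc k * X3 + Kc k * X4 + Kc k * X5 := by ring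
  rw [this]
  linarith

lemma fderiv_neg' (v : V → V) : fderiv ℝ (fun y => -v y) = fun y => -fderiv ℝ v y := by
  funext y
  exact fderiv_fun_neg

lemma Gr_neg (v : V → V) (i j : Fin 3) (y : V) : Gr (fun y => -v y) i j y = -Gr v i j y := by
  unfold Gr grad
  simp only [Matrix.of_apply]
  rw [fderiv_neg']
  rfl

lemma vort_neg (v : V → V) (y : V) : vort (fun y => -v y) y = -vort v y := by
  have h := fun i j => Gr_neg v i j y
  unfold Gr at h
  unfold vort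
  rw [h, h, h, h, h, h]
  funext i
  fin_cases i <;> simp <;> ring

lemma VF.neg (H : VF v M) : VF (fun y => -v y) M where
  c2 := H.c2.neg
  div x := by
    have h := H.div x
    have h2 := fun i j => Gr_neg v i j x
    unfold Gr at h2
    unfold divergence Matrix.trace at h ⊢
    simp only [Matrix.diag] at h ⊢
    simp only [h2, Finset.sum_neg_distrib, h, neg_zero]
  b0 x := by rw [norm_neg]; exact H.b0 x
  b1 x := by rw [fderiv_neg', norm_neg]; exact H.b1 x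
  b2 x := by
    rw [fderiv_neg']
    have e : fderiv ℝ (fun y => -fderiv ℝ v y) x = -fderiv ℝ (fderiv ℝ v) x := fderiv_fun_neg
    rw [e]
    refine ContinuousLinearMap.opNorm_le_bound _ H.M0 fun w => ?_
    have e2 : (-fderiv ℝ (fderiv ℝ v) x) w = -(fderiv ℝ (fderiv ℝ v) x w) := rfl
    rw [e2, norm_neg]
    exact ((fderiv ℝ (fderiv ℝ v) x).le_opNorm w).trans
      (mul_le_mul_of_nonneg_right (H.b2 x) (norm_nonneg _))

lemma str_neg (v : V → V) (c y : V) : str (fun y => -v y) c y = -str v c y := by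
  unfold str
  simp only [Gr_neg, mul_neg, Finset.sum_neg_distrib]

lemma VF.str_abs (H : VF v M) (hp : Per v) {E : ℝ} (hE : energy v ≤ E) {N : ℝ}
    (hN : ∀ y, ‖fderiv ℝ (fderiv ℝ v) y‖ ≤ N) {c : V} (hc : ∀ i, |c i| ≤ 1) {Ω : ℝ}
    (hΩ : ∀ y, ‖vort v y‖ ≤ Ω) {ε : ℝ} (hε : 0 < ε) (hε1 : ε ≤ 1) (x : V) :
    |str v c x| ≤ Kc 1 * (N * ε + (1 + E) + 18 * Ω * Real.log (1 / ε) + Ω) := by
  have hΩ0 : 0 ≤ Ω := (norm_nonneg _).trans (hΩ 0)
  have tr : ∀ w : V → V, (∀ y, ‖vort w y‖ ≤ Ω) → ∀ y : V, ‖y‖ ≤ 1 →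
      tw c y (vort w (x + y)) ≤ ‖y‖ ^ 2 * (18 * Ω + 0 * ‖y‖ ^ (1 : ℝ)) := by
    intro w hw y _
    have h1 := (le_abs_self _).trans (tw_abs hc y (vort w (x + y)))
    have h2 : ‖y‖ ^ 2 * ‖vort w (x + y)‖ ≤ ‖y‖ ^ 2 * Ω := by
      gcongr
      exact hw _
    linarith
  have s1 := H.stretch hp hE hN hc hΩ (lam := 18 * Ω) (h := 0) (δ := 1) (ρ₁ := 1) (by positivity)
    le_rfl one_pos le_rfl one_pos (tr v hΩ) (k := 1) le_rfl hε hε1 le_rfl
  have hp' : Per (fun y => -v y) := fun i y => by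
    show -v _ = -v _
    rw [hp i y]
  have hE' : energy (fun y => -v y) ≤ E := by
    refine le_trans (le_of_eq ?_) hE
    unfold energy
    simp
  have hN' : ∀ y, ‖fderiv ℝ (fderiv ℝ (fun y => -v y)) y‖ ≤ N := by
    intro y
    have hN0 : 0 ≤ N := (norm_nonneg (fderiv ℝ (fderiv ℝ v) 0)).trans (hN 0)
    rw [fderiv_neg']
    have e : fderiv ℝ (fun y => -fderiv ℝ v y) y = -fderiv ℝ (fderiv ℝ v) y := fderiv_fun_neg
    rw [e]
    refine ContinuousLinearMap.opNorm_le_bound _ hN0 fun w => ?_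
    have e2 : (-fderiv ℝ (fderiv ℝ v) y) w = -(fderiv ℝ (fderiv ℝ v) y w) := rfl
    rw [e2, norm_neg]
    exact ((fderiv ℝ (fderiv ℝ v) y).le_opNorm w).trans
      (mul_le_mul_of_nonneg_right (hN y) (norm_nonneg _))
  have hΩ' : ∀ y, ‖vort (fun y => -v y) y‖ ≤ Ω := fun y => by
    rw [vort_neg, norm_neg]
    exact hΩ y
  have s2 := H.neg.stretch hp' hE' hN' hc hΩ' (lam := 18 * Ω) (h := 0) (δ := 1) (ρ₁ := 1)
    (x := x) (by positivity)
    le_rfl one_pos le_rfl one_pos (tr (fun y => -v y) hΩ') (k := 1) le_rfl hε hε1 le_rfl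
  rw [str_neg] at s2
  simp only [zero_mul, add_zero, Real.one_rpow, mul_one, div_one, one_pow] at s1 s2
  rw [abs_le]
  constructor <;> linarith

/-- The bound of the gradient. -/
theorem VF.grad_le (H : VF v M) (hp : Per v) {E : ℝ} (hE : energy v ≤ E) {N : ℝ}
    (hN : ∀ y, ‖fderiv ℝ (fderiv ℝ v) y‖ ≤ N) {Ω : ℝ}
    (hΩ : ∀ y, ‖vort v y‖ ≤ Ω) {ε : ℝ} (hε : 0 < ε) (hε1 : ε ≤ 1) (x : V) (i j : Fin 3) :
    |Gr v i j x| ≤ 2 * (Kc 1 * (N * ε + (1 + E) + 18 * Ω * Real.log (1 / ε) + Ω)) + Ω := by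
  have key := fun (c : V) (hc : ∀ i, |c i| ≤ 1) => H.str_abs hp hE hN hc hΩ hε hε1 x
  set B := Kc 1 * (N * ε + (1 + E) + 18 * Ω * Real.log (1 / ε) + Ω) with hB
  have hΩ0 : 0 ≤ Ω := (norm_nonneg _).trans (hΩ 0)
  have hs0 : |str v 0 x| ≤ B := key 0 fun i => by simp
  have hB0 : 0 ≤ B := (abs_nonneg _).trans hs0
  set s : ℝ := Real.sqrt (1 / 2) with hs
  have hs2 : s * s = 1 / 2 := Real.mul_self_sqrt (by norm_num)
  have hsn : 0 ≤ s := Real.sqrt_nonneg _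
  have hs1 : |s| ≤ 1 := by
    rw [abs_of_nonneg hsn]
    nlinarith
  -- the vorticity
  have w0 : |Gr v 2 1 x - Gr v 1 2 x| ≤ Ω := by
    have := (norm_le_pi_norm (vort v x) 0).trans (hΩ x)
    rw [Real.norm_eq_abs] at this
    simpa [vort, Gr] using this
  have w1 : |Gr v 0 2 x - Gr v 2 0 x| ≤ Ω := by
    have := (norm_le_pi_norm (vort v x) 1).trans (hΩ x)
    rw [Real.norm_eq_abs] at this
    simpa [vort, Gr] using this
  have w2 : |Gr v 1 0 x - Gr v 0 1 x| ≤ Ω := by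
    have := (norm_le_pi_norm (vort v x) 2).trans (hΩ x)
    rw [Real.norm_eq_abs] at this
    simpa [vort, Gr] using this
  -- the diagonal
  have d0 : |Gr v 0 0 x| ≤ B := by
    have := key ![1, 0, 0] fun i => by fin_cases i <;> simp
    simpa [str, Fin.sum_univ_three] using this
  have d1 : |Gr v 1 1 x| ≤ B := by
    have := key ![0, 1, 0] fun i => by fin_cases i <;> simp
    simpa [str, Fin.sum_univ_three] using this
  have d2 : |Gr v 2 2 x| ≤ B := by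
    have := key ![0, 0, 1] fun i => by fin_cases i <;> simp
    simpa [str, Fin.sum_univ_three] using this
  have p01 : |(Gr v 0 0 x + Gr v 0 1 x + Gr v 1 0 x + Gr v 1 1 x) / 2| ≤ B := by
    have := key ![s, s, 0] fun i => by fin_cases i <;> simp [hs1]
    have e : str v ![s, s, 0] x = (Gr v 0 0 x + Gr v 0 1 x + Gr v 1 0 x + Gr v 1 1 x) / 2 := by
      simp only [str, Fin.sum_univ_three, Matrix.cons_val_zero, Matrix.cons_val_one,
        Matrix.cons_val]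
      linear_combination (Gr v 0 0 x + Gr v 0 1 x + Gr v 1 0 x + Gr v 1 1 x) * hs2
    rwa [e] at this
  have p02 : |(Gr v 0 0 x + Gr v 0 2 x + Gr v 2 0 x + Gr v 2 2 x) / 2| ≤ B := by
    have := key ![s, 0, s] fun i => by fin_cases i <;> simp [hs1]
    have e : str v ![s, 0, s] x = (Gr v 0 0 x + Gr v 0 2 x + Gr v 2 0 x + Gr v 2 2 x) / 2 := by
      simp only [str, Fin.sum_univ_three, Matrix.cons_val_zero, Matrix.cons_val_one,
        Matrix.cons_val]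
      linear_combination (Gr v 0 0 x + Gr v 0 2 x + Gr v 2 0 x + Gr v 2 2 x) * hs2
    rwa [e] at this
  have p12 : |(Gr v 1 1 x + Gr v 1 2 x + Gr v 2 1 x + Gr v 2 2 x) / 2| ≤ B := by
    have := key ![0, s, s] fun i => by fin_cases i <;> simp [hs1]
    have e : str v ![0, s, s] x = (Gr v 1 1 x + Gr v 1 2 x + Gr v 2 1 x + Gr v 2 2 x) / 2 := by
      simp only [str, Fin.sum_univ_three, Matrix.cons_val_zero, Matrix.cons_val_one,
        Matrix.cons_val]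
      linear_combination (Gr v 1 1 x + Gr v 1 2 x + Gr v 2 1 x + Gr v 2 2 x) * hs2
    rwa [e] at this
  rw [abs_le] at w0 w1 w2 d0 d1 d2 p01 p02 p12
  obtain ⟨w0a, w0b⟩ := w0
  obtain ⟨w1a, w1b⟩ := w1
  obtain ⟨w2a, w2b⟩ := w2
  obtain ⟨d0a, d0b⟩ := d0
  obtain ⟨d1a, d1b⟩ := d1
  obtain ⟨d2a, d2b⟩ := d2
  obtain ⟨p01a, p01b⟩ := p01
  obtain ⟨p02a, p02b⟩ := p02
  obtain ⟨p12a, p12b⟩ := p12
  rw [abs_le]
  fin_cases i <;> fin_cases j <;> simp only [Fin.zero_eta, Fin.mk_one, Fin.reduceFinMk] <;>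
    constructor <;> linarith

end

end Pool.Agent.Helper29.Twi
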